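import Pool.Agent.Run7.h918.VWall3

/-!
Complete intersections in toric varieties with class group `ℤ²`.
-/

set_option autoImplicit false

namespace Pool.Agent.Run7.H918

open Finset MvPolynomial

variable {r s : ℕ}

/-- If for every `k ≥ 2` at least as many `d j` as `a i` are divisible by `k`, then
`#a + ∑ a - ∑ d ≤ #d + 2 #{a = 1}`. -/
theorem card_add_sum_le {ι κ : Type*} (s : Finset ι) (a : ι → ℕ) (t : Finset κ) (d : κ → ℕ)
    (ha : ∀ i ∈ s, 1 ≤ a i) (hd : ∀ j ∈ t, 1 ≤ d j)
    (h : ∀ k, 2 ≤ k → (s.filter fun i => k ∣ a i).card ≤ (t.filter fun j => k ∣ d j).card) :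
    (s.card : ℤ) + ((∑ i ∈ s, (a i : ℤ)) - ∑ j ∈ t, (d j : ℤ)) ≤
      t.card + 2 * ((s.filter fun i => a i = 1).card : ℤ) := by
  set M := (∑ i ∈ s, a i) + (∑ j ∈ t, d j) + 1 with hM
  have haM : ∀ i ∈ s, a i ≤ M := fun i hi =>
    (Finset.single_le_sum (f := a) (fun _ _ => Nat.zero_le _) hi).trans (by omega)
  have hdM : ∀ j ∈ t, d j ≤ M := fun j hj =>
    (Finset.single_le_sum (f := d) (fun _ _ => Nat.zero_le _) hj).trans (by omega)
  have e1 := sum_totient_count s a M ha haM
  have e2 := sum_totient_count t d M hd hdM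
  have e3 := sum_moebius_count s a M ha haM
  have e4 := sum_moebius_count t d M hd hdM
  let g : ℕ → ℤ := fun k => ((t.filter fun j => k ∣ d j).card : ℤ) -
    ((s.filter fun i => k ∣ a i).card : ℤ)
  have g1 : g 1 = (t.card : ℤ) - s.card := by
    simp [g]
  have key : 0 ≤ ∑ k ∈ Finset.Icc 1 M, ((Nat.totient k : ℤ) * g k -
      2 * ((ArithmeticFunction.moebius k : ℤ) * g k) + if k = 1 then g 1 else 0) := by
    refine Finset.sum_nonneg fun k hk => ?_
    rw [Finset.mem_Icc] at hk
    rcases eq_or_lt_of_le hk.1 with h1 | h1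
    · subst h1
      rw [if_pos rfl, Nat.totient_one, ArithmeticFunction.moebius_apply_one]
      push_cast
      linarith
    · rw [if_neg (by omega), add_zero]
      have h5 : 0 ≤ g k := by
        have := h k h1
        simp only [g]
        have h6 : ((s.filter fun i => k ∣ a i).card : ℤ) ≤ ((t.filter fun j => k ∣ d j).card : ℤ) := by
          exact_mod_cast this
        linarith
      have h7 : 2 * (ArithmeticFunction.moebius k : ℤ) ≤ Nat.totient k := by
        have h2 : (ArithmeticFunction.moebius k : ℤ) ≤ 1 :=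
          (le_abs_self _).trans ArithmeticFunction.abs_moebius_le_one
        rcases eq_or_lt_of_le (show 2 ≤ k from h1) with h8 | h8
        · subst h8
          rw [ArithmeticFunction.moebius_apply_prime Nat.prime_two]
          have : (0 : ℤ) ≤ (Nat.totient 2 : ℤ) := Int.natCast_nonneg _
          linarith
        · have h9 : Even (Nat.totient k) := Nat.totient_even h8
          have h10 : 0 < Nat.totient k := Nat.totient_pos.2 (by omega)
          obtain ⟨e, he⟩ := h9
          have : (2 : ℤ) ≤ Nat.totient k := by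
            have : 2 ≤ Nat.totient k := by omega
            exact_mod_cast this
          linarith
      have h8 : 0 ≤ ((Nat.totient k : ℤ) - 2 * (ArithmeticFunction.moebius k : ℤ)) * g k :=
        mul_nonneg (by linarith) h5
      linarith
  rw [Finset.sum_add_distrib, Finset.sum_sub_distrib, Finset.sum_ite_eq' (Finset.Icc 1 M) 1,
    if_pos (by rw [Finset.mem_Icc]; omega), ← Finset.mul_sum] at key
  have k1 : ∑ k ∈ Finset.Icc 1 M, (Nat.totient k : ℤ) * g k =
      ∑ j ∈ t, (d j : ℤ) - ∑ i ∈ s, (a i : ℤ) := by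
    rw [e1, e2, ← Finset.sum_sub_distrib]
    exact Finset.sum_congr rfl fun k _ => mul_sub _ _ _
  have k2 : ∑ k ∈ Finset.Icc 1 M, (ArithmeticFunction.moebius k : ℤ) * g k =
      ((t.filter fun i => d i = 1).card : ℤ) - ((s.filter fun i => a i = 1).card : ℤ) := by
    rw [e3, e4, ← Finset.sum_sub_distrib]
    exact Finset.sum_congr rfl fun k _ => mul_sub _ _ _
  rw [k1, k2, g1] at key
  have h6 : (0 : ℤ) ≤ (((t.filter fun i => d i = 1).card : ℕ) : ℤ) := Int.natCast_nonneg _
  linarith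

namespace CoxData

/-- the dimension of the fibres of a contraction is bounded by the number of coordinates of weight
one -/
theorem card_le_two {ρ : ℕ} (D : CoxData ρ r s) (hD : D.IsGood) (φ : (Fin ρ → ℤ) →+ ℤ)
    (hφ : Function.Surjective φ)
    (x : Fin r → ℂ) (hx : ∀ j, eval x (D.g j) = 0) (hxφ : ∀ i, x i ≠ 0 → φ (D.w i) = 0)
    (hss : ∀ y : Fin r → ℂ, (∀ j, eval y (D.g j) = 0) → (∀ i, x i ≠ 0 → y i ≠ 0) →
      (∃ i, y i ≠ 0 ∧ 0 < φ (D.w i)) → y ∈ D.semistable)
    (y : Fin r → ℂ) (hy : y ∈ D.semistable) (hyφ : ∀ i, y i ≠ 0 → 0 ≤ φ (D.w i)) :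
    ((univ.filter fun i => 0 < φ (D.w i)).card : ℤ) + φ D.u ≤
      (univ.filter fun j => 0 < φ (D.μ j)).card + 2 * (univ.filter fun i => φ (D.w i) = 1).card := by
  classical
  have key := card_add_sum_le (univ.filter fun i => 0 < φ (D.w i))
    (fun i => (φ (D.w i)).toNat) (univ.filter fun j => 0 < φ (D.μ j))
    (fun j => (φ (D.μ j)).toNat) (by
      intro i hi
      have h1 := (Finset.mem_filter.1 hi).2
      omega) (by
      intro j hj
      have h1 := (Finset.mem_filter.1 hj).2
      omega) (by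
      intro k hk
      have h1 := D.count_le hD φ hφ x hx hxφ hss k (by exact_mod_cast hk)
      rw [Finset.filter_filter, Finset.filter_filter]
      have e1 : (univ.filter fun i => 0 < φ (D.w i) ∧ k ∣ (φ (D.w i)).toNat) =
          univ.filter fun i => 0 < φ (D.w i) ∧ (k : ℤ) ∣ φ (D.w i) := by
        refine Finset.filter_congr fun i _ => and_congr_right fun h => ?_
        rw [← Int.natCast_dvd_natCast, Int.toNat_of_nonneg h.le]
      have e2 : (univ.filter fun i => 0 < φ (D.μ i) ∧ k ∣ (φ (D.μ i)).toNat) =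
          univ.filter fun i => 0 < φ (D.μ i) ∧ (k : ℤ) ∣ φ (D.μ i) := by
        refine Finset.filter_congr fun i _ => and_congr_right fun h => ?_
        rw [← Int.natCast_dvd_natCast, Int.toNat_of_nonneg h.le]
      rw [e1, e2]
      exact h1)
  have e1 : ∑ i ∈ univ.filter (fun i => 0 < φ (D.w i)), ((φ (D.w i)).toNat : ℤ) =
      ∑ i ∈ univ.filter (fun i => 0 < φ (D.w i)), φ (D.w i) := by
    refine Finset.sum_congr rfl fun i hi => ?_
    rw [Int.toNat_of_nonneg (Finset.mem_filter.1 hi).2.le]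
  have e2 : ∑ i ∈ univ.filter (fun i => 0 < φ (D.μ i)), ((φ (D.μ i)).toNat : ℤ) =
      ∑ i ∈ univ.filter (fun i => 0 < φ (D.μ i)), φ (D.μ i) := by
    refine Finset.sum_congr rfl fun i hi => ?_
    rw [Int.toNat_of_nonneg (Finset.mem_filter.1 hi).2.le]
  have e3 : ((univ.filter fun i => 0 < φ (D.w i)).filter fun i => (φ (D.w i)).toNat = 1) =
      univ.filter fun i => φ (D.w i) = 1 := by
    rw [Finset.filter_filter]
    refine Finset.filter_congr fun i _ => ?_
    omega
  rw [e1, e2, e3] at key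
  have split : ∀ {n : ℕ} (f : Fin n → ℤ), ∑ i, f i = ∑ i ∈ univ.filter (fun i => 0 < f i), f i -
      ∑ i ∈ univ.filter (fun i => f i < 0), (-f i) := by
    intro n f
    rw [Finset.sum_filter, Finset.sum_filter, ← Finset.sum_sub_distrib]
    refine Finset.sum_congr rfl fun i _ => ?_
    rcases lt_trichotomy (f i) 0 with h | h | h
    · rw [if_neg (by omega), if_pos h]; ring
    · rw [if_neg (by omega), if_neg (by omega), h]; ring
    · rw [if_pos h, if_neg (by omega)]; ring
  have hueq : φ D.u = ∑ i, φ (D.w i) - ∑ j, φ (D.μ j) := by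
    rw [CoxData.u, map_sub, map_sum, map_sum]
  rw [split (fun i => φ (D.w i)), split (fun j => φ (D.μ j))] at hueq
  have h4 := D.jacobian_count hD y hy φ hyφ
  linarith

/-- membership of `u` in a cone, from two coefficients -/
theorem inCone_of_two {ρ : ℕ} (w : Fin r → Fin ρ → ℤ) (Q : Set (Fin r)) (u : Fin ρ → ℤ) (i l : Fin r)
    (hi : i ∈ Q) (hl : l ∈ Q) (m α β : ℤ) (hm : 0 < m) (hα : 0 ≤ α) (hβ : 0 ≤ β)
    (h : m • u = α • w i + β • w l) : InCone w Q u := by
  classical
  rw [inCone_iff]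
  have hm' : (0 : ℚ) < m := by exact_mod_cast hm
  refine ⟨fun k => (if k = i then (α : ℚ) / m else 0) + if k = l then (β : ℚ) / m else 0, ?_, ?_, ?_⟩
  · intro k
    have h1 : (0 : ℚ) ≤ α := by exact_mod_cast hα
    have h2 : (0 : ℚ) ≤ β := by exact_mod_cast hβ
    have h3 : (0 : ℚ) ≤ α / m := div_nonneg h1 hm'.le
    have h4 : (0 : ℚ) ≤ β / m := div_nonneg h2 hm'.le
    show (0 : ℚ) ≤ (if k = i then (α : ℚ) / m else 0) + if k = l then (β : ℚ) / m else 0
    split_ifs <;> linarith
  · intro k hk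
    by_contra hQ
    apply hk
    show (if k = i then (α : ℚ) / m else 0) + (if k = l then (β : ℚ) / m else 0) = 0
    rw [if_neg (fun h : k = i => hQ (by rw [h]; exact hi)),
      if_neg (fun h : k = l => hQ (by rw [h]; exact hl)), add_zero]
  · simp only [add_smul, ite_smul, zero_smul, Finset.sum_add_distrib, Finset.sum_ite_eq',
      Finset.mem_univ, if_true]
    ext k
    have h1 := congrFun h k
    simp only [Pi.smul_apply, Pi.add_apply, smul_eq_mul] at h1
    simp only [Pi.smul_apply, Pi.add_apply, smul_eq_mul, qv]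
    have h2 : (m : ℚ) * u k = α * w i k + β * w l k := by exact_mod_cast h1
    field_simp
    linarith

/-- one side of `u` in rank two -/
theorem one_side {ρ : ℕ} (D : CoxData ρ r s) (hD : D.IsGood) (hr : 0 < r) {Ω : Type} [Field Ω]
    [Algebra ℂ Ω] (t : Fin r → Ω)
    (hker : RingHom.ker (aeval t : MvPolynomial (Fin r) ℂ →ₐ[ℂ] Ω) = D.ideal)
    (ψ : (Fin ρ → ℤ) →+ ℤ) (hψ : ∀ i, 0 < ψ (D.w i)) (hψu : 0 < ψ D.u)
    (δ : (Fin ρ → ℤ) →+ ℤ) (hδu : δ D.u = 0) (hδ : ∀ v, δ v = 0 → ψ D.u • v = ψ v • D.u)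
    (hδ0 : ∃ v, δ v ≠ 0)
    (hT : ¬ ∃ (i : Fin r) (m : ℕ) (a : Fin r → ℕ), 1 ≤ m ∧ m ≤ a i ∧ ∑ l, a l • D.w l = m • D.u) :
    ∃ (c : ℚ) (φ : (Fin ρ → ℤ) →+ ℤ), 0 < c ∧ (∀ v, 0 < φ v ↔ (δ v : ℚ) < c * ψ v) ∧
      (univ.filter fun i => 0 < φ (D.w i)).card + 1 ≤
        (univ.filter fun j => 0 < φ (D.μ j)).card +
          2 * (univ.filter fun i => 0 < δ (D.w i) ∧ 0 < φ (D.w i)).card ∧
      (univ.filter fun i => 0 < δ (D.w i) ∧ 0 < φ (D.w i)).card ≤
        (univ.filter fun j => 0 < δ (D.μ j) ∧ 0 < φ (D.μ j)).card := by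
  classical
  have hψQ : ∀ i, (0 : ℚ) < ψ (D.w i) := fun i => by exact_mod_cast hψ i
  let sl : Fin r → ℚ := fun i => (δ (D.w i) : ℚ) / ψ (D.w i)
  have hsl : ∀ i, sl i * ψ (D.w i) = δ (D.w i) := fun i => div_mul_cancel₀ _ (hψQ i).ne'
  have hslpos : ∀ i, 0 < sl i ↔ 0 < δ (D.w i) := by
    intro i
    rw [show sl i = (δ (D.w i) : ℚ) / ψ (D.w i) from rfl, div_pos_iff_of_pos_right (hψQ i)]
    exact_mod_cast Iff.rfl
  -- the relation between three vectors
  have hrel : ∀ a v : Fin ρ → ℤ, (δ a * ψ D.u) • v =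
      (δ v * ψ D.u) • a + (ψ v * δ a - δ v * ψ a) • D.u := by
    intro a v
    have h1 := hδ (δ a • v - δ v • a) (by
      rw [map_sub, map_zsmul, map_zsmul, smul_eq_mul, smul_eq_mul]; ring)
    rw [map_sub, map_zsmul, map_zsmul, smul_eq_mul, smul_eq_mul, smul_sub, smul_smul, smul_smul] at h1
    have h2 : (δ a * ψ D.u) • v = (ψ D.u * δ a) • v := by rw [mul_comm]
    rw [h2, sub_eq_iff_eq_add.1 h1, mul_comm (ψ D.u) (δ v), add_comm]
    congr 1
    rw [mul_comm (δ a) (ψ v)]
  -- membership criterion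
  have hcone : ∀ (Q : Set (Fin r)) (i l : Fin r), i ∈ Q → l ∈ Q → δ (D.w i) ≤ 0 → 0 ≤ δ (D.w l) →
      InCone D.w Q D.u := by
    intro Q i l hi hl h1 h2
    rcases eq_or_lt_of_le h1 with h3 | h3
    · have h4 := hδ _ h3
      refine inCone_of_two D.w Q D.u i i hi hi (ψ (D.w i)) (ψ D.u) 0 (hψ i) hψu.le le_rfl ?_
      rw [zero_smul, add_zero, ← h4]
    · -- `δ(w l) w i - δ(w i) w l`
      have h5 := hδ (δ (D.w l) • D.w i - δ (D.w i) • D.w l) (by
        rw [map_sub, map_zsmul, map_zsmul, smul_eq_mul, smul_eq_mul]; ring)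
      rw [map_sub, map_zsmul, map_zsmul, smul_eq_mul, smul_eq_mul, smul_sub, smul_smul, smul_smul]
        at h5
      refine inCone_of_two D.w Q D.u i l hi hl (δ (D.w l) * ψ (D.w i) - δ (D.w i) * ψ (D.w l))
        (ψ D.u * δ (D.w l)) (-(ψ D.u * δ (D.w i))) ?_ (mul_nonneg hψu.le h2) ?_ ?_
      · have e1 : 0 ≤ δ (D.w l) * ψ (D.w i) := mul_nonneg h2 (hψ i).le
        have e2 : δ (D.w i) * ψ (D.w l) < 0 := mul_neg_of_neg_of_pos h3 (hψ l)
        linarith
      · have e2 : ψ D.u * δ (D.w i) < 0 := mul_neg_of_pos_of_neg hψu h3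
        linarith
      · rw [← h5, neg_smul, sub_eq_add_neg]
  -- rational functionals
  have hadd : ∀ α β : ℚ, ∃ ξ : (Fin ρ → ℤ) →+ ℚ, ∀ v, ξ v = α * ψ v + β * δ v := by
    intro α β
    refine ⟨{ toFun := fun v => α * ψ v + β * δ v, map_zero' := by simp, map_add' := ?_ },
      fun v => rfl⟩
    intro v v'
    rw [map_add, map_add]
    push_cast
    ring
  -- visible rays
  let Vis : Fin r → Prop := fun i => 0 < δ (D.w i) ∧
    ∃ x : Fin r → ℂ, (∀ j, eval x (D.g j) = 0) ∧ x i ≠ 0 ∧ ∀ l, x l ≠ 0 → sl l = sl i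
  have hVis : ∃ i, Vis i := by
    obtain ⟨y, hy⟩ := D.semistable_nonempty hD hr
    -- some coordinate with `δ > 0`
    have hex : ∃ l, y l ≠ 0 ∧ 0 < δ (D.w l) := by
      by_contra hcon
      push Not at hcon
      obtain ⟨m, a, hm, ha, h⟩ := hy.2
      have h1 := congrArg δ h
      rw [map_comb, map_nsmul, hδu, smul_zero] at h1
      have h2 : ∀ i ∈ (univ : Finset (Fin r)), (a i : ℤ) * δ (D.w i) ≤ 0 := by
        intro i _
        by_cases h3 : a i = 0
        · simp [h3]
        · exact mul_nonpos_of_nonneg_of_nonpos (Int.natCast_nonneg _) (hcon i (ha i h3))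
      have h3 := (Finset.sum_eq_zero_iff_of_nonpos h2).1 h1
      obtain ⟨ξ, hξ⟩ := hadd 0 (-1)
      have hlim := D.limit_mem hD.homog ξ y hy.1 (fun i hi => by
        rw [hξ]
        have : (δ (D.w i) : ℚ) ≤ 0 := by exact_mod_cast hcon i hi
        linarith) (fun i => if δ (D.w i) = 0 then y i else 0) (fun i hi => by
          rw [hξ] at hi
          have : (δ (D.w i) : ℚ) = 0 := by linarith
          exact if_pos (by exact_mod_cast this)) (fun i hi => by
          refine if_neg fun h0 => hi ?_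
          rw [hξ, h0]
          simp)
      have hss : (fun i => if δ (D.w i) = 0 then y i else 0) ∈ D.semistable := by
        refine ⟨hlim, m, a, hm, fun i hi => ?_, h⟩
        have h4 := h3 i (Finset.mem_univ _)
        rcases mul_eq_zero.1 h4 with h5 | h5
        · exact absurd (by exact_mod_cast h5) hi
        · show (if δ (D.w i) = 0 then y i else 0) ≠ 0
          rw [if_pos h5]
          exact ha i hi
      have h5 := hD.free _ hss
      obtain ⟨v, hv⟩ := hδ0
      apply hv
      have h6 : AddSubgroup.closure {v | ∃ i, (fun i => if δ (D.w i) = 0 then y i else 0) i ≠ 0 ∧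
          v = D.w i} ≤ δ.ker := by
        rw [AddSubgroup.closure_le]
        rintro _ ⟨i, hi, rfl⟩
        rw [SetLike.mem_coe, AddMonoidHom.mem_ker]
        by_contra h0
        exact hi (if_neg h0)
      rw [h5] at h6
      exact (AddMonoidHom.mem_ker).1 (h6 (AddSubgroup.mem_top v))
    obtain ⟨l0, hl0, hl0'⟩ := hex
    obtain ⟨i, hi, hmax⟩ := Finset.exists_max_image (univ.filter fun l => y l ≠ 0) sl
      ⟨l0, by simp [hl0]⟩
    have hi' : y i ≠ 0 := (Finset.mem_filter.1 hi).2
    have hipos : 0 < sl i := ((hslpos l0).2 hl0').trans_le (hmax l0 (by simp [hl0]))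
    refine ⟨i, (hslpos i).1 hipos, ?_⟩
    obtain ⟨ξ, hξ⟩ := hadd (sl i) (-1)
    have hξw : ∀ l, ξ (D.w l) = (sl i - sl l) * ψ (D.w l) := by
      intro l
      rw [hξ, ← hsl l]
      ring
    refine ⟨fun l => if sl l = sl i then y l else 0, D.limit_mem hD.homog ξ y hy.1 (fun l hl => ?_) _
      (fun l hl => ?_) (fun l hl => ?_), ?_, fun l hl => ?_⟩
    · rw [hξw]
      exact mul_nonneg (sub_nonneg.2 (hmax l (by simp [hl]))) (hψQ l).le
    · rw [hξw] at hl
      rcases mul_eq_zero.1 hl with h | h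
      · exact if_pos (by linarith)
      · exact absurd h (hψQ l).ne'
    · refine if_neg fun h => hl ?_
      rw [hξw, h, sub_self, zero_mul]
    · show (if sl i = sl i then y i else 0) ≠ 0
      rw [if_pos rfl]
      exact hi'
    · by_contra h
      exact hl (if_neg h)
  obtain ⟨iv, hiv⟩ := hVis
  obtain ⟨i0, hi0, hmin⟩ := Finset.exists_min_image (univ.filter fun i => Vis i) sl
    ⟨iv, by simp [hiv]⟩
  obtain ⟨hδ0', x, hxV, hxi0, hxs⟩ := (Finset.mem_filter.1 hi0).2
  set c := sl i0 with hc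
  have hcpos : 0 < c := (hslpos i0).2 hδ0'
  -- no point of `V(g)` in the open sector
  have hK : ∀ y : Fin r → ℂ, (∀ j, eval y (D.g j) = 0) → (∀ i, y i ≠ 0 → 0 < δ (D.w i)) →
      (∃ i, y i ≠ 0 ∧ sl i < c) → False := by
    rintro y hy hpos ⟨i1, hi1, hi1c⟩
    obtain ⟨i, hi, hmn⟩ := Finset.exists_min_image (univ.filter fun l => y l ≠ 0) sl
      ⟨i1, by simp [hi1]⟩
    have hi' : y i ≠ 0 := (Finset.mem_filter.1 hi).2
    obtain ⟨ξ, hξ⟩ := hadd (-sl i) 1
    have hξw : ∀ l, ξ (D.w l) = (sl l - sl i) * ψ (D.w l) := by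
      intro l
      rw [hξ, ← hsl l]
      ring
    have hv : Vis i := by
      refine ⟨hpos i hi', fun l => if sl l = sl i then y l else 0,
        D.limit_mem hD.homog ξ y hy (fun l hl => ?_) _ (fun l hl => ?_) (fun l hl => ?_), ?_,
        fun l hl => ?_⟩
      · rw [hξw]
        exact mul_nonneg (sub_nonneg.2 (hmn l (by simp [hl]))) (hψQ l).le
      · rw [hξw] at hl
        rcases mul_eq_zero.1 hl with h | h
        · exact if_pos (by linarith)
        · exact absurd h (hψQ l).ne'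
      · refine if_neg fun h => hl ?_
        rw [hξw, h, sub_self, zero_mul]
      · show (if sl i = sl i then y i else 0) ≠ 0
        rw [if_pos rfl]
        exact hi'
      · by_contra h
        exact hl (if_neg h)
    have h1 := hmin i (by simp [hv])
    have h2 := hmn i1 (by simp [hi1])
    linarith
  -- the wall functional
  obtain ⟨Ψ, hΨ⟩ := exists_rat ψ
  obtain ⟨Δ, hΔ⟩ := exists_rat δ
  have hΦu : (c • Ψ - Δ) (qv D.u) = c * ψ D.u := by
    rw [LinearMap.sub_apply, LinearMap.smul_apply, hΨ, hΔ, hδu, smul_eq_mul, Int.cast_zero, sub_zero]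
  have hψuQ : (0 : ℚ) < ψ D.u := by exact_mod_cast hψu
  obtain ⟨φ, κ, hκ, hsurj, hφ⟩ := exists_integral (c • Ψ - Δ) (by
    intro h
    rw [h] at hΦu
    have := mul_pos hcpos hψuQ
    rw [← hΦu] at this
    simp at this)
  have hφ' : ∀ v, (φ v : ℚ) = κ * (c * ψ v - δ v) := by
    intro v
    rw [hφ, LinearMap.sub_apply, LinearMap.smul_apply, hΨ, hΔ, smul_eq_mul]
  have hφpos : ∀ v, 0 < φ v ↔ (δ v : ℚ) < c * ψ v := by
    intro v
    have h1 := hφ' v
    constructor
    · intro h
      have h2 : (0 : ℚ) < φ v := by exact_mod_cast h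
      rw [h1] at h2
      have := (mul_pos_iff_of_pos_left hκ).1 h2
      linarith
    · intro h
      have h2 : (0 : ℚ) < φ v := by
        rw [h1]
        exact mul_pos hκ (by linarith)
      exact_mod_cast h2
  have hφw : ∀ i, (φ (D.w i) : ℚ) = κ * ((c - sl i) * ψ (D.w i)) := by
    intro i
    rw [hφ', ← hsl i]
    ring
  have hφwpos : ∀ i, 0 < φ (D.w i) ↔ sl i < c := by
    intro i
    rw [hφpos, ← hsl i]
    exact mul_lt_mul_iff_left₀ (hψQ i)
  have hφu : 0 < φ D.u := by
    rw [hφpos, hδu, Int.cast_zero]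
    exact mul_pos hcpos hψuQ
  have hxφ : ∀ i, x i ≠ 0 → φ (D.w i) = 0 := by
    intro i hi
    have h1 := hφw i
    rw [hxs i hi, sub_self, zero_mul, mul_zero] at h1
    exact_mod_cast h1
  have hss : ∀ y : Fin r → ℂ, (∀ j, eval y (D.g j) = 0) → (∀ i, x i ≠ 0 → y i ≠ 0) →
      (∃ i, y i ≠ 0 ∧ 0 < φ (D.w i)) → y ∈ D.semistable := by
    rintro y hy hxy ⟨i, hi, hi'⟩
    refine ⟨hy, ?_⟩
    by_contra hcon
    refine hK y hy (fun l hl => ?_) ⟨i, hi, (hφwpos i).1 hi'⟩
    by_contra h
    push Not at h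
    exact hcon (hcone _ l i0 hl (hxy i0 hxi0) h hδ0'.le)
  -- some coordinate of positive weight
  obtain ⟨iA, hiA⟩ : ∃ i, 0 < φ (D.w i) := by
    obtain ⟨y, hy⟩ := D.semistable_nonempty hD hr
    by_contra hcon
    push Not at hcon
    have h1 := hy.2.nonneg (-φ) (fun i _ => by
      rw [AddMonoidHom.neg_apply]
      have := hcon i
      omega)
    rw [AddMonoidHom.neg_apply] at h1
    omega
  obtain ⟨y, hy1, hy2, hy3, hy4⟩ := exists_attracted D.w t D.ideal hker (fun i => (hD.coord i).1) D.g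
    D.μ hD.homog (fun j => Ideal.subset_span ⟨j, rfl⟩) φ x (by
      intro f hf
      have h1 : D.ideal ≤ RingHom.ker (eval x) := by
        rw [CoxData.ideal, Ideal.span_le]
        rintro _ ⟨j, rfl⟩
        exact hxV j
      exact h1 hf) hxφ ⟨iA, hiA⟩
  have hys := hss y hy1 hy2 hy4
  have hyφ : ∀ i, y i ≠ 0 → 0 ≤ φ (D.w i) := by
    intro i hi
    rcases hy3 i hi with h | h
    · exact (hxφ i h).ge
    · exact h.le
  have hcard := D.card_le_two hD φ hsurj x hxV hxφ hss y hys hyφ
  -- the coordinates of weight one lie in the sector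
  have hone : ∀ i, φ (D.w i) = 1 → 0 < δ (D.w i) := by
    intro i hi
    by_contra hcon
    push Not at hcon
    apply hT
    -- `v = u - w i`
    have h1 := hrel (D.w i0) (D.u - D.w i)
    have hδv : δ (D.u - D.w i) = -δ (D.w i) := by rw [map_sub, hδu, zero_sub]
    have hφv : 0 ≤ φ (D.u - D.w i) := by rw [map_sub, hi]; omega
    have hcoef : 0 ≤ ψ (D.u - D.w i) * δ (D.w i0) - δ (D.u - D.w i) * ψ (D.w i0) := by
      have h2 := hφ' (D.u - D.w i)
      have h3 : (0 : ℚ) ≤ φ (D.u - D.w i) := by exact_mod_cast hφv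
      rw [h2] at h3
      have h4 : 0 ≤ c * ψ (D.u - D.w i) - δ (D.u - D.w i) := by
        by_contra h5
        push Not at h5
        have := mul_neg_of_pos_of_neg hκ h5
        linarith
      have h5 : (0 : ℚ) ≤ (c * ψ (D.u - D.w i) - δ (D.u - D.w i)) * ψ (D.w i0) :=
        mul_nonneg h4 (hψQ i0).le
      have h6 : ((ψ (D.u - D.w i) * δ (D.w i0) - δ (D.u - D.w i) * ψ (D.w i0) : ℤ) : ℚ) =
          (c * ψ (D.u - D.w i) - δ (D.u - D.w i)) * ψ (D.w i0) := by
        push_cast
        rw [← hsl i0]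
        ring
      rw [← h6] at h5
      exact_mod_cast h5
    have hN : 0 < δ (D.w i0) * ψ D.u := mul_pos hδ0' hψu
    have hα : 0 ≤ δ (D.u - D.w i) * ψ D.u := by
      rw [hδv]
      exact mul_nonneg (by omega) hψu.le
    -- write everything with natural coefficients
    obtain ⟨N, hNe⟩ := Int.eq_ofNat_of_zero_le hN.le
    obtain ⟨α, hαe⟩ := Int.eq_ofNat_of_zero_le hα
    obtain ⟨β, hβe⟩ := Int.eq_ofNat_of_zero_le hcoef
    rw [hNe, hαe, hβe] at h1
    obtain ⟨y', hy'⟩ := D.semistable_nonempty hD hr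
    obtain ⟨m0, a, hm0, -, hau⟩ := hy'.2
    have hN1 : 1 ≤ N := by
      have : (0 : ℤ) < N := by rw [← hNe]; exact hN
      omega
    have h2 : N • D.u = N • D.w i + (α • D.w i0 + β • D.u) := by
      have h3 : (N : ℤ) • (D.u - D.w i) = (α : ℤ) • D.w i0 + (β : ℤ) • D.u := h1
      rw [natCast_zsmul, natCast_zsmul, natCast_zsmul, smul_sub] at h3
      rw [← h3]
      abel
    refine ⟨i, m0 * N, fun l => (if l = i then m0 * N else 0) + (if l = i0 then m0 * α else 0) +
      β * a l, Nat.one_le_iff_ne_zero.2 (mul_ne_zero (by omega) (by omega)), ?_, ?_⟩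
    · show m0 * N ≤ (if i = i then m0 * N else 0) + (if i = i0 then m0 * α else 0) + β * a i
      rw [if_pos rfl]
      omega
    · simp only [add_smul, ite_smul, zero_smul, Finset.sum_add_distrib, Finset.sum_ite_eq',
        Finset.mem_univ, if_true, mul_smul, ← Finset.smul_sum, hau, h2, smul_add]
      rw [smul_comm β m0]
      abel
  have hsub : (univ.filter fun i => φ (D.w i) = 1) ⊆
      univ.filter fun i => 0 < δ (D.w i) ∧ 0 < φ (D.w i) := by
    intro i hi
    have h1 := (Finset.mem_filter.1 hi).2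
    rw [Finset.mem_filter]
    exact ⟨Finset.mem_univ _, hone i h1, by omega⟩
  have hcard2 := Finset.card_le_card hsub
  refine ⟨c, φ, hcpos, hφpos, ?_, ?_⟩
  · have : (((univ.filter fun i => 0 < φ (D.w i)).card + 1 : ℕ) : ℤ) ≤
        (((univ.filter fun j => 0 < φ (D.μ j)).card +
          2 * (univ.filter fun i => 0 < δ (D.w i) ∧ 0 < φ (D.w i)).card : ℕ) : ℤ) := by
      push_cast
      have h1 : ((univ.filter fun i => φ (D.w i) = 1).card : ℤ) ≤
        ((univ.filter fun i => 0 < δ (D.w i) ∧ 0 < φ (D.w i)).card : ℤ) := by exact_mod_cast hcard2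
      linarith
    exact_mod_cast this
  · -- the equations in the sector
    by_contra hcon
    push Not at hcon
    obtain ⟨y', hy'V, hy'0, i1, hi1, hyi1⟩ := D.exists_point hD.homog ψ 0 (fun j => by
        by_contra hne
        obtain ⟨a, ha, hsupp⟩ := exists_monomial (hD.homog j) 0 hne
        apply D.mu_ne_zero hD hr j
        rw [← ha]
        refine Finset.sum_eq_zero fun i _ => ?_
        have : a i = 0 := by
          by_contra h
          exact hsupp i h rfl
        rw [this, zero_smul]) (fun i hi => absurd rfl hi)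
      (univ.filter fun i => 0 < δ (D.w i) ∧ 0 < φ (D.w i)) (fun i _ => hψ i)
      (univ.filter fun j => 0 < δ (D.μ j) ∧ 0 < φ (D.μ j)) hcon (by
        intro j hj y'' hy''
        by_contra hne
        push Not at hne
        obtain ⟨-, hne⟩ := hne
        apply hj
        obtain ⟨a, ha, hsupp⟩ := exists_monomial (hD.homog j) y'' hne
        have hmem : ∀ i, a i ≠ 0 → 0 < δ (D.w i) ∧ 0 < φ (D.w i) := by
          intro i hi
          by_contra h
          have := hy'' i (by simpa using h)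
          exact hsupp i hi this
        have hex : ∃ i, a i ≠ 0 := by
          by_contra h
          push Not at h
          apply D.mu_ne_zero hD hr j
          rw [← ha]
          exact Finset.sum_eq_zero fun i _ => by rw [h i, zero_smul]
        obtain ⟨i2, hi2⟩ := hex
        have hgen : ∀ f : (Fin ρ → ℤ) →+ ℤ, (∀ i, a i ≠ 0 → 0 < f (D.w i)) → 0 < f (D.μ j) := by
          intro f hf
          rw [← ha, map_comb]
          refine Finset.sum_pos' (fun i _ => ?_) ⟨i2, Finset.mem_univ _, ?_⟩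
          · by_cases h0 : a i = 0
            · simp [h0]
            · exact mul_nonneg (Int.natCast_nonneg _) (hf i h0).le
          · exact mul_pos (by exact_mod_cast Nat.pos_of_ne_zero hi2) (hf i2 hi2)
        rw [Finset.mem_filter]
        exact ⟨Finset.mem_univ _, hgen δ fun i hi => (hmem i hi).1, hgen φ fun i hi => (hmem i hi).2⟩)
    have hsec : ∀ i, y' i ≠ 0 → 0 < δ (D.w i) ∧ 0 < φ (D.w i) := by
      intro i hi
      by_contra h
      exact hi (hy'0 i (by simpa using h))
    exact hK y' hy'V (fun i hi => (hsec i hi).1) ⟨i1, hyi1, (hφwpos i1).1 (hsec i1 hyi1).2⟩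

/-- in rank two, a complete intersection of dimension at least `2 s - 3` -/
theorem exists_two (D : CoxData 2 r s) (hD : D.IsGood) (hr : 0 < r) {Ω : Type} [Field Ω]
    [Algebra ℂ Ω] (t : Fin r → Ω)
    (hker : RingHom.ker (aeval t : MvPolynomial (Fin r) ℂ →ₐ[ℂ] Ω) = D.ideal)
    (hdim : 3 * s ≤ r + 1) :
    ∃ (i : Fin r) (m : ℕ) (a : Fin r → ℕ), 1 ≤ m ∧ m ≤ a i ∧ ∑ l, a l • D.w l = m • D.u := by
  classical
  by_contra hT
  obtain ⟨ψ, hψ⟩ := hD.pointed
  have hu0 : D.u ≠ 0 := D.u_ne_zero hD hr (by norm_num)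
  have hψu : 0 < ψ D.u := by
    obtain ⟨y, hy⟩ := D.semistable_nonempty hD hr
    obtain ⟨m, a, hm, -, h⟩ := hy.2
    have h1 := congrArg ψ h
    rw [map_comb, map_nsmul, nsmul_eq_mul] at h1
    have h2 : 0 < ∑ i, (a i : ℤ) * ψ (D.w i) := by
      refine lt_of_le_of_ne (Finset.sum_nonneg fun i _ =>
        mul_nonneg (Int.natCast_nonneg _) (hψ i).le) fun h0 => ?_
      have h3 : ∀ i, a i = 0 := by
        intro i
        have h4 := (Finset.sum_eq_zero_iff_of_nonneg (fun i _ =>
          mul_nonneg (Int.natCast_nonneg _) (hψ i).le)).1 h0.symm i (Finset.mem_univ _)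
        rcases mul_eq_zero.1 h4 with h5 | h5
        · exact_mod_cast h5
        · exact absurd h5 (hψ i).ne'
      apply hu0
      have h5 : m • D.u = 0 := by
        rw [← h]
        exact Finset.sum_eq_zero fun i _ => by rw [h3 i, zero_smul]
      exact (smul_eq_zero.1 h5).resolve_left (by omega)
    rw [h1] at h2
    by_contra hneg
    push Not at hneg
    have := mul_nonpos_of_nonneg_of_nonpos (Int.natCast_nonneg m) hneg
    linarith
  let δ : (Fin 2 → ℤ) →+ ℤ :=
    { toFun := fun v => D.u 0 * v 1 - D.u 1 * v 0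
      map_zero' := by simp
      map_add' := by
        intro v v'
        simp only [Pi.add_apply]
        ring }
  have hδdef : ∀ v, δ v = D.u 0 * v 1 - D.u 1 * v 0 := fun v => rfl
  have hψe : ∀ v : Fin 2 → ℤ, ψ v = v 0 * ψ (Pi.single 0 1) + v 1 * ψ (Pi.single 1 1) := by
    intro v
    have h2 : v = v 0 • Pi.single 0 (1 : ℤ) + v 1 • Pi.single 1 (1 : ℤ) := by
      ext j
      fin_cases j <;> simp
    conv_lhs => rw [h2]
    rw [map_add, map_zsmul, map_zsmul, smul_eq_mul, smul_eq_mul]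
  have hδ : ∀ v, δ v = 0 → ψ D.u • v = ψ v • D.u := by
    intro v hv
    rw [hδdef] at hv
    ext j
    simp only [Pi.smul_apply, smul_eq_mul]
    rw [hψe v, hψe D.u]
    fin_cases j
    · simp only [Fin.zero_eta]
      linear_combination (-ψ (Pi.single 1 1)) * hv
    · simp only [Fin.mk_one]
      linear_combination (ψ (Pi.single 0 1)) * hv
  have hδ0 : ∃ v, δ v ≠ 0 := by
    by_contra hcon
    push Not at hcon
    apply hu0
    have h1 := hcon (Pi.single 0 1)
    have h2 := hcon (Pi.single 1 1)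
    rw [hδdef] at h1 h2
    ext j
    fin_cases j
    · simpa using h2
    · simpa using h1
  have hδu : δ D.u = 0 := by
    rw [hδdef]; ring
  obtain ⟨c1, φ1, hc1, hφ1, hn1, hm1⟩ := D.one_side hD hr t hker ψ hψ hψu δ hδu hδ hδ0 hT
  obtain ⟨c2, φ2, hc2, hφ2, hn2, hm2⟩ := D.one_side hD hr t hker ψ hψ hψu (-δ)
    (by rw [AddMonoidHom.neg_apply, hδu, neg_zero])
    (fun v hv => hδ v (by rw [AddMonoidHom.neg_apply, neg_eq_zero] at hv; exact hv))
    (by
      obtain ⟨v, hv⟩ := hδ0
      exact ⟨v, by rw [AddMonoidHom.neg_apply]; exact neg_ne_zero.2 hv⟩) hT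
  -- every weight is positive for `φ1` or `φ2`
  have hor : ∀ v, 0 < ψ v → 0 < φ1 v ∨ 0 < φ2 v := by
    intro v hv
    rw [hφ1, hφ2]
    by_contra hcon
    push Not at hcon
    obtain ⟨h1, h2⟩ := hcon
    rw [AddMonoidHom.neg_apply] at h2
    push_cast at h2
    have hvQ : (0 : ℚ) < ψ v := by exact_mod_cast hv
    have h3 := mul_pos hc1 hvQ
    have h4 := mul_pos hc2 hvQ
    linarith
  -- counting
  have hcount : ∀ {n : ℕ} (f : Fin n → (Fin 2 → ℤ)), (∀ i, 0 < ψ (f i)) →
      (univ.filter fun i => 0 < φ1 (f i)).card + (univ.filter fun i => 0 < φ2 (f i)).card =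
        n + (univ.filter fun i => 0 < φ1 (f i) ∧ 0 < φ2 (f i)).card := by
    intro n f hf
    have h1 := Finset.card_union_add_card_inter (univ.filter fun i => 0 < φ1 (f i))
      (univ.filter fun i => 0 < φ2 (f i))
    have h2 : (univ.filter fun i => 0 < φ1 (f i)) ∪ (univ.filter fun i => 0 < φ2 (f i)) = univ := by
      ext i
      simp only [Finset.mem_union, Finset.mem_filter, Finset.mem_univ, true_and, iff_true]
      exact hor _ (hf i)
    rw [h2, Finset.card_univ, Fintype.card_fin, ← Finset.filter_and] at h1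
    exact h1.symm
  have hcount2 : ∀ {n : ℕ} (f : Fin n → (Fin 2 → ℤ)), (∀ i, 0 < ψ (f i)) →
      (univ.filter fun i => 0 < δ (f i) ∧ 0 < φ1 (f i)).card +
        (univ.filter fun i => 0 < (-δ) (f i) ∧ 0 < φ2 (f i)).card ≤
        (univ.filter fun i => 0 < φ1 (f i) ∧ 0 < φ2 (f i)).card := by
    intro n f hf
    rw [← Finset.card_union_of_disjoint]
    · apply Finset.card_le_card
      intro i hi
      simp only [Finset.mem_union, Finset.mem_filter, Finset.mem_univ, true_and,
        AddMonoidHom.neg_apply] at hi ⊢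
      have hvQ : (0 : ℚ) < ψ (f i) := by exact_mod_cast hf i
      rcases hi with ⟨h1, h2⟩ | ⟨h1, h2⟩
      · refine ⟨h2, ?_⟩
        rw [hφ2, AddMonoidHom.neg_apply]
        have h3 : (0 : ℚ) < δ (f i) := by exact_mod_cast h1
        have h4 := mul_pos hc2 hvQ
        push_cast
        linarith
      · refine ⟨?_, h2⟩
        rw [hφ1]
        have h3 : (0 : ℚ) < ((-δ (f i) : ℤ) : ℚ) := by exact_mod_cast h1
        have h4 := mul_pos hc1 hvQ
        push_cast at h3
        linarith
    · rw [Finset.disjoint_filter]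
      rintro i - ⟨h1, -⟩ ⟨h2, -⟩
      rw [AddMonoidHom.neg_apply] at h2
      omega
  have e1 := hcount D.w hψ
  have e2 := hcount D.μ (D.mu_pos hD hr ψ hψ)
  have e3 := hcount2 D.w hψ
  have e4 := hcount2 D.μ (D.mu_pos hD hr ψ hψ)
  have e5 : (univ.filter fun j => 0 < φ1 (D.μ j) ∧ 0 < φ2 (D.μ j)).card ≤ s := by
    refine (Finset.card_filter_le _ _).trans ?_
    rw [Finset.card_univ, Fintype.card_fin]
  omega

end CoxData

end Pool.Agent.Run7.H918
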