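import Pool.Agent.Run7.h918.Jac

/-!
Extremal contractions of `X` itself (walls of the chamber of `u` for `V(g)`), and the theorem on the
index.
-/

set_option autoImplicit false

namespace Pool.Agent.Run7.H918

open Finset MvPolynomial

variable {ρ r s : ℕ}

/-- the rational extension of an integral functional -/
theorem exists_rat (ψ : (Fin ρ → ℤ) →+ ℤ) :
    ∃ Ψ : (Fin ρ → ℚ) →ₗ[ℚ] ℚ, ∀ v, Ψ (qv v) = (ψ v : ℚ) := by
  classical
  refine ⟨∑ k, (ψ (Pi.single k 1) : ℚ) • LinearMap.proj k, fun v => ?_⟩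
  have h2 : ∑ k, v k • Pi.single k (1 : ℤ) = v := by
    ext j
    simp only [Finset.sum_apply, Pi.smul_apply, Pi.single_apply, smul_eq_mul, mul_ite, mul_one,
      mul_zero, Finset.sum_ite_eq, Finset.mem_univ, if_true]
  conv_rhs => rw [← h2, map_sum]
  rw [LinearMap.sum_apply, Int.cast_sum]
  refine Finset.sum_congr rfl fun k _ => ?_
  rw [LinearMap.smul_apply, LinearMap.proj_apply, map_zsmul, smul_eq_mul, smul_eq_mul, qv,
    Int.cast_mul, mul_comm]

theorem span_qv_image {w : Fin r → Fin ρ → ℤ} {Q : Set (Fin r)}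
    (h : AddSubgroup.closure {v | ∃ i, i ∈ Q ∧ v = w i} = ⊤) :
    Submodule.span ℚ ((fun i => qv (w i)) '' Q) = ⊤ := by
  have h1 : ∀ v : Fin ρ → ℤ, qv v ∈ Submodule.span ℚ ((fun i => qv (w i)) '' Q) := by
    intro v
    have hv : v ∈ AddSubgroup.closure {v | ∃ i, i ∈ Q ∧ v = w i} := h ▸ AddSubgroup.mem_top v
    induction hv using AddSubgroup.closure_induction with
    | mem x hx =>
      obtain ⟨i, hi, rfl⟩ := hx
      exact Submodule.subset_span ⟨i, hi, rfl⟩
    | zero =>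
      have : qv (0 : Fin ρ → ℤ) = 0 := by ext k; simp [qv]
      rw [this]
      exact Submodule.zero_mem _
    | add x y _ _ hx hy =>
      rw [qv_add]
      exact Submodule.add_mem _ hx hy
    | neg x _ hx =>
      have : qv (-x) = -qv x := by ext k; simp [qv]
      rw [this]
      exact Submodule.neg_mem _ hx
  rw [eq_top_iff]
  intro x _
  have h2 : x = ∑ k, x k • qv (Pi.single k (1 : ℤ)) := by
    ext j
    simp only [Finset.sum_apply, Pi.smul_apply, qv, Pi.single_apply, smul_eq_mul]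
    rw [Finset.sum_eq_single j]
    · simp
    · intro b _ hb
      rw [if_neg (fun h => hb h.symm)]
      simp
    · intro h
      exact absurd (Finset.mem_univ _) h
  rw [h2]
  exact Submodule.sum_mem _ fun k _ => Submodule.smul_mem _ _ (h1 _)

namespace CoxData

variable (D : CoxData ρ r s)

/-- a weight of an equation is positive for a functional that is positive on the coordinates -/
theorem mu_pos (hD : D.IsGood) (hr : 0 < r) (ψ : (Fin ρ → ℤ) →+ ℤ) (hψ : ∀ i, 0 < ψ (D.w i))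
    (j : Fin s) : 0 < ψ (D.μ j) := by
  classical
  obtain ⟨y, hy⟩ := D.semistable_nonempty hD hr
  have hne : D.g j ≠ 0 := by
    intro h0
    apply (hD.smooth y hy).ne_zero j
    funext i
    rw [h0, map_zero, map_zero]
    rfl
  obtain ⟨d, hd⟩ := MvPolynomial.ne_zero_iff.1 hne
  have h1 := hD.homog j hd
  rw [weight_eq] at h1
  have h2 := congrArg ψ h1
  rw [map_comb] at h2
  rw [← h2]
  refine lt_of_le_of_ne (Finset.sum_nonneg fun i _ =>
    mul_nonneg (Int.natCast_nonneg _) (hψ i).le) fun h0 => ?_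
  apply D.mu_ne_zero hD hr j
  rw [← h1]
  refine Finset.sum_eq_zero fun i _ => ?_
  have h3 := (Finset.sum_eq_zero_iff_of_nonneg (fun i _ =>
    mul_nonneg (Int.natCast_nonneg _) (hψ i).le)).1 h0.symm i (Finset.mem_univ _)
  rcases mul_eq_zero.1 h3 with h4 | h4
  · have h5 : d i = 0 := by exact_mod_cast h4
    rw [h5, zero_smul]
  · exact absurd h4 (hψ i).ne'

/-- The wall of the chamber of `u` (for the cone `V(g)`) met in the direction `-ν`, `ν = μ j0`: a
surjective functional `φ`, a point `x` of `V(g)` on the wall, a semistable point `y` attracted by it;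
all points of `V(g)` near `x` on the positive side are semistable, and `u - (φ(u)/φ(ν)) ν` is in the
cone of `x`. -/
theorem exists_vwall (hD : D.IsGood) (hr : 0 < r) {Ω : Type} [Field Ω] [Algebra ℂ Ω] (t : Fin r → Ω)
    (hker : RingHom.ker (aeval t : MvPolynomial (Fin r) ℂ →ₐ[ℂ] Ω) = D.ideal) (j0 : Fin s) :
    ∃ (φ : (Fin ρ → ℤ) →+ ℤ) (x y : Fin r → ℂ), Function.Surjective φ ∧
      (∀ j, eval x (D.g j) = 0) ∧ (∀ i, x i ≠ 0 → φ (D.w i) = 0) ∧ 0 < φ (D.μ j0) ∧
      (∀ y' : Fin r → ℂ, (∀ j, eval y' (D.g j) = 0) → (∀ i, x i ≠ 0 → y' i ≠ 0) →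
        (∃ i, y' i ≠ 0 ∧ 0 < φ (D.w i)) → y' ∈ D.semistable) ∧
      y ∈ D.semistable ∧ (∀ i, y i ≠ 0 → x i ≠ 0 ∨ 0 < φ (D.w i)) ∧
      ∃ (N M : ℕ) (a : Fin r → ℕ), 1 ≤ N ∧ (∀ i, a i ≠ 0 → x i ≠ 0) ∧
        N • D.u = M • D.μ j0 + ∑ i, a i • D.w i := by
  classical
  obtain ⟨y0, hy0⟩ := D.semistable_nonempty hD hr
  obtain ⟨ψ, hψ⟩ := hD.pointed
  obtain ⟨Ψ, hΨ⟩ := exists_rat ψ
  let 𝒮 : Set (Set (Fin r)) := {Q | ∃ y : Fin r → ℂ, (∀ j, eval y (D.g j) = 0) ∧ Q = {i | y i ≠ 0}}
  have hspan0 : Submodule.span ℚ ((fun i => qv (D.w i)) '' {i | y0 i ≠ 0}) = ⊤ :=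
    span_qv_image (hD.free y0 hy0)
  have hspan : Submodule.span ℚ (Set.range fun i => qv (D.w i)) = ⊤ := by
    rw [eq_top_iff, ← hspan0]
    exact Submodule.span_mono (Set.image_subset_range _ _)
  obtain ⟨φq, Q', hQ', hφν, hQ'φ, ⟨X, hX0, hXφ, hXC⟩, hpos, hlast⟩ :=
    vwall_rat (fun i => qv (D.w i)) hspan 𝒮 (by
      rintro _ ⟨y, hy, rfl⟩ ξ hξ
      refine ⟨fun i => if ξ (qv (D.w i)) = 0 then y i else 0, ?_, ?_⟩
      · let ξ' : (Fin ρ → ℤ) →+ ℚ :=
          { toFun := fun v => ξ (qv v)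
            map_zero' := by
              have : qv (0 : Fin ρ → ℤ) = 0 := by ext k; simp [qv]
              rw [this, map_zero]
            map_add' := fun v v' => by rw [qv_add, map_add] }
        refine D.limit_mem hD.homog ξ' y hy (fun i hi => hξ i hi) _ (fun i hi => ?_) (fun i hi => ?_)
        · exact if_pos hi
        · exact if_neg hi
      · ext i
        simp only [Set.mem_ofPred_eq]
        by_cases h : ξ (qv (D.w i)) = 0
        · simp [h]
        · simp [h])
      {i | y0 i ≠ 0} ⟨y0, hy0.1, rfl⟩ hspan0 (qv D.u) ((inCone_iff _ _ _).1 hy0.2) (qv (D.μ j0)) Ψ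
      (fun i => by rw [hΨ]; exact_mod_cast hψ i)
      (by rw [hΨ]; exact_mod_cast D.mu_pos hD hr ψ hψ j0)
  obtain ⟨x, hx, rfl⟩ := hQ'
  have hφ0 : φq ≠ 0 := by
    rintro rfl
    simp at hφν
  obtain ⟨φ, c, hc, hsurj, hφ⟩ := exists_integral φq hφ0
  have hposiff : ∀ v, 0 < φ v ↔ 0 < φq (qv v) := by
    intro v
    have h4 := hφ v
    constructor
    · intro h
      have h5 : (0 : ℚ) < φ v := by exact_mod_cast h
      rw [h4] at h5
      exact (mul_pos_iff_of_pos_left hc).1 h5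
    · intro h
      have h5 : (0 : ℚ) < φ v := by
        rw [h4]
        exact mul_pos hc h
      exact_mod_cast h5
  have hzero : ∀ v, φq (qv v) = 0 → φ v = 0 := by
    intro v h
    have h4 := hφ v
    rw [h, mul_zero] at h4
    exact_mod_cast h4
  have hxφ : ∀ i, x i ≠ 0 → φ (D.w i) = 0 := fun i hi => hzero _ (hQ'φ i hi)
  have hss : ∀ y' : Fin r → ℂ, (∀ j, eval y' (D.g j) = 0) → (∀ i, x i ≠ 0 → y' i ≠ 0) →
      (∃ i, y' i ≠ 0 ∧ 0 < φ (D.w i)) → y' ∈ D.semistable := by
    rintro y' hy' hxy ⟨i, hi, hi'⟩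
    refine ⟨hy', (inCone_iff _ _ _).2 (hlast {i | y' i ≠ 0} ⟨y', hy', rfl⟩ (fun i hi => hxy i hi)
      ⟨i, hi, (hposiff _).1 hi'⟩)⟩
  obtain ⟨iA, hiA⟩ := hpos
  obtain ⟨y, hy1, hy2, hy3, hy4⟩ := exists_attracted D.w t D.ideal hker (fun i => (hD.coord i).1) D.g
    D.μ hD.homog (fun j => Ideal.subset_span ⟨j, rfl⟩) φ x (by
      intro f hf
      have h1 : D.ideal ≤ RingHom.ker (eval x) := by
        rw [CoxData.ideal, Ideal.span_le]
        rintro _ ⟨j, rfl⟩
        exact hx j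
      exact h1 hf) hxφ ⟨iA, (hposiff _).2 hiA⟩
  refine ⟨φ, x, y, hsurj, hx, hxφ, (hposiff _).2 hφν, hss, hss y hy1 hy2 hy4, hy3, ?_⟩
  -- the integral relation
  have h1 : InCone D.w {i | x i ≠ 0} (X.den • D.u - X.num • D.μ j0) := by
    rw [inCone_iff]
    obtain ⟨q, hq1, hq2, hq3⟩ := hXC
    refine ⟨fun i => (X.den : ℚ) * q i, fun i => mul_nonneg (Nat.cast_nonneg _) (hq1 i),
      fun i hi => hq2 i (fun h => hi ?_), ?_⟩
    · show (X.den : ℚ) * q i = 0
      rw [h, mul_zero]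
    · have e : ∑ i, ((X.den : ℚ) * q i) • qv (D.w i) = (X.den : ℚ) • ∑ i, q i • qv (D.w i) := by
        rw [Finset.smul_sum]
        exact Finset.sum_congr rfl fun i _ => mul_smul _ _ _
      rw [e, hq3]
      ext k
      have h2 : (X.num : ℚ) = X * X.den := by
        rw [Rat.mul_den_eq_num]
      simp only [qv, Pi.smul_apply, Pi.sub_apply, smul_eq_mul, nsmul_eq_mul, zsmul_eq_mul,
        Int.cast_sub, Int.cast_mul, Int.cast_natCast, Pi.natCast_apply, Pi.intCast_apply, Pi.mul_apply,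
        Int.cast_id, h2]
      ring
  obtain ⟨m, a, hm, ha, h⟩ := h1
  refine ⟨m * X.den, m * X.num.toNat, a, Nat.one_le_iff_ne_zero.2
    (mul_ne_zero (by omega) X.den_nz), ha, ?_⟩
  rw [h, smul_sub, mul_smul, mul_smul]
  have h3 : (X.num.toNat : ℤ) = X.num := Int.toNat_of_nonneg (Rat.num_nonneg.2 hX0)
  have h4 : X.num.toNat • D.μ j0 = X.num • D.μ j0 := by
    rw [← h3, natCast_zsmul, h3]
  rw [h4]
  abel

/-- The theorem on the index: if the number of equations whose weight is not proportional to `μ j0` is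
smaller than an integer dividing `u`, then some effective divisor in a multiple of the anticanonical
class contains a coordinate divisor with large multiplicity. -/
theorem exists_index (hD : D.IsGood) (hr : 0 < r) {Ω : Type} [Field Ω] [Algebra ℂ Ω] (t : Fin r → Ω)
    (hker : RingHom.ker (aeval t : MvPolynomial (Fin r) ℂ →ₐ[ℂ] Ω) = D.ideal) (j0 : Fin s)
    (K : Finset (Fin s))
    (hK : ∀ j, j ∉ K → ∃ p q : ℕ, 1 ≤ p ∧ 1 ≤ q ∧ p • D.μ j = q • D.μ j0)
    (m : ℕ) (hm : K.card < m) (u0 : Fin ρ → ℤ) (hu : D.u = m • u0) :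
    ∃ (i : Fin r) (m : ℕ) (a : Fin r → ℕ), 1 ≤ m ∧ m ≤ a i ∧ ∑ l, a l • D.w l = m • D.u := by
  classical
  obtain ⟨φ, x, y, hφ, hx, hxφ, hφν, hss, hy, hyx, N, M, b, hN, hb, hrel⟩ :=
    D.exists_vwall hD hr t hker j0
  have hyφ : ∀ i, y i ≠ 0 → 0 ≤ φ (D.w i) := by
    intro i hi
    rcases hyx i hi with h | h
    · exact (hxφ i h).ge
    · exact h.le
  have hupos : 0 < φ D.u := D.wall_pos hD φ hφ x hx hxφ y hy hyx
  have hum : (m : ℤ) ≤ φ D.u := by
    rw [hu, map_nsmul, nsmul_eq_mul] at hupos ⊢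
    have h1 : (0 : ℤ) < m := by
      have : 0 < m := by omega
      exact_mod_cast this
    have h2 : 0 < φ u0 := (mul_pos_iff_of_pos_left h1).1 hupos
    nlinarith
  have hcard := D.le_card_one hD φ hφ x hx hxφ hss y hy hyφ
  obtain ⟨S, hS, hScard⟩ := Finset.exists_subset_card_eq
    (s := univ.filter fun i => φ (D.w i) = 1) (n := K.card + 1) (by
      have : (K.card : ℤ) + 1 ≤ ((univ.filter fun i => φ (D.w i) = 1).card : ℤ) := by
        have h1 : (K.card : ℤ) < m := by exact_mod_cast hm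
        linarith
      exact_mod_cast this)
  have hS1 : ∀ i ∈ S, φ (D.w i) = 1 := fun i hi => (Finset.mem_filter.1 (hS hi)).2
  have hSu : (S.card : ℤ) ≤ φ D.u := by
    rw [hScard]
    have h1 : (K.card : ℤ) < m := by exact_mod_cast hm
    push_cast
    linarith
  have hSne : S.Nonempty := Finset.card_pos.1 (by omega)
  -- pigeonhole
  have hpig : ∀ (c : Fin r → ℕ) (n : ℕ), (n : ℤ) * φ D.u ≤ ∑ i ∈ S, (c i : ℤ) → ∃ i ∈ S, n ≤ c i := by
    intro c n h
    by_contra hcon
    push Not at hcon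
    have h1 : ∑ i ∈ S, (c i : ℤ) < ∑ _i ∈ S, (n : ℤ) :=
      Finset.sum_lt_sum_of_nonempty hSne fun i hi => by exact_mod_cast hcon i hi
    rw [Finset.sum_const, nsmul_eq_mul] at h1
    have h2 : (S.card : ℤ) * n ≤ (n : ℤ) * φ D.u := by
      rw [mul_comm]
      exact mul_le_mul_of_nonneg_left hSu (Int.natCast_nonneg _)
    linarith
  -- the weight of a monomial in the coordinates of `x` and of `S`
  have hsum : ∀ a : Fin r → ℕ, (∀ i, a i ≠ 0 → i ∈ S ∨ x i ≠ 0) →
      φ (∑ i, a i • D.w i) = ∑ i ∈ S, (a i : ℤ) := by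
    intro a ha
    rw [map_comb, ← Finset.sum_subset (Finset.subset_univ S)]
    · exact Finset.sum_congr rfl fun i hi => by rw [hS1 i hi, mul_one]
    · intro i _ hi
      by_cases h0 : a i = 0
      · simp [h0]
      · rcases ha i h0 with h | h
        · exact absurd h hi
        · rw [hxφ i h, mul_zero]
  by_cases hcase : ∀ j, j ∉ K → ∀ y' : Fin r → ℂ, (∀ i, i ∉ S → y' i = x i) →
      φ (D.μ j) ≤ 0 ∨ eval y' (D.g j) = 0
  · -- a point of the fibre
    obtain ⟨y', hy'V, hy'x, i1, hi1, hyi1⟩ := D.exists_point hD.homog φ x hx hxφ S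
      (fun i hi => by rw [hS1 i hi]; exact one_pos) K (by omega) hcase
    have hxS : ∀ i, x i ≠ 0 → i ∉ S := by
      intro i hi h
      have h1 := hS1 i h
      rw [hxφ i hi] at h1
      exact absurd h1 (by norm_num)
    have hys := hss y' hy'V (fun i hi => by rw [hy'x i (hxS i hi)]; exact hi)
      ⟨i1, hyi1, by rw [hS1 i1 hi1]; exact one_pos⟩
    obtain ⟨n, a, hn, ha, hau⟩ := hys.2
    have h1 := hsum a (fun i hi => by
      by_cases h : i ∈ S
      · exact Or.inl h
      · right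
        have := ha i hi
        rw [Set.mem_ofPred_eq, hy'x i h] at this
        exact this)
    rw [hau, map_nsmul, nsmul_eq_mul] at h1
    obtain ⟨i, hi, hia⟩ := hpig a n h1.le
    exact ⟨i, n, a, hn, hia, hau⟩
  · -- an equation
    push Not at hcase
    obtain ⟨j, hj, y', hy'x, hjpos, hne⟩ := hcase
    obtain ⟨a, ha, hsupp⟩ := exists_monomial (hD.homog j) y' hne
    obtain ⟨p, q, hp, hq, hpq⟩ := hK j hj
    have h1 := hsum a (fun i hi => by
      by_cases h : i ∈ S
      · exact Or.inl h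
      · right
        have := hsupp i hi
        rw [hy'x i h] at this
        exact this)
    rw [ha] at h1
    have hφν' : (q : ℤ) * φ (D.μ j0) = p * φ (D.μ j) := by
      have := congrArg φ hpq
      rw [map_nsmul, map_nsmul, nsmul_eq_mul, nsmul_eq_mul] at this
      exact this.symm
    have hbφ : φ (∑ i, b i • D.w i) = 0 := by
      rw [map_comb]
      refine Finset.sum_eq_zero fun i _ => ?_
      by_cases h0 : b i = 0
      · simp [h0]
      · rw [hxφ i (hb i h0), mul_zero]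
    have hrelφ : (N : ℤ) * φ D.u = M * φ (D.μ j0) := by
      have := congrArg φ hrel
      rw [map_add, hbφ, add_zero, map_nsmul, map_nsmul, nsmul_eq_mul, nsmul_eq_mul] at this
      exact this
    obtain ⟨i, hi, hia⟩ := hpig (fun i => M * p * a i) (q * N) (by
      have e : ∑ i ∈ S, (((M * p * a i : ℕ)) : ℤ) = M * p * φ (D.μ j) := by
        rw [h1, Finset.mul_sum]
        exact Finset.sum_congr rfl fun i _ => by push_cast; ring
      rw [e]
      push_cast
      calc (q : ℤ) * N * φ D.u = q * (N * φ D.u) := by ring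
        _ = q * (M * φ (D.μ j0)) := by rw [hrelφ]
        _ = M * (q * φ (D.μ j0)) := by ring
        _ = M * (p * φ (D.μ j)) := by rw [hφν']
        _ ≤ M * p * φ (D.μ j) := by rw [← mul_assoc])
    refine ⟨i, q * N, fun l => M * p * a l + q * b l, ?_, hia.trans (Nat.le_add_right _ _), ?_⟩
    · exact Nat.one_le_iff_ne_zero.2 (mul_ne_zero (by omega) (by omega))
    · have e : ∑ l, (M * p * a l + q * b l) • D.w l =
          (M * p) • ∑ l, a l • D.w l + q • ∑ l, b l • D.w l := by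
        rw [Finset.smul_sum, Finset.smul_sum, ← Finset.sum_add_distrib]
        exact Finset.sum_congr rfl fun l _ => by rw [add_smul, mul_smul (M * p) (a l), mul_smul q (b l)]
      rw [e, ha, mul_smul M p, hpq, mul_smul q N, hrel, smul_add, smul_comm M q]

end CoxData

end Pool.Agent.Run7.H918
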