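import Pool.Agent.Run7.h918.Val
import Pool.Agent.R948.Drop
import Pool.Agent.Helper774.KSing.Defs

/-!
The number of independent derivations is at most the transcendence degree; divisorial valuations
from prime ideals of height one.
-/

set_option autoImplicit false

noncomputable section

namespace Pool.Agent.Run7.H918

open Pool.Agent.Helper774.KSing

section

open Polynomial

/-- A derivation which vanishes on `x` vanishes on everything algebraic over `κ(x)`. -/
theorem der_zero_of_alg {κ C : Type*} [Field κ] [Field C] [Algebra κ C] [CharZero C] {ι : Type*}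
    (x : ι → C) (D : Derivation κ C C) (hx : ∀ i, D (x i) = 0) (z : C)
    (hz : IsAlgebraic (Algebra.adjoin κ (Set.range x)) z) : D z = 0 := by
  let K : Subalgebra κ C :=
    { carrier := {w | D w = 0}
      mul_mem' := by
        intro a b ha hb
        simp only [Set.mem_ofPred_eq] at ha hb ⊢
        rw [Derivation.leibniz, ha, hb, smul_zero, smul_zero, add_zero]
      one_mem' := by simp
      add_mem' := by
        intro a b ha hb
        simp only [Set.mem_ofPred_eq] at ha hb ⊢
        rw [map_add, ha, hb, add_zero]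
      zero_mem' := by simp
      algebraMap_mem' := fun r => D.map_algebraMap r }
  have hK : Algebra.adjoin κ (Set.range x) ≤ K := by
    rw [Algebra.adjoin_le_iff]
    rintro _ ⟨i, rfl⟩
    exact hx i
  obtain ⟨p, hp0, hp⟩ := hz
  have hex : ∃ n : ℕ, ∃ q : K[X], q ≠ 0 ∧ aeval z q = 0 ∧ q.natDegree = n := by
    refine ⟨_, p.map (Subalgebra.inclusion hK).toRingHom, ?_, ?_, rfl⟩
    · rwa [Ne, Polynomial.map_eq_zero_iff]
      exact Subalgebra.inclusion_injective hK
    · rw [← hp, Polynomial.aeval_def, Polynomial.eval₂_map, Polynomial.aeval_def]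
      rfl
  classical
  obtain ⟨q, hq0, hq, hqn⟩ := Nat.find_spec hex
  have hmin := fun m (hm : m < Nat.find hex) => Nat.find_min hex hm
  have h1 : D (aeval z q) = aeval z (derivative q) * D z := by
    clear hqn hmin hq0 hq
    induction q using Polynomial.induction_on' with
    | add p q hp hq => simp only [map_add, hp, hq, add_mul]
    | monomial n a =>
      rw [aeval_monomial, Derivation.leibniz, derivative_monomial, aeval_monomial,
        Derivation.leibniz_pow]
      have h2 : D (algebraMap K C a) = 0 := a.2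
      rw [h2, smul_zero, add_zero]
      simp only [nsmul_eq_mul, smul_eq_mul, map_mul, map_natCast]
      ring
  rw [hq, map_zero] at h1
  rcases mul_eq_zero.1 h1.symm with h2 | h2
  · exfalso
    have hdeg : q.natDegree ≠ 0 := by
      intro h0
      rw [Polynomial.eq_C_of_natDegree_eq_zero h0, aeval_C] at hq
      apply hq0
      rw [Polynomial.eq_C_of_natDegree_eq_zero h0]
      have : q.coeff 0 = 0 := Subtype.ext hq
      rw [this, map_zero]
    have h3 : derivative q ≠ 0 := by
      intro h0
      exact hdeg (Polynomial.derivative_eq_zero.1 h0)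
    exact hmin (derivative q).natDegree (by rw [← hqn]; exact natDegree_derivative_lt hdeg)
      ⟨derivative q, h3, h2, rfl⟩
  · exact h2

end

variable {K : Type} [Field K] [Algebra ℂ K]

theorem card_le_trdeg {n : ℕ} (b : Module.Basis (Fin n) K (Derivation ℂ K K)) :
    (n : Cardinal) ≤ Algebra.trdeg ℂ K := by
  have hchar : CharZero K := charZero_of_injective_algebraMap (algebraMap ℂ K).injective
  obtain ⟨s, hs⟩ := exists_isTranscendenceBasis ℂ K
  rw [← hs.cardinalMk_eq_trdeg]
  by_cases hfin : s.Finite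
  · have := hfin.fintype
    let L : Derivation ℂ K K →ₗ[K] (s → K) :=
      { toFun := fun D i => D i
        map_add' := fun D D' => rfl
        map_smul' := fun c D => rfl }
    have hL : Function.Injective L := by
      rw [← LinearMap.ker_eq_bot, LinearMap.ker_eq_bot']
      intro D hD
      ext z
      refine der_zero_of_alg (fun i : s => (i : K)) D (fun i => congrFun hD i) z ?_
      have h1 := hs.isAlgebraic
      exact h1.isAlgebraic z
    have h2 := LinearMap.finrank_le_finrank_of_injective hL
    rw [Module.finrank_eq_card_basis b, Module.finrank_fintype_fun_eq_card, Fintype.card_fin] at h2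
    rw [Cardinal.mk_fintype]
    exact_mod_cast h2
  · have : Infinite s := Set.infinite_coe_iff.2 hfin
    exact (Cardinal.natCast_lt_aleph0).le.trans (Cardinal.aleph0_le_mk s)

/-- The divisorial valuation of a prime ideal of height one. -/
theorem exists_divVal_of_prime (X : Variety) (i : X.ι) (a : X.chart i) (ha : a ≠ 0)
    (Q : Ideal (X.chart i)) (hQ : Q ∈ (Ideal.span {a}).minimalPrimes) :
    ∃ E : X.DivVal, (∀ z ∈ locRing (X.chart i) Q, 0 ≤ E.v z) ∧
      (∀ z, 0 ≤ E.v z → z ∈ locRing (X.chart i) Q) ∧ ∀ x ∈ Q, 0 < E.v (x : X.K) := by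
  have hQp : Q.IsPrime := hQ.1.1
  have hfr := X.frac i
  have hic := X.normal i
  have hft : Algebra.FiniteType ℂ (X.chart i) := (X.chart i).fg_iff_finiteType.1 (X.fg i)
  have hN : IsNoetherianRing (X.chart i) := Algebra.FiniteType.isNoetherianRing ℂ _
  have haQ : a ∈ Q := hQ.1.2 (Ideal.mem_span_singleton_self a)
  have h0 : Q ≠ ⊥ := by
    rintro rfl
    exact ha (by simpa using haQ)
  have h1 : Q.height ≤ 1 := Ideal.height_le_one_of_isPrincipal_of_mem_minimalPrimes _ Q hQ
  let A := Localization.subalgebra.ofField X.K Q.primeCompl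
    (Ideal.primeCompl_le_nonZeroDivisors Q)
  have hA : ∀ z : X.K, z ∈ A ↔ z ∈ locRing (X.chart i) Q := by
    intro z
    constructor
    · rintro ⟨x, s, hs, rfl⟩
      refine ⟨x, s, hs, ?_⟩
      have hs0 : (s : X.K) ≠ 0 := by
        intro h
        apply hs
        have : s = 0 := Subtype.ext h
        rw [this]
        exact Q.zero_mem
      show (x : X.K) * (s : X.K)⁻¹ * s = x
      rw [mul_assoc, inv_mul_cancel₀ hs0, mul_one]
    · rintro ⟨x, s, hs, h⟩
      refine ⟨x, s, hs, ?_⟩
      have hs0 : (s : X.K) ≠ 0 := by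
        intro h
        apply hs
        have : s = 0 := Subtype.ext h
        rw [this]
        exact Q.zero_mem
      show z = (x : X.K) * (s : X.K)⁻¹
      rw [← h, mul_assoc, mul_inv_cancel₀ hs0, mul_one]
  have hloc : IsLocalization.AtPrime A Q := Localization.subalgebra.isLocalization_ofField _ _ _
  have hDVR : IsDiscreteValuationRing A := isDVR_of_height_one (X.chart i) A Q h0 h1
  have hfrA : IsFractionRing A X.K := inferInstance
  obtain ⟨v, hv1, hv2, hv3, hv4⟩ := exists_valuation_dvr A X.K
  have hvloc : ∀ z ∈ locRing (X.chart i) Q, 0 ≤ v z := fun z hz => hv1 ⟨z, (hA z).2 hz⟩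
  have hzero : ∀ x : X.chart i, x ∉ Q → v (x : X.K) = 0 := by
    intro x hx
    have hx0 : (x : X.K) ≠ 0 := by
      intro h
      apply hx
      have : x = 0 := Subtype.ext h
      rw [this]
      exact Q.zero_mem
    have e1 : 0 ≤ v (x : X.K) := hvloc _ ⟨x, 1, fun h => hQp.ne_top ((Ideal.eq_top_iff_one _).2 h),
      by simp⟩
    have e2 : 0 ≤ v (x : X.K)⁻¹ := hvloc _ ⟨1, x, hx, by simp [hx0]⟩
    have e3 : v (x : X.K) + v (x : X.K)⁻¹ = 0 := by
      rw [← v.map_mul, mul_inv_cancel₀ hx0, v.map_one]
    refine le_antisymm ?_ e1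
    calc v (x : X.K) ≤ v (x : X.K) + v (x : X.K)⁻¹ := le_add_of_nonneg_right e2
      _ = 0 := e3
  have htr : (X.dim : Cardinal) ≤ Algebra.trdeg ℂ (X.chart i ⧸ Q) + 1 := by
    have e1 := card_le_trdeg X.der
    have hal : Algebra.IsAlgebraic (X.chart i) X.K :=
      IsLocalization.isAlgebraic X.K (nonZeroDivisors (X.chart i))
    have e2 : Algebra.trdeg ℂ (X.chart i) + Algebra.trdeg (X.chart i) X.K = Algebra.trdeg ℂ X.K :=
      trdeg_add_eq ℂ (X.chart i)
    have e3 : Algebra.trdeg (X.chart i) X.K = 0 := trdeg_eq_zero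
    rw [← e2, e3, add_zero] at e1
    exact e1.trans (Pool.Agent.R948.trdeg_le_of_minimal a Q hQ)
  have hdom : IsDomain (X.chart i ⧸ Q) := Ideal.Quotient.isDomain Q
  have hnt : Nontrivial (X.chart i ⧸ Q) := hdom.toNontrivial
  have hfs : FaithfulSMul ℂ (X.chart i ⧸ Q) :=
    (faithfulSMul_iff_algebraMap_injective _ _).2 (algebraMap ℂ (X.chart i ⧸ Q)).injective
  obtain ⟨s, hs⟩ := exists_isTranscendenceBasis ℂ (X.chart i ⧸ Q)
  rw [← hs.cardinalMk_eq_trdeg] at htr
  have hle : ((X.dim - 1 : ℕ) : Cardinal) ≤ Cardinal.mk s := by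
    by_cases hfin : s.Finite
    · have := hfin.fintype
      rw [Cardinal.mk_fintype] at htr ⊢
      have : X.dim ≤ Fintype.card s + 1 := by exact_mod_cast htr
      have h2 : X.dim - 1 ≤ Fintype.card s := by omega
      exact_mod_cast h2
    · have : Infinite s := Set.infinite_coe_iff.2 hfin
      exact (Cardinal.natCast_lt_aleph0).le.trans (Cardinal.aleph0_le_mk s)
  have hemb : Nonempty (Fin (X.dim - 1) ↪ s) := by
    rw [← Cardinal.le_def]
    simpa using hle
  obtain ⟨emb⟩ := hemb
  have hai : AlgebraicIndependent ℂ (fun k => ((emb k : s) : X.chart i ⧸ Q)) :=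
    hs.1.comp emb emb.injective
  choose T hT using fun k => Ideal.Quotient.mk_surjective (I := Q) ((emb k : s) : X.chart i ⧸ Q)
  refine ⟨⟨v, ?_, hv3, fun k => (T k : X.K), ?_⟩, hvloc, ?_, ?_⟩
  · intro c hc
    have h2 : algebraMap ℂ X.K c = ((algebraMap ℂ (X.chart i) c : X.chart i) : X.K) := rfl
    rw [h2]
    apply hzero
    intro hm
    have h3 : IsUnit (algebraMap ℂ (X.chart i) c) := (isUnit_iff_ne_zero.2 hc).map _
    exact hQp.ne_top (Ideal.eq_top_of_isUnit_mem _ hm h3)
  · intro P hP
    have h2 : MvPolynomial.aeval (fun k => (T k : X.K)) P =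
        ((MvPolynomial.aeval T P : X.chart i) : X.K) := by
      have h3 := MvPolynomial.aeval_algebraMap_apply (A := X.chart i) (B := X.K) T P
      exact h3
    rw [h2]
    apply hzero
    intro hm
    apply hP
    apply hai
    rw [map_zero]
    rw [← Ideal.Quotient.eq_zero_iff_mem] at hm
    rw [← hm]
    have h3 : (fun k => ((emb k : s) : X.chart i ⧸ Q)) = fun k => Ideal.Quotient.mkₐ ℂ Q (T k) := by
      funext k
      rw [← hT k]
      rfl
    rw [h3]
    exact (MvPolynomial.comp_aeval_apply T (Ideal.Quotient.mkₐ ℂ Q) P).symm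
  · intro z hz
    obtain ⟨y, hy⟩ := hv2 z hz
    rw [← hA, ← hy]
    exact y.2
  · intro x hx
    have h2 := hv4 (algebraMap (X.chart i) A x)
      ((IsLocalization.AtPrime.to_map_mem_maximal_iff A Q x).2 hx)
    exact h2

end Pool.Agent.Run7.H918
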