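import Pool.Agent.Run7.h918.Link
import Pool.Agent.Run7.h918.Val2

/-!
From an anticanonical monomial divisible by a high power of a coordinate to the alpha invariant.
-/

set_option autoImplicit false

noncomputable section

namespace Pool.Agent.Run7.H918

open Finset MvPolynomial Pool.Agent.Helper774.KSing
open scoped ENNReal

variable {ρ r s : ℕ}

theorem nsmul_coe_int (m : ℕ) (k : ℤ) : m • (k : WithTop ℤ) = ((m * k : ℤ) : WithTop ℤ) := by
  induction m with
  | zero => simp
  | succ n ih =>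
    rw [succ_nsmul, ih, ← WithTop.coe_add]
    congr 1
    push_cast
    ring

/-- an element that lies in all local rings of a chart lies in the chart -/
theorem mem_of_locRing {K : Type} [Field K] [Algebra ℂ K] (R : Subalgebra ℂ K) (z : K)
    (h : ∀ q : Ideal R, q.IsPrime → z ∈ locRing R q) : z ∈ R := by
  let J : Ideal R :=
    { carrier := {b : R | z * (b : K) ∈ R}
      add_mem' := by
        intro a b ha hb
        show z * ((a + b : R) : K) ∈ R
        rw [show ((a + b : R) : K) = (a : K) + (b : K) from rfl, mul_add]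
        exact R.add_mem ha hb
      zero_mem' := by
        show z * ((0 : R) : K) ∈ R
        rw [show ((0 : R) : K) = 0 from rfl, mul_zero]
        exact R.zero_mem
      smul_mem' := by
        intro a b hb
        show z * ((a * b : R) : K) ∈ R
        rw [show ((a * b : R) : K) = (a : K) * (b : K) from rfl, mul_left_comm]
        exact R.mul_mem a.2 hb }
  by_contra hz
  have hJ : J ≠ ⊤ := by
    intro htop
    apply hz
    have h1 : (1 : R) ∈ J := htop ▸ Submodule.mem_top
    have h2 : z * ((1 : R) : K) ∈ R := h1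
    rwa [show ((1 : R) : K) = 1 from rfl, mul_one] at h2
  obtain ⟨q, hq, hJq⟩ := Ideal.exists_le_maximal J hJ
  obtain ⟨a, b, hb, hab⟩ := h q hq.isPrime
  apply hb
  apply hJq
  show z * (b : K) ∈ R
  rw [hab]
  exact a.2

namespace CoxData

variable {D : CoxData ρ r s}

namespace Presentation

variable {X : Variety} (P : D.Presentation X)

/-- homogeneous polynomials of weight `m u` give sections of `O_X(-m K_X)` -/
theorem exists_section {c : P.Ω} (hc : HF D.w P.t D.ideal (-D.u) c)
    (hjac : ∀ p, D.Relevant p → ∀ x : Fin X.dim → X.K, (∀ j, HF D.w P.t p 0 (P.e (x j))) →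
        HF D.w P.t p (-D.u) (c * P.e (X.jac x)))
    {m : ℕ} {F : MvPolynomial (Fin r) ℂ} (hF : F.IsWeightedHomogeneous D.w (m • D.u)) :
    ∃ a ∈ X.antican m, P.e a = aeval P.t F * c ^ m := by
  have hI := P.ideal_prime
  obtain ⟨a, ha⟩ := P.exists_of_hf (z := aeval P.t F * c ^ m) (by
    have h1 := (HF.of_poly (t := P.t) hI hF).mul hI (hc.pow hI m)
    rwa [smul_neg, add_neg_cancel] at h1)
  refine ⟨a, ?_, ha⟩
  intro i f hf
  show a * ∏ k, f k ∈ X.chart i
  apply mem_of_locRing
  intro q hq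
  have hpt : locRing (X.chart i) q ∈ X.points := ⟨i, q, hq, rfl⟩
  obtain ⟨p, hp, hA⟩ := (P.points_iff _).1 hpt
  have hpp := hp.1
  rw [hA]
  show HF D.w P.t p 0 (P.e (a * ∏ k, f k))
  have hchart : ∀ z ∈ X.chart i, HF D.w P.t p 0 (P.e z) := by
    intro z hz
    have h1 : z ∈ locRing (X.chart i) q :=
      ⟨⟨z, hz⟩, 1, fun h => hq.ne_top ((Ideal.eq_top_iff_one _).2 h), by simp⟩
    rw [hA] at h1
    exact h1
  have h1 : ∀ k, HF D.w P.t p (-D.u) (c * P.e (f k)) := by
    intro k
    obtain ⟨g, hg, hgf⟩ := hf k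
    rw [hgf]
    exact hjac p hp g fun j => hchart _ (hg j)
  have h2 := HF.prod hpp Finset.univ (d := fun _ : Fin m => -D.u)
    (z := fun k => c * P.e (f k)) (fun k _ => h1 k)
  have h3 := (HF.of_poly (t := P.t) hpp hF).mul hpp h2
  rw [Finset.sum_const, Finset.card_univ, Fintype.card_fin, smul_neg, add_neg_cancel] at h3
  have h4 : P.e (a * ∏ k, f k) = aeval P.t F * ∏ k, c * P.e (f k) := by
    rw [map_mul, ha, map_prod, Finset.prod_mul_distrib, Finset.prod_const, Finset.card_univ,
      Fintype.card_fin]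
    ring
  rw [h4]
  exact h3

end Presentation

end CoxData

/-- the form `dx_1 ∧ ... ∧ dx_n` and denominators -/
theorem jac_div (X : Variety) (x : Fin X.dim → X.K) (j : Fin X.dim) (a b : X.K)
    (h : x j * b = a) :
    b * X.jac x = X.jac (Function.update x j a) - x j * X.jac (Function.update x j b) := by
  classical
  have hupd : ∀ z, X.jac (Function.update x j z) =
      ((Matrix.of fun i l => X.der i (x l)).updateCol j fun i => X.der i z).det := by
    intro z
    unfold Variety.jac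
    congr 1
    ext i l
    by_cases hl : l = j
    · subst hl
      simp
    · simp [hl]
  have hx : X.jac x = ((Matrix.of fun i l => X.der i (x l)).updateCol j fun i => X.der i (x j)).det := by
    rw [← hupd, Function.update_eq_self]
  rw [hupd, hupd, hx, ← Matrix.det_updateCol_smul, ← Matrix.det_updateCol_smul]
  have h1 : (fun i => X.der i a) = x j • (fun i => X.der i b) + b • (fun i => X.der i (x j)) := by
    funext i
    rw [← h, Derivation.leibniz]
    simp only [Pi.add_apply, Pi.smul_apply, smul_eq_mul]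
  rw [h1, Matrix.det_updateCol_add]
  ring

/-- a bound for the forms with coordinates in a chart holds for the forms with coordinates in the
local ring -/
theorem jac_bound (X : Variety) (i : X.ι) (Q : Ideal (X.chart i)) (hQ : Q.IsPrime) (E : X.DivVal)
    (h1 : ∀ z ∈ locRing (X.chart i) Q, 0 ≤ E.v z) (c : X.K)
    (hc : ∀ x : Fin X.dim → X.K, (∀ j, x j ∈ X.chart i) → 0 ≤ E.v (c * X.jac x))
    (x : Fin X.dim → X.K) (hx : ∀ j, x j ∈ locRing (X.chart i) Q) : 0 ≤ E.v (c * X.jac x) := by
  classical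
  have hchart : ∀ z ∈ X.chart i, z ∈ locRing (X.chart i) Q := fun z hz =>
    ⟨⟨z, hz⟩, 1, fun h => hQ.ne_top ((Ideal.eq_top_iff_one _).2 h), by simp⟩
  have key : ∀ (S : Finset (Fin X.dim)) (x : Fin X.dim → X.K),
      (∀ j, x j ∈ locRing (X.chart i) Q) → (∀ j, j ∉ S → x j ∈ X.chart i) →
        0 ≤ E.v (c * X.jac x) := by
    intro S
    induction S using Finset.induction_on with
    | empty => exact fun x _ hx => hc x fun j => hx j (Finset.notMem_empty j)
    | insert j S hj ih =>
      intro x hx hxS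
      obtain ⟨a, b, hb, hab⟩ := hx j
      have hb0 : (b : X.K) ≠ 0 := by
        intro h
        apply hb
        have : b = 0 := Subtype.ext h
        rw [this]
        exact Q.zero_mem
      have hbinv : (b : X.K)⁻¹ ∈ locRing (X.chart i) Q := ⟨1, b, hb, by simp [hb0]⟩
      have hup : ∀ z ∈ X.chart i, 0 ≤ E.v (c * X.jac (Function.update x j z)) := by
        intro z hz
        apply ih
        · intro l
          by_cases hl : l = j
          · subst hl
            rw [Function.update_self]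
            exact hchart z hz
          · rw [Function.update_of_ne hl]
            exact hx l
        · intro l hl
          by_cases hlj : l = j
          · subst hlj
            rw [Function.update_self]
            exact hz
          · rw [Function.update_of_ne hlj]
            exact hxS l (by simp [hlj, hl])
      have h2 := jac_div X x j a b hab
      have h3 : c * X.jac x = (b : X.K)⁻¹ * (c * X.jac (Function.update x j a) -
          x j * (c * X.jac (Function.update x j b))) := by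
        rw [show c * X.jac (Function.update x j (a : X.K)) -
          x j * (c * X.jac (Function.update x j (b : X.K))) = c * ((b : X.K) * X.jac x) by
            rw [h2]; ring]
        field_simp
      rw [h3, AddValuation.map_mul]
      refine add_nonneg (h1 _ hbinv) ?_
      refine le_trans (le_min (hup _ a.2) ?_) (E.v.map_sub _ _)
      rw [AddValuation.map_mul]
      exact add_nonneg (h1 _ (hx j)) (hup _ b.2)
  exact key Finset.univ x hx fun j hj => absurd (Finset.mem_univ j) hj

namespace CoxData.Presentation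

variable {D : CoxData ρ r s} {X : Variety} (P : D.Presentation X)

include P

/-- The last step: a monomial of weight `m u` which is divisible by the `m`-th power of a coordinate
gives an effective divisor `D ∼ -K_X` with a coefficient at least one. -/
theorem alpha_le_one (hD : D.IsGood) (i : Fin r) (m : ℕ) (a : Fin r → ℕ)
    (hm : 1 ≤ m) (hma : m ≤ a i) (hsum : ∑ l, a l • D.w l = m • D.u) : X.alpha ≤ 1 := by
  classical
  have hr : 0 < r := i.pos
  have hI := P.ideal_prime
  obtain ⟨c, hc0, hc, hjac⟩ := P.exists_adjunction hD hr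
  have hmon : ∀ b : Fin r → ℕ, (∏ l, (MvPolynomial.X l : MvPolynomial (Fin r) ℂ) ^ b l).IsWeightedHomogeneous
      D.w (∑ l, b l • D.w l) := by
    intro b
    exact IsWeightedHomogeneous.prod _ _ _ fun l _ => (isWeightedHomogeneous_X ℂ D.w l).pow (b l)
  have haev : ∀ b : Fin r → ℕ, aeval P.t (∏ l, (MvPolynomial.X l : MvPolynomial (Fin r) ℂ) ^ b l) =
      ∏ l, P.t l ^ b l := by
    intro b
    rw [map_prod]
    exact Finset.prod_congr rfl fun l _ => by rw [map_pow, aeval_X]
  have ht0 : ∀ l, P.t l ≠ 0 := by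
    intro l h0
    apply (hD.coord l).1
    rw [← P.ker_iff, aeval_X]
    exact h0
  obtain ⟨s0, hs0, hes0⟩ := P.exists_section hc hjac (m := m) (by
    have := hmon a
    rwa [hsum] at this)
  rw [haev] at hes0
  have hinj : ∀ z : X.K, P.e z = 0 → z = 0 := fun z hz =>
    P.e.toRingHom.injective (by rw [map_zero]; exact hz)
  have hs00 : s0 ≠ 0 := by
    intro h
    rw [h, map_zero] at hes0
    exact (mul_ne_zero (Finset.prod_ne_zero_iff.2 fun l _ => pow_ne_zero _ (ht0 l))
      (pow_ne_zero _ hc0)) hes0.symm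
  -- the point
  obtain ⟨-, y, hy, hyi⟩ := hD.coord i
  obtain ⟨p, hp, hpX⟩ := D.exists_orbit_prime hD hy
  have hpp := hp.1
  have hkp := P.ker_of_relevant hp
  obtain ⟨j, q, hq, hA⟩ := (P.points_iff _).2 ⟨p, hp, rfl⟩
  have hmem : ∀ z, z ∈ locRing (X.chart j) q ↔ HF D.w P.t p 0 (P.e z) := by
    intro z
    rw [← hA]
    exact Iff.rfl
  have hunit := fun v => exists_unit (w := D.w) (t := P.t) hpp hkp (D.closure_relevant hD hp) v
  obtain ⟨τ, hτ⟩ := hunit (D.w i)
  obtain ⟨θ, hθ⟩ := hunit D.u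
  have hti : HF D.w P.t p (D.w i) (P.t i) := by
    have := HF.of_poly (t := P.t) hpp (isWeightedHomogeneous_X ℂ D.w i)
    rwa [aeval_X] at this
  have hf1 : HF D.w P.t p 0 (P.t i * τ⁻¹) := by
    have := hti.mul hpp hτ.2.2
    rwa [add_neg_cancel] at this
  obtain ⟨f1, hef1⟩ := P.exists_of_hf (hf1.mono hp.2.1)
  have hf10 : f1 ≠ 0 := by
    intro h
    rw [h, map_zero] at hef1
    exact mul_ne_zero (ht0 i) (inv_ne_zero hτ.1) hef1.symm
  have hf1A : f1 ∈ locRing (X.chart j) q := by
    rw [hmem, hef1]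
    exact hf1
  have hXi : (MvPolynomial.X i : MvPolynomial (Fin r) ℂ) ∈ p := (hpX i).2 hyi
  have hf1inv : f1⁻¹ ∉ locRing (X.chart j) q := by
    rw [hmem, map_inv₀, hef1]
    rintro ⟨b, f, h, h1, h2, h3, h4⟩
    obtain ⟨b', f', h', h1', h2', h3', h4'⟩ := hτ.2.2
    have h5 : h * h' - MvPolynomial.X i * (f * f') ∈ p := by
      apply hkp
      rw [map_sub, map_mul, map_mul, map_mul, aeval_X, ← h4, ← h4']
      have e1 := ht0 i
      have e2 := hτ.1
      field_simp
      ring
    have h6 : h * h' ∈ p := by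
      have := p.add_mem h5 (p.mul_mem_right (f * f') hXi)
      rwa [sub_add_cancel] at this
    exact (hpp.mem_or_mem h6).elim h3 h3'
  obtain ⟨a', b', hb', hab⟩ := hf1A
  have hb'0 : (b' : X.K) ≠ 0 := by
    intro h
    apply hb'
    have : b' = 0 := Subtype.ext h
    rw [this]
    exact q.zero_mem
  have ha'q : a' ∈ q := by
    by_contra h
    apply hf1inv
    refine ⟨b', a', h, ?_⟩
    rw [← hab, ← mul_assoc, inv_mul_cancel₀ hf10, one_mul]
  have ha'0 : a' ≠ 0 := by
    intro h
    have : (a' : X.K) = 0 := by rw [h]; rfl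
    rw [this] at hab
    exact mul_ne_zero hf10 hb'0 hab
  -- the prime divisor
  obtain ⟨Q, hQ, hQq⟩ := Ideal.exists_minimalPrimes_le
    ((Ideal.span_singleton_le_iff_mem q).2 ha'q)
  have hQp : Q.IsPrime := hQ.1.1
  have ha'Q : a' ∈ Q := hQ.1.2 (Ideal.mem_span_singleton_self a')
  obtain ⟨E, hE1, hE2, hE3⟩ := exists_divVal_of_prime X j a' ha'0 Q hQ
  have hEA : ∀ z, HF D.w P.t p 0 (P.e z) → 0 ≤ E.v z := by
    intro z hz
    rw [← hmem] at hz
    obtain ⟨x, b, hb, hz⟩ := hz
    exact hE1 z ⟨x, b, fun h => hb (hQq h), hz⟩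
  have hchartE : ∀ z ∈ X.chart j, z ∈ locRing (X.chart j) Q := fun z hz =>
    ⟨⟨z, hz⟩, 1, fun h => hQp.ne_top ((Ideal.eq_top_iff_one _).2 h), by simp⟩
  have hchartE' : ∀ z ∈ X.chart j, z ∈ E.ring := fun z hz => hE1 z (hchartE z hz)
  have hvne : ∀ z : X.K, z ≠ 0 → E.v z ≠ ⊤ := by
    intro z hz h
    exact hz ((AddValuation.top_iff E.v).1 h)
  -- the order of `f1`
  have hvb : E.v (b' : X.K) = 0 := by
    have e1 : 0 ≤ E.v (b' : X.K) := hchartE' _ b'.2
    have e2 : 0 ≤ E.v (b' : X.K)⁻¹ := hE1 _ ⟨1, b', fun h => hb' (hQq h), by simp [hb'0]⟩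
    have e3 : E.v (b' : X.K) + E.v (b' : X.K)⁻¹ = 0 := by
      rw [← AddValuation.map_mul, mul_inv_cancel₀ hb'0, AddValuation.map_one]
    refine le_antisymm ?_ e1
    calc E.v (b' : X.K) ≤ E.v (b' : X.K) + E.v (b' : X.K)⁻¹ := le_add_of_nonneg_right e2
      _ = 0 := e3
  have hvf1 : 0 < E.v f1 := by
    have e1 : E.v f1 + E.v (b' : X.K) = E.v (a' : X.K) := by
      rw [← AddValuation.map_mul, hab]
    rw [hvb, add_zero] at e1
    rw [e1]
    exact hE3 a' ha'Q
  -- the local generator
  obtain ⟨c1, hec1⟩ := P.exists_of_hf (z := c * θ) (by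
    have := hc.mul hI (hθ.2.1.mono hp.2.1)
    rwa [neg_add_cancel] at this)
  have hc10 : c1 ≠ 0 := by
    intro h
    rw [h, map_zero] at hec1
    exact mul_ne_zero hc0 hθ.1 hec1.symm
  obtain ⟨k1, hk1⟩ := WithTop.ne_top_iff_exists.1 (hvne c1 hc10)
  -- forms
  have hforms : ∀ x : Fin X.dim → X.K, (∀ l, x l ∈ E.ring) → 0 ≤ E.v (c1 * X.jac x) := by
    intro x hx
    refine jac_bound X j Q hQp E hE1 c1 ?_ x fun l => hE2 _ (hx l)
    intro x hx
    apply hEA
    have h1 := hjac p hp x fun l => by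
      rw [← hmem]
      exact ⟨⟨x l, hx l⟩, 1, fun h => hq.ne_top ((Ideal.eq_top_iff_one _).2 h), by simp⟩
    have h2 := hθ.2.1.mul hpp h1
    rw [add_neg_cancel] at h2
    rw [map_mul, hec1]
    have h3 : c * θ * P.e (X.jac x) = θ * (c * P.e (X.jac x)) := by ring
    rw [h3]
    exact h2
  -- the order of `s0`
  obtain ⟨g, heg⟩ : ∃ g : X.K, P.e g = (P.t i ^ (a i - m) * ∏ l ∈ Finset.univ.erase i, P.t l ^ a l) *
      (τ ^ m * (θ ^ m)⁻¹) ∧ HF D.w P.t p 0 (P.e g) := by
    have h1 : HF D.w P.t p ((a i - m) • D.w i + ∑ l ∈ Finset.univ.erase i, a l • D.w l)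
        (P.t i ^ (a i - m) * ∏ l ∈ Finset.univ.erase i, P.t l ^ a l) := by
      refine (hti.pow hpp _).mul hpp (HF.prod hpp _ fun l _ => ?_)
      have := HF.of_poly (t := P.t) hpp (isWeightedHomogeneous_X ℂ D.w l)
      rw [aeval_X] at this
      exact this.pow hpp _
    have h2 := (hτ.pow hpp m).mul hpp (hθ.pow hpp m).inv
    have h3 := h1.mul hpp h2.2.1
    have h4 : (a i - m) • D.w i + ∑ l ∈ Finset.univ.erase i, a l • D.w l +
        (m • D.w i + -(m • D.u)) = 0 := by
      rw [← hsum, ← Finset.add_sum_erase Finset.univ (fun l => a l • D.w l) (Finset.mem_univ i)]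
      have h5 : a i • D.w i = (a i - m) • D.w i + m • D.w i := by
        rw [← add_smul, Nat.sub_add_cancel hma]
      simp only [h5]
      abel
    rw [h4] at h3
    obtain ⟨g, hg⟩ := P.exists_of_hf (h3.mono hp.2.1)
    exact ⟨g, hg, by rw [hg]; exact h3⟩
  have hs0eq : s0 = f1 ^ m * g * c1 ^ m := by
    apply P.e.toRingHom.injective
    show P.e s0 = P.e (f1 ^ m * g * c1 ^ m)
    rw [map_mul, map_mul, map_pow, map_pow, hes0, hef1, heg.1, hec1,
      ← Finset.mul_prod_erase Finset.univ (fun l => P.t l ^ a l) (Finset.mem_univ i)]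
    have e1 := hτ.1
    have e2 := hθ.1
    have e3 : P.t i ^ a i = P.t i ^ (a i - m) * P.t i ^ m := by
      rw [← pow_add, Nat.sub_add_cancel hma]
    simp only [e3, mul_pow, inv_pow]
    field_simp
  have hvs0 : ((m + m * k1 : ℤ) : WithTop ℤ) ≤ E.v s0 := by
    have h1 : (1 : WithTop ℤ) ≤ E.v f1 := by
      obtain ⟨k, hk⟩ := WithTop.ne_top_iff_exists.1 (hvne f1 hf10)
      rw [← hk] at hvf1 ⊢
      have h2 : (0 : ℤ) < k := by exact_mod_cast hvf1
      exact_mod_cast h2
    have h2 : 0 ≤ E.v g := hEA g heg.2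
    rw [hs0eq, AddValuation.map_mul, AddValuation.map_mul, AddValuation.map_pow,
      AddValuation.map_pow, ← hk1]
    have h3 : ((m : ℤ) : WithTop ℤ) ≤ m • E.v f1 := by
      have h4 := nsmul_le_nsmul_right h1 m
      rw [nsmul_one] at h4
      exact_mod_cast h4
    have h5 : ((m * k1 : ℤ) : WithTop ℤ) = m • (k1 : WithTop ℤ) := (nsmul_coe_int m k1).symm
    have h6 : ((m + m * k1 : ℤ) : WithTop ℤ) = ((m : ℤ) : WithTop ℤ) + 0 + m • (k1 : WithTop ℤ) := by
      rw [← h5, add_zero]
      rfl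
    rw [h6]
    gcongr
  -- the number `canOrd`
  have hbdd : BddAbove {x : ℝ | ∃ (i : X.ι) (m : ℕ) (s : X.K) (k : ℤ),
      (∀ f ∈ X.chart i, f ∈ E.ring) ∧ 1 ≤ m ∧ s ∈ X.sections m (X.chart i : Set X.K) ∧
        E.v s = k ∧ x = -(k : ℝ) / m} := by
    have hB : ∀ i' : X.ι, ∃ B : ℤ, ∀ (m : ℕ) (s : X.K) (k : ℤ),
        (∀ f ∈ X.chart i', f ∈ E.ring) → s ∈ X.sections m (X.chart i' : Set X.K) →
          E.v s = k → 0 ≤ k + m * B := by
      intro i'
      have hfr := X.frac i'
      obtain ⟨y, hy1, hy2⟩ := exists_separating X.der (X.chart i') (fun z => by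
        obtain ⟨x, y, hy, rfl⟩ := IsFractionRing.div_surjective (A := X.chart i') z
        have hy0 : (algebraMap (X.chart i') X.K y) ≠ 0 :=
          IsFractionRing.to_map_ne_zero_of_mem_nonZeroDivisors hy
        exact ⟨x, x.2, y, y.2, hy0, div_mul_cancel₀ _ hy0⟩)
      obtain ⟨B, hB⟩ := WithTop.ne_top_iff_exists.1 (hvne (X.jac y) hy2)
      refine ⟨B, fun m s k hE hs hk => ?_⟩
      have h1 : s * ∏ _k : Fin m, X.jac y ∈ (X.chart i' : Set X.K) :=
        hs (fun _ => X.jac y) fun _ => ⟨y, hy1, rfl⟩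
      have h2 : 0 ≤ E.v (s * ∏ _k : Fin m, X.jac y) := hE _ h1
      rw [Finset.prod_const, Finset.card_univ, Fintype.card_fin, AddValuation.map_mul,
        AddValuation.map_pow, hk, ← hB, nsmul_coe_int] at h2
      exact_mod_cast h2
    choose B hB using hB
    obtain ⟨M, hM⟩ := (Set.finite_range fun i' => (B i' : ℝ)).bddAbove
    refine ⟨M, ?_⟩
    rintro x ⟨i', m', s', k', h1, h2, h3, h4, rfl⟩
    have h5 := hB i' m' s' k' h1 h3 h4
    have h6 : (0 : ℝ) ≤ k' + m' * B i' := by exact_mod_cast h5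
    have h7 : (B i' : ℝ) ≤ M := hM ⟨i', rfl⟩
    have h8 : (0 : ℝ) < m' := by exact_mod_cast h2
    rw [div_le_iff₀ h8]
    nlinarith
  have hcan : -(k1 : ℝ) ≤ E.canOrd := by
    obtain ⟨m2, b, hm2, hb, hbsum⟩ := hp.2.2.2
    obtain ⟨s2, hs2, hes2⟩ := P.exists_section hc hjac (m := m2) (by
      have := hmon b
      rwa [hbsum] at this)
    have hF2 : (∏ l, (MvPolynomial.X l : MvPolynomial (Fin r) ℂ) ^ b l) ∉ p := by
      intro h
      obtain ⟨l, -, hl⟩ := (hpp.prod_mem_iff).1 h
      by_cases h0 : b l = 0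
      · rw [h0, pow_zero] at hl
        exact hpp.ne_top ((Ideal.eq_top_iff_one _).2 hl)
      · exact hb l h0 (hpp.mem_of_pow_mem _ hl)
    have hFu : HU D.w P.t p (m2 • D.u)
        (aeval P.t (∏ l, (MvPolynomial.X l : MvPolynomial (Fin r) ℂ) ^ b l)) := by
      have := HU.of_poly hpp hkp (hmon b) hF2
      rwa [hbsum] at this
    have hg2 := hFu.mul hpp (hθ.pow hpp m2).inv
    rw [add_neg_cancel] at hg2
    obtain ⟨g2, heg2⟩ := P.exists_of_hf (hg2.2.1.mono hp.2.1)
    have hvg2 : E.v g2 = 0 := by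
      have e1 : 0 ≤ E.v g2 := hEA g2 (by rw [heg2]; exact hg2.2.1)
      have e2 : 0 ≤ E.v g2⁻¹ := hEA g2⁻¹ (by
        rw [map_inv₀, heg2]
        have := hg2.2.2
        rwa [neg_zero] at this)
      have hg20 : g2 ≠ 0 := by
        intro h
        rw [h, map_zero] at heg2
        exact hg2.1 heg2.symm
      have e3 : E.v g2 + E.v g2⁻¹ = 0 := by
        rw [← AddValuation.map_mul, mul_inv_cancel₀ hg20, AddValuation.map_one]
      refine le_antisymm ?_ e1
      calc E.v g2 ≤ E.v g2 + E.v g2⁻¹ := le_add_of_nonneg_right e2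
        _ = 0 := e3
    have hs2eq : s2 = g2 * c1 ^ m2 := by
      apply P.e.toRingHom.injective
      show P.e s2 = P.e (g2 * c1 ^ m2)
      rw [map_mul, map_pow, hes2, heg2, hec1, mul_pow]
      have e2 := hθ.1
      field_simp
    have hvs2 : E.v s2 = ((m2 * k1 : ℤ) : WithTop ℤ) := by
      rw [hs2eq, AddValuation.map_mul, AddValuation.map_pow, hvg2, ← hk1, zero_add, nsmul_coe_int]
    refine le_csSup hbdd ⟨j, m2, s2, m2 * k1, hchartE', hm2, hs2 j, hvs2, ?_⟩
    have h8 : (m2 : ℝ) ≠ 0 := by positivity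
    push_cast
    field_simp
  -- the log discrepancy
  have hlog : E.logDisc ≤ ENNReal.ofReal (1 + E.canOrd + k1) := by
    refine iSup₂_le fun k hk => ?_
    obtain ⟨z, ⟨x, hx, hz⟩, hvz⟩ := hk
    have h1 := hforms x hx
    rw [AddValuation.map_mul, ← hz, hvz, ← hk1] at h1
    have h2 : 0 ≤ k1 + k := by exact_mod_cast h1
    have h3 : (0 : ℝ) ≤ k1 + k := by exact_mod_cast h2
    exact ENNReal.ofReal_le_ofReal (by linarith)
  have hord : (1 + E.canOrd + k1) ≤ E.ord m s0 / m := by
    obtain ⟨k, hk⟩ := WithTop.ne_top_iff_exists.1 (hvne s0 hs00)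
    have h1 : E.ord m s0 = k + m * E.canOrd := by
      unfold Variety.DivVal.ord
      rw [← hk]
      rfl
    rw [← hk] at hvs0
    have h2 : (m + m * k1 : ℤ) ≤ k := by exact_mod_cast hvs0
    have h3 : (m + m * k1 : ℝ) ≤ k := by exact_mod_cast h2
    have h4 : (0 : ℝ) < m := by exact_mod_cast hm
    rw [h1, le_div_iff₀ h4]
    nlinarith
  have hlct : X.lct m s0 ≤ 1 := by
    refine iSup₂_le fun t ht => ?_
    obtain ⟨ht0, hLC⟩ := ht
    have h1 := (hLC E).trans hlog
    have hB : 0 < 1 + E.canOrd + k1 := by linarith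
    rw [ENNReal.ofReal_le_ofReal_iff hB.le] at h1
    have h2 : t * (1 + E.canOrd + k1) ≤ 1 * (1 + E.canOrd + k1) := by
      calc t * (1 + E.canOrd + k1) ≤ t * (E.ord m s0 / m) := mul_le_mul_of_nonneg_left hord ht0
        _ ≤ 1 + E.canOrd + k1 := h1
        _ = 1 * (1 + E.canOrd + k1) := (one_mul _).symm
    have h3 : t ≤ 1 := le_of_mul_le_mul_right h2 hB
    calc ENNReal.ofReal t ≤ ENNReal.ofReal 1 := ENNReal.ofReal_le_ofReal h3
      _ = 1 := ENNReal.ofReal_one
  exact (iInf₂_le (m, s0) ⟨hm, hs0, hs00⟩).trans hlct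

end CoxData.Presentation

end Pool.Agent.Run7.H918
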