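import Pool.Agent.Run7.h918.Core

/-!
Points of an irreducible cone that are attracted by a fixed point.
-/

set_option autoImplicit false

namespace Pool.Agent.Run7.H918

open Finset MvPolynomial

variable {ρ r s : ℕ}

theorem component_X_mul (w : Fin r → Fin ρ → ℤ) (i : Fin r) (f : MvPolynomial (Fin r) ℂ)
    (d : Fin ρ → ℤ) :
    weightedHomogeneousComponent w d (X i * f) =
      X i * weightedHomogeneousComponent w (d - w i) f := by
  classical
  ext m
  rw [coeff_weightedHomogeneousComponent, coeff_X_mul', coeff_X_mul',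
    coeff_weightedHomogeneousComponent]
  by_cases hi : i ∈ m.support
  · rw [if_pos hi, if_pos hi]
    have h1 : m = (m - Finsupp.single i 1) + Finsupp.single i 1 := by
      rw [tsub_add_cancel_of_le]
      rw [Finsupp.single_le_iff]
      exact Nat.one_le_iff_ne_zero.2 (Finsupp.mem_support_iff.1 hi)
    have h2 : Finsupp.weight w m = Finsupp.weight w (m - Finsupp.single i 1) + w i := by
      conv_lhs => rw [h1, map_add, Finsupp.weight_single, one_smul]
    rw [h2]
    by_cases h3 : Finsupp.weight w (m - Finsupp.single i 1) = d - w i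
    · rw [if_pos h3, if_pos (by rw [h3, sub_add_cancel])]
    · rw [if_neg h3, if_neg (fun h => h3 (by rw [← h, add_sub_cancel_right]))]
  · rw [if_neg hi, if_neg hi, ite_self]

/-- If `x` is a point of the irreducible cone `V(I)` fixed by the one-parameter subgroup `φ`, and some
coordinate of positive weight does not vanish on `V(I)`, then there is a point of `V(I)` whose
coordinates are nonzero where those of `x` are, zero at the other weights `≤ 0`, and with some nonzero
coordinate of positive weight. -/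
theorem exists_attracted {Ω : Type} [Field Ω] [Algebra ℂ Ω] (w : Fin r → Fin ρ → ℤ)
    (t : Fin r → Ω) (I : Ideal (MvPolynomial (Fin r) ℂ))
    (hker : RingHom.ker (aeval t : MvPolynomial (Fin r) ℂ →ₐ[ℂ] Ω) = I)
    (hX : ∀ i, X i ∉ I)
    (g : Fin s → MvPolynomial (Fin r) ℂ) (μ : Fin s → Fin ρ → ℤ)
    (hg : ∀ j, (g j).IsWeightedHomogeneous w (μ j)) (hgI : ∀ j, g j ∈ I)
    (φ : (Fin ρ → ℤ) →+ ℤ) (x : Fin r → ℂ) (hx : ∀ f ∈ I, eval x f = 0)
    (hxφ : ∀ i, x i ≠ 0 → φ (w i) = 0) (hA : ∃ i, 0 < φ (w i)) :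
    ∃ y : Fin r → ℂ, (∀ j, eval y (g j) = 0) ∧ (∀ i, x i ≠ 0 → y i ≠ 0) ∧
      (∀ i, y i ≠ 0 → x i ≠ 0 ∨ 0 < φ (w i)) ∧ ∃ i, y i ≠ 0 ∧ 0 < φ (w i) := by
  classical
  -- the valuation centered at `x`
  let π : MvPolynomial (Fin r) ℂ →+* Ω := (aeval t : MvPolynomial (Fin r) ℂ →ₐ[ℂ] Ω).toRingHom
  let S : Subring Ω := π.range
  let J : Ideal S := (Ideal.map π.rangeRestrict (RingHom.ker (eval x)))
  have hJ : J ≠ ⊤ := by
    intro h
    rw [Ideal.eq_top_iff_one] at h
    obtain ⟨f, hf, hf1⟩ := (Ideal.mem_map_iff_of_surjective _ π.rangeRestrict_surjective).1 h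
    have h1 : π f = 1 := by
      have := congrArg Subtype.val hf1
      exact this
    have h2 : f - 1 ∈ I := by
      rw [← hker, RingHom.mem_ker, map_sub, map_one]
      have : (aeval t : MvPolynomial (Fin r) ℂ →ₐ[ℂ] Ω) f = 1 := h1
      rw [this, sub_self]
    have h3 := hx _ h2
    rw [map_sub, map_one, (RingHom.mem_ker).1 hf] at h3
    norm_num at h3
  obtain ⟨B, hSB, hJB⟩ := Ideal.image_subset_nonunits_valuationSubring J hJ
  let v := B.valuation
  have hvle : ∀ f : MvPolynomial (Fin r) ℂ, v (aeval t f) ≤ 1 := fun f =>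
    (B.valuation_le_one_iff _).2 (hSB ⟨f, rfl⟩)
  have hvlt : ∀ f : MvPolynomial (Fin r) ℂ, eval x f = 0 → v (aeval t f) < 1 := by
    intro f hf
    have h1 : (aeval t f : Ω) ∈ B.nonunits := by
      refine hJB ⟨π.rangeRestrict f, Ideal.mem_map_of_mem _ ((RingHom.mem_ker).2 hf), rfl⟩
    exact (B.mem_nonunits_iff).1 h1
  have hvC : ∀ c : ℂ, c ≠ 0 → v (algebraMap ℂ Ω c) = 1 := by
    intro c hc
    have h1 := hvle (C c)
    have h2 := hvle (C c⁻¹)
    rw [aeval_C] at h1 h2
    rw [map_inv₀, map_inv₀] at h2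
    have h0 : v (algebraMap ℂ Ω c) ≠ 0 := by
      rw [Ne, map_eq_zero, FaithfulSMul.algebraMap_eq_zero_iff]
      exact hc
    refine le_antisymm h1 ?_
    exact (inv_le_one₀ (zero_lt_iff.2 h0)).1 h2
  let γ : Fin r → B.ValueGroup := fun i => v (t i)
  have htne : ∀ i, t i ≠ 0 := by
    intro i h
    apply hX i
    rw [← hker, RingHom.mem_ker, aeval_X, h]
  have hγ0 : ∀ i, γ i ≠ 0 := fun i => (map_ne_zero v).2 (htne i)
  have hγle : ∀ i, γ i ≤ 1 := by
    intro i
    have := hvle (X i)
    rwa [aeval_X] at this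
  have hγlt : ∀ i, x i = 0 → γ i < 1 := by
    intro i hi
    have := hvlt (X i) (by rw [eval_X, hi])
    rwa [aeval_X] at this
  have hγ1 : ∀ i, x i ≠ 0 → γ i = 1 := by
    intro i hi
    have h1 := hvlt (X i - C (x i)) (by rw [map_sub, eval_X, eval_C, sub_self])
    rw [map_sub, aeval_X, aeval_C] at h1
    have h2 : v (algebraMap ℂ Ω (x i)) = 1 := hvC _ hi
    have h3 : v (t i) = v ((t i - algebraMap ℂ Ω (x i)) + algebraMap ℂ Ω (x i)) := by
      rw [sub_add_cancel]
    show v (t i) = 1
    rw [h3, Valuation.map_add_eq_of_lt_right v (by rw [h2]; exact h1), h2]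
  -- the coordinate of positive weight with the largest normalised valuation
  let a : Fin r → ℕ := fun i => (φ (w i)).toNat
  have ha : ∀ i, 0 < φ (w i) → (a i : ℤ) = φ (w i) := fun i hi => Int.toNat_of_nonneg hi.le
  obtain ⟨iA, hiA⟩ := hA
  let A : Finset (Fin r) := univ.filter fun i => 0 < φ (w i)
  let N : ℕ := ∏ i ∈ A, a i
  have haA : ∀ i ∈ A, 0 < a i := by
    intro i hi
    have h1 := (Finset.mem_filter.1 hi).2
    have := ha i h1
    omega
  have hN : 0 < N := Finset.prod_pos haA
  obtain ⟨i0, hi0, hmax⟩ := Finset.exists_max_image A (fun i => γ i ^ (N / a i)) ⟨iA, by simp [A, hiA]⟩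
  have hi0A : 0 < φ (w i0) := (Finset.mem_filter.1 hi0).2
  have hcmp : ∀ i ∈ A, γ i ^ a i0 ≤ γ i0 ^ a i := by
    intro i hi
    have h1 := hmax i hi
    have h2 := pow_le_pow_left₀ zero_le' h1 (a i * a i0)
    rw [← pow_mul, ← pow_mul] at h2
    have e1 : N / a i * (a i * a i0) = a i0 * N := by
      rw [← mul_assoc, Nat.div_mul_cancel (Finset.dvd_prod_of_mem _ hi), mul_comm]
    have e2 : N / a i0 * (a i * a i0) = a i * N := by
      rw [mul_comm (a i) (a i0), ← mul_assoc, Nat.div_mul_cancel (Finset.dvd_prod_of_mem _ hi0),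
        mul_comm]
    rw [e1, e2, pow_mul, pow_mul] at h2
    exact (pow_le_pow_iff_left₀ zero_le' zero_le' hN.ne').1 h2
  set a0 := a i0 with ha0
  set γ0 := γ i0 with hγ0def
  have hγ0' : γ0 ≠ 0 := hγ0 i0
  have ha0pos : 0 < a0 := haA i0 hi0
  have hγ0le : γ0 ≤ 1 := hγle i0
  have hzpos : ∀ n : ℤ, 0 < γ0 ^ n := fun n => zpow_pos (zero_lt_iff.2 hγ0') n
  -- coordinates are compatible with the weight
  have hcoord : ∀ i, γ i ^ a0 ≤ γ0 ^ (φ (w i)) := by
    intro i
    rcases lt_or_ge 0 (φ (w i)) with h | h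
    · have h1 := hcmp i (by simp [A, h])
      rw [← ha i h, zpow_natCast]
      exact h1
    · refine (pow_le_one₀ zero_le' (hγle i)).trans ?_
      obtain ⟨n, hn⟩ := Int.exists_eq_neg_ofNat h
      rw [hn, zpow_neg, zpow_natCast]
      exact (one_le_inv₀ (pow_pos (zero_lt_iff.2 hγ0') n)).2 (pow_le_one₀ zero_le' hγ0le)
  have hcoordlt : ∀ i, x i = 0 → φ (w i) ≤ 0 → γ i ^ a0 < γ0 ^ (φ (w i)) := by
    intro i hi h
    refine (pow_lt_one₀ zero_le' (hγlt i hi) ha0pos.ne').trans_le ?_
    obtain ⟨n, hn⟩ := Int.exists_eq_neg_ofNat h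
    rw [hn, zpow_neg, zpow_natCast]
    exact (one_le_inv₀ (pow_pos (zero_lt_iff.2 hγ0') n)).2 (pow_le_one₀ zero_le' hγ0le)
  -- the ideal of the limit
  let P : Ideal (MvPolynomial (Fin r) ℂ) :=
    { carrier := {f | ∀ d, v (aeval t (weightedHomogeneousComponent w d f)) ^ a0 < γ0 ^ (φ d)}
      zero_mem' := by
        intro d
        rw [map_zero, map_zero, map_zero, zero_pow ha0pos.ne']
        exact hzpos _
      add_mem' := by
        intro f f' hf hf' d
        rw [map_add, map_add]
        rcases le_total (v (aeval t (weightedHomogeneousComponent w d f)))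
          (v (aeval t (weightedHomogeneousComponent w d f'))) with h | h
        · refine lt_of_le_of_lt (pow_le_pow_left₀ zero_le' (v.map_add_le h le_rfl) _) (hf' d)
        · refine lt_of_le_of_lt (pow_le_pow_left₀ zero_le' (v.map_add_le le_rfl h) _) (hf d)
      smul_mem' := by
        intro h f hf
        rw [smul_eq_mul]
        induction h using MvPolynomial.induction_on generalizing f with
        | C c =>
          intro d
          rw [weightedHomogeneousComponent_C_mul, map_mul, aeval_C, map_mul, mul_pow]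
          have h1 : v (algebraMap ℂ Ω c) ^ a0 ≤ 1 := by
            have := hvle (C c)
            rw [aeval_C] at this
            exact pow_le_one₀ zero_le' this
          exact lt_of_le_of_lt (mul_le_of_le_one_left zero_le' h1) (hf d)
        | add p q hp hq =>
          intro d
          have hp' := hp hf d
          have hq' := hq hf d
          rw [add_mul, map_add, map_add]
          rcases le_total (v (aeval t (weightedHomogeneousComponent w d (p * f))))
            (v (aeval t (weightedHomogeneousComponent w d (q * f)))) with h | h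
          · exact lt_of_le_of_lt (pow_le_pow_left₀ zero_le' (v.map_add_le h le_rfl) _) hq'
          · exact lt_of_le_of_lt (pow_le_pow_left₀ zero_le' (v.map_add_le le_rfl h) _) hp'
        | mul_X p i hp =>
          rw [mul_assoc]
          apply hp
          intro d
          rw [component_X_mul, map_mul, aeval_X, map_mul, mul_pow]
          have h1 := hf (d - w i)
          have h2 : γ0 ^ (φ d) = γ0 ^ (φ (w i)) * γ0 ^ (φ (d - w i)) := by
            rw [← zpow_add₀ hγ0', map_sub, add_sub_cancel]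
          rw [h2]
          refine lt_of_le_of_lt (mul_le_mul_left (hcoord i) _) ?_
          exact mul_lt_mul_of_pos_left h1 (hzpos _) }
  have hPmem : ∀ f, f ∈ P ↔
      ∀ d, v (aeval t (weightedHomogeneousComponent w d f)) ^ a0 < γ0 ^ (φ d) := fun f => Iff.rfl
  have hgP : ∀ j, g j ∈ P := by
    intro j
    rw [hPmem]
    intro d
    have h0 : aeval t (weightedHomogeneousComponent w d (g j)) = 0 := by
      by_cases hd : μ j = d
      · subst hd
        rw [(hg j).weightedHomogeneousComponent_same]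
        have := hgI j
        rwa [← hker, RingHom.mem_ker] at this
      · rw [(hg j).weightedHomogeneousComponent_ne d (Ne.symm hd), map_zero]
    rw [h0, map_zero, zero_pow ha0pos.ne']
    exact hzpos _
  have hXP : ∀ i, x i = 0 → φ (w i) ≤ 0 → X i ∈ P := by
    intro i hi h
    rw [hPmem]
    intro d
    by_cases hd : w i = d
    · subst hd
      rw [(isWeightedHomogeneous_X ℂ w i).weightedHomogeneousComponent_same, aeval_X]
      exact hcoordlt i hi h
    · rw [(isWeightedHomogeneous_X ℂ w i).weightedHomogeneousComponent_ne d (Ne.symm hd), map_zero,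
        map_zero, zero_pow ha0pos.ne']
      exact hzpos _
  -- the monomial outside the radical
  let M : MvPolynomial (Fin r) ℂ := X i0 * ∏ i ∈ univ.filter (fun i => x i ≠ 0), X i
  have hMhom : M.IsWeightedHomogeneous w (w i0 + ∑ i ∈ univ.filter (fun i => x i ≠ 0), w i) :=
    (isWeightedHomogeneous_X ℂ w i0).mul
      (IsWeightedHomogeneous.prod _ _ _ fun i _ => isWeightedHomogeneous_X ℂ w i)
  have hMv : v (aeval t M) = γ0 := by
    simp only [M, map_mul, map_prod, aeval_X]
    rw [Finset.prod_eq_one (fun i hi => hγ1 i (Finset.mem_filter.1 hi).2), mul_one]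
  have hMφ : φ (w i0 + ∑ i ∈ univ.filter (fun i => x i ≠ 0), w i) = a0 := by
    rw [map_add, map_sum, Finset.sum_eq_zero (fun i hi => hxφ i (Finset.mem_filter.1 hi).2), add_zero,
      ha0, ha i0 hi0A]
  have hMP : M ∉ P.radical := by
    rintro ⟨n, hn⟩
    rw [hPmem] at hn
    have h1 := hn (n • (w i0 + ∑ i ∈ univ.filter (fun i => x i ≠ 0), w i))
    rw [(hMhom.pow n).weightedHomogeneousComponent_same, map_pow, map_pow, hMv, map_nsmul, hMφ,
      ← pow_mul, nsmul_eq_mul, ← Nat.cast_mul, zpow_natCast] at h1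
    exact lt_irrefl _ h1
  obtain ⟨y, hyP, hyM⟩ : ∃ y : Fin r → ℂ, (∀ f ∈ P, eval y f = 0) ∧ eval y M ≠ 0 := by
    by_contra hcon
    push Not at hcon
    apply hMP
    rw [← MvPolynomial.vanishingIdeal_zeroLocus_eq_radical (K := ℂ), mem_vanishingIdeal_iff]
    intro y hy
    rw [mem_zeroLocus_iff] at hy
    rw [MvPolynomial.aeval_eq_eval]
    exact hcon y fun f hf => by
      have := hy f hf
      rwa [MvPolynomial.aeval_eq_eval] at this
  simp only [M, map_mul, map_prod, eval_X] at hyM
  obtain ⟨hy0, hy1⟩ := mul_ne_zero_iff.1 hyM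
  rw [Finset.prod_ne_zero_iff] at hy1
  refine ⟨y, fun j => hyP _ (hgP j), fun i hi => hy1 i (by simp [hi]), fun i hi => ?_,
    ⟨i0, hy0, hi0A⟩⟩
  by_contra hcon
  push Not at hcon
  have := hyP _ (hXP i hcon.1 hcon.2)
  rw [eval_X] at this
  exact hi this

end Pool.Agent.Run7.H918
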