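import Pool.Agent.Run7.h918.Core

/-!
The three families: hypersurfaces, ample complete intersections, complete intersections that meet
the exceptional locus of an extremal contraction.
-/

set_option autoImplicit false

namespace Pool.Agent.Run7.H918

open Finset MvPolynomial

variable {ρ r s : ℕ}

namespace CoxData

variable (D : CoxData ρ r s)

theorem semistable_nonempty (hD : D.IsGood) (hr : 0 < r) : ∃ y, y ∈ D.semistable := by
  obtain ⟨-, y, hy, -⟩ := hD.coord ⟨0, hr⟩
  exact ⟨y, hy⟩

theorem closure_range (hD : D.IsGood) (hr : 0 < r) :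
    AddSubgroup.closure (Set.range D.w) = ⊤ := by
  obtain ⟨y, hy⟩ := D.semistable_nonempty hD hr
  have h := hD.free y hy
  rw [eq_top_iff, ← h, AddSubgroup.closure_le]
  rintro _ ⟨i, -, rfl⟩
  exact AddSubgroup.subset_closure ⟨i, rfl⟩

/-- a nonzero weighted homogeneous polynomial of weight zero is a constant -/
theorem comb_eq_zero (hD : D.IsGood) (a : Fin r → ℕ) (h : ∑ i, a i • D.w i = 0) : ∀ i, a i = 0 := by
  obtain ⟨ψ, hψ⟩ := hD.pointed
  have h1 := congrArg ψ h
  rw [map_comb, map_zero] at h1
  intro i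
  have h2 := (Finset.sum_eq_zero_iff_of_nonneg (fun i _ =>
    mul_nonneg (Int.natCast_nonneg (a i)) (hψ i).le)).1 h1 i (Finset.mem_univ _)
  rcases mul_eq_zero.1 h2 with h3 | h3
  · exact_mod_cast h3
  · exact absurd h3 (hψ i).ne'

theorem const_of_weight_zero (hD : D.IsGood) {f : MvPolynomial (Fin r) ℂ}
    (hf : f.IsWeightedHomogeneous D.w 0) : f = C (coeff 0 f) := by
  ext d
  rw [coeff_C]
  split_ifs with h
  · rw [h]
  · by_contra hne
    have h1 := hf hne
    rw [weight_eq] at h1
    have h2 := D.comb_eq_zero hD _ h1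
    exact h (Finsupp.ext fun i => (h2 i).symm)

theorem mu_ne_zero (hD : D.IsGood) (hr : 0 < r) (j : Fin s) : D.μ j ≠ 0 := by
  intro h0
  obtain ⟨y, hy⟩ := D.semistable_nonempty hD hr
  have h1 := D.const_of_weight_zero hD (by rw [← h0]; exact hD.homog j)
  have h2 := hD.smooth y hy
  apply h2.ne_zero j
  funext i
  rw [h1, pderiv_C, map_zero]
  rfl

theorem u_ne_zero (hD : D.IsGood) (hr : 0 < r) (hρ : 0 < ρ) : D.u ≠ 0 := by
  intro h0
  have hx : (0 : Fin r → ℂ) ∈ D.semistable := by
    refine ⟨fun j => ?_, 1, 0, le_rfl, fun i hi => absurd rfl hi, by rw [h0]; simp⟩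
    by_contra hne
    obtain ⟨a, ha, hsupp⟩ := exists_monomial (hD.homog j) 0 hne
    have h1 : ∀ i, a i = 0 := by
      intro i
      by_contra h
      exact hsupp i h rfl
    apply D.mu_ne_zero hD hr j
    rw [← ha]
    simp [h1]
  have h1 := D.not_dvd_of_free hD hx (Pi.evalAddMonoidHom (fun _ => ℤ) ⟨0, hρ⟩) (by
    intro m
    exact ⟨fun _ => m, rfl⟩) 0 (fun i hi => absurd rfl hi)
  norm_num at h1

/-- the point with coordinates `1` at the weights on the wall and `0` elsewhere -/
theorem core_wall (hD : D.IsGood) (φ : (Fin ρ → ℤ) →+ ℤ) (hφ : Function.Surjective φ)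
    (H2 : ∀ i, 0 < φ (D.w i) → InCone D.w {l | l = i ∨ φ (D.w l) = 0} D.u)
    (hpos : ∀ j, 0 < φ (D.μ j)) (H5 : ∃ i, 0 < φ (D.w i)) :
    ∃ (i : Fin r) (m : ℕ) (a : Fin r → ℕ), 1 ≤ m ∧ m ≤ a i ∧ ∑ l, a l • D.w l = m • D.u := by
  classical
  let x : Fin r → ℂ := fun i => if φ (D.w i) = 0 then 1 else 0
  have hx : ∀ i, x i ≠ 0 ↔ φ (D.w i) = 0 := by
    intro i
    simp only [x]
    split_ifs with h <;> simp [h]
  refine D.core hD φ hφ x (fun i => (hx i).1) ?_ ?_ ?_ H5
  · intro i hi
    refine (H2 i hi).mono fun l hl => ?_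
    exact hl.imp_right (hx l).2
  · intro j
    by_contra hne
    obtain ⟨a, ha, hsupp⟩ := exists_monomial (hD.homog j) x hne
    have h1 := congrArg φ ha
    rw [map_comb, Finset.sum_eq_zero] at h1
    · exact (hpos j).ne h1
    · intro i _
      by_cases h : a i = 0
      · simp [h]
      · rw [(hx i).1 (hsupp i h), mul_zero]
  · rw [Finset.filter_eq_empty_iff.2 (fun j _ => by have := hpos j; omega), Finset.sum_empty]
    exact Finset.sum_nonneg fun i hi => by
      have := (Finset.mem_filter.1 hi).2
      omega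

theorem exists_ample (hD : D.IsGood) (hr : 0 < r) (hρ : 0 < ρ) (hamp : ∀ j, D.Ample (D.μ j)) :
    ∃ (i : Fin r) (m : ℕ) (a : Fin r → ℕ), 1 ≤ m ∧ m ≤ a i ∧ ∑ l, a l • D.w l = m • D.u := by
  obtain ⟨y, hy⟩ := D.semistable_nonempty hD hr
  obtain ⟨φ, hφ, h1, ⟨i0, hi0⟩, h3⟩ := wall D.w (D.closure_range hD hr) D.u D.u
    (hy.2.mono fun _ _ => Set.mem_univ _) (D.u_ne_zero hD hr hρ)
  refine D.core_wall hD φ hφ h3 (fun j => ?_) ⟨i0, hi0⟩
  have hu : 0 < φ D.u := by
    refine lt_of_le_of_ne ((h3 i0 hi0).nonneg φ fun i hi => ?_) (Ne.symm h1)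
    rcases hi with rfl | hi
    · exact hi0.le
    · exact hi.ge
  obtain ⟨n, hn, h4⟩ := hamp j _ (h3 i0 hi0)
  have h5 := h4.nonneg φ fun i hi => by
    rcases hi with rfl | hi
    · exact hi0.le
    · exact hi.ge
  rw [map_sub, map_nsmul, nsmul_eq_mul] at h5
  by_contra hcon
  push Not at hcon
  have h6 : (n : ℤ) * φ (D.μ j) ≤ 0 := mul_nonpos_of_nonneg_of_nonpos (Int.natCast_nonneg n) hcon
  linarith

theorem exists_hypersurface (D : CoxData ρ r 1) (hD : D.IsGood) (hr : 0 < r) :
    ∃ (i : Fin r) (m : ℕ) (a : Fin r → ℕ), 1 ≤ m ∧ m ≤ a i ∧ ∑ l, a l • D.w l = m • D.u := by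
  classical
  obtain ⟨y0, hy0⟩ := D.semistable_nonempty hD hr
  obtain ⟨φ, hφ, h1, ⟨i0, hi0⟩, h3⟩ := wall D.w (D.closure_range hD hr) D.u (D.μ 0)
    (hy0.2.mono fun _ _ => Set.mem_univ _) (D.mu_ne_zero hD hr 0)
  rcases lt_or_gt_of_ne h1 with hneg | hpos
  · -- the hypersurface contains the exceptional locus
    let y : Fin r → ℂ := fun i => if i = i0 ∨ φ (D.w i) = 0 then 1 else 0
    have hy : ∀ i, y i ≠ 0 ↔ (i = i0 ∨ φ (D.w i) = 0) := by
      intro i
      simp only [y]
      split_ifs with h <;> simp [h]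
    have hys : y ∈ D.semistable := by
      refine ⟨fun j => ?_, (h3 i0 hi0).mono fun l hl => (hy l).2 hl⟩
      by_contra hne
      obtain ⟨a, ha, hsupp⟩ := exists_monomial (hD.homog j) y hne
      have h4 := congrArg φ ha
      rw [map_comb] at h4
      have h5 : 0 ≤ φ (D.μ j) := by
        rw [← h4]
        refine Finset.sum_nonneg fun i _ => ?_
        by_cases h : a i = 0
        · simp [h]
        · refine mul_nonneg (Int.natCast_nonneg _) ?_
          rcases (hy i).1 (hsupp i h) with rfl | h6
          · exact hi0.le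
          · exact h6.ge
      rw [Subsingleton.elim j 0] at h5
      omega
    have hdvd := D.not_dvd_of_free hD hys φ hφ (φ (D.w i0)) (fun i hi => by
      rcases (hy i).1 hi with rfl | h6
      · exact dvd_rfl
      · rw [h6]; exact dvd_zero _)
    have hone : φ (D.w i0) = 1 := by
      have := Int.le_of_dvd one_pos hdvd
      omega
    have hu0 : 0 ≤ φ D.u := by
      refine (h3 i0 hi0).nonneg φ fun i hi => ?_
      rcases hi with rfl | hi
      · exact hi0.le
      · exact hi.ge
    have hu : 0 < φ D.u := by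
      refine lt_of_le_of_ne hu0 fun h0 => ?_
      obtain ⟨m, a, hm, ha, h⟩ := h3 i0 hi0
      have h4 := congrArg φ h
      rw [map_comb, map_nsmul, ← h0, smul_zero, Finset.sum_eq_single i0, hone, mul_one] at h4
      · have h5 : a i0 = 0 := by exact_mod_cast h4
        let x : Fin r → ℂ := fun i => if φ (D.w i) = 0 then 1 else 0
        have hx : ∀ i, x i ≠ 0 ↔ φ (D.w i) = 0 := by
          intro i
          simp only [x]
          split_ifs with h <;> simp [h]
        have hxs : x ∈ D.semistable := by
          refine ⟨fun j => ?_, m, a, hm, fun i hi => ?_, h⟩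
          · by_contra hne
            obtain ⟨b, hb, hsupp⟩ := exists_monomial (hD.homog j) x hne
            have h6 := congrArg φ hb
            rw [map_comb, Finset.sum_eq_zero] at h6
            · rw [Subsingleton.elim j 0] at h6
              omega
            · intro i _
              by_cases h : b i = 0
              · simp [h]
              · rw [(hx i).1 (hsupp i h), mul_zero]
          · rcases ha i hi with h6 | h6
            · rw [h6] at hi
              exact absurd h5 hi
            · exact (hx i).2 h6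
        have h7 := D.not_dvd_of_free hD hxs φ hφ 0 (fun i hi => by rw [(hx i).1 hi])
        norm_num at h7
      · intro l _ hl
        by_cases h6 : a l = 0
        · simp [h6]
        · rcases ha l h6 with h7 | h7
          · exact absurd h7 hl
          · rw [h7, mul_zero]
      · intro h
        exact absurd (Finset.mem_univ _) h
    obtain ⟨m, a, h⟩ := D.good_monomial φ i0 hone hu _ (fun l hl => hl) (h3 i0 hi0)
    exact ⟨i0, m, a, h⟩
  · exact D.core_wall hD φ hφ h3 (fun j => by rw [Subsingleton.elim j 0]; exact hpos) ⟨i0, hi0⟩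

/-- the case where `V(g)` meets the exceptional locus of an extremal contraction -/
theorem exists_gen (hD : D.IsGood) (x : Fin r → ℂ) (hx : x ∈ D.semistable) (φ : (Fin ρ → ℤ) →+ ℤ)
    (hφ : Function.Surjective φ) (h1 : ∀ i, x i ≠ 0 → 0 ≤ φ (D.w i))
    (h2 : ∀ i, 0 < φ (D.w i) → InCone D.w {l | l = i ∨ (x l ≠ 0 ∧ φ (D.w l) = 0)} D.u) :
    ∃ (i : Fin r) (m : ℕ) (a : Fin r → ℕ), 1 ≤ m ∧ m ≤ a i ∧ ∑ l, a l • D.w l = m • D.u := by
  classical
  let x' : Fin r → ℂ := fun i => if φ (D.w i) = 0 then x i else 0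
  have hx' : ∀ i, x' i ≠ 0 ↔ (x i ≠ 0 ∧ φ (D.w i) = 0) := by
    intro i
    simp only [x']
    split_ifs with h <;> simp [h]
  have hx'eq : ∀ i, x' i ≠ 0 → x' i = x i := by
    intro i hi
    simp only [x', if_pos ((hx' i).1 hi).2]
  refine D.core hD φ hφ x' (fun i hi => ((hx' i).1 hi).2) ?_ ?_ ?_ ?_
  · intro i hi
    exact (h2 i hi).mono fun l hl => hl.imp_right (hx' l).2
  · intro j
    by_cases hj : φ (D.μ j) = 0
    · rw [← hx.1 j]
      refine eval_congr (hD.homog j) _ _ fun a ha => ?_
      by_cases hsupp : ∀ i, a i ≠ 0 → x' i ≠ 0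
      · refine Finset.prod_congr rfl fun i _ => ?_
        by_cases h0 : a i = 0
        · simp [h0]
        · rw [hx'eq i (hsupp i h0)]
      · push Not at hsupp
        obtain ⟨i1, hi1, hxi1⟩ := hsupp
        rw [Finset.prod_eq_zero (f := fun i => x' i ^ a i) (Finset.mem_univ i1)
          (by simp only [hxi1]; exact zero_pow hi1)]
        by_contra hne
        have hne' := Finset.prod_ne_zero_iff.1 (Ne.symm hne)
        have hxne : ∀ i, a i ≠ 0 → x i ≠ 0 := by
          intro i hi h0
          apply hne' i (Finset.mem_univ i)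
          rw [h0, zero_pow hi]
        have h3 := congrArg φ ha
        rw [map_comb, hj] at h3
        have h4 := (Finset.sum_eq_zero_iff_of_nonneg (fun i _ => by
          by_cases h3 : a i = 0
          · simp [h3]
          · exact mul_nonneg (Int.natCast_nonneg _) (h1 i (hxne i h3)))).1 h3 i1 (Finset.mem_univ _)
        rcases mul_eq_zero.1 h4 with h5 | h5
        · exact hi1 (by exact_mod_cast h5)
        · exact (hx' i1).2 ⟨hxne i1 hi1, h5⟩ hxi1
    · by_contra hne
      obtain ⟨a, ha, hsupp⟩ := exists_monomial (hD.homog j) x' hne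
      apply hj
      rw [← ha, map_comb]
      refine Finset.sum_eq_zero fun i _ => ?_
      by_cases h : a i = 0
      · simp [h]
      · rw [((hx' i).1 (hsupp i h)).2, mul_zero]
  · -- the Jacobian matrix
    have hrow : ∀ j i, (eval x (pderiv i (D.g j)) : ℂ) ≠ 0 → φ (D.w i) ≤ φ (D.μ j) := by
      intro j i hne
      have h3 : (pderiv i (D.g j)).IsWeightedHomogeneous D.w (D.μ j - D.w i) :=
        (hD.homog j).pderiv (sub_add_cancel _ _)
      obtain ⟨a, ha, hsupp⟩ := exists_monomial h3 x hne
      have h4 := congrArg φ ha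
      rw [map_comb, map_sub] at h4
      have h5 : 0 ≤ ∑ i, (a i : ℤ) * φ (D.w i) := by
        refine Finset.sum_nonneg fun i _ => ?_
        by_cases h : a i = 0
        · simp [h]
        · exact mul_nonneg (Int.natCast_nonneg _) (h1 i (hsupp i h))
      linarith
    have hcount : ∀ k : ℤ, 1 ≤ k → (univ.filter fun j => k ≤ -φ (D.μ j)).card ≤
        (univ.filter fun i => k ≤ -φ (D.w i)).card := by
      intro k hk
      have hli := hD.smooth x hx
      let T : Finset (Fin r) := univ.filter fun i => k ≤ -φ (D.w i)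
      have h3 : LinearIndependent ℂ (fun (j : {j // k ≤ -φ (D.μ j)}) (i : T) =>
          (eval x (pderiv i.1 (D.g j.1)) : ℂ)) := by
        rw [Fintype.linearIndependent_iff]
        intro c hc
        have h4 : LinearIndependent ℂ (fun (j : {j // k ≤ -φ (D.μ j)}) (i : Fin r) =>
            (eval x (pderiv i (D.g j.1)) : ℂ)) := hli.comp _ Subtype.val_injective
        rw [Fintype.linearIndependent_iff] at h4
        apply h4 c
        funext i
        by_cases hi : i ∈ T
        · have h5 := congrFun hc ⟨i, hi⟩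
          simpa using h5
        · simp only [Finset.sum_apply, Pi.smul_apply, smul_eq_mul, Pi.zero_apply]
          refine Finset.sum_eq_zero fun j _ => ?_
          have h5 : (eval x (pderiv i (D.g j.1)) : ℂ) = 0 := by
            by_contra hne
            apply hi
            have h6 := hrow j.1 i hne
            have h7 := j.2
            simp only [T, Finset.mem_filter, Finset.mem_univ, true_and]
            omega
          rw [h5, mul_zero]
      have h4 := h3.fintype_card_le_finrank
      rw [Module.finrank_fintype_fun_eq_card, Fintype.card_coe, Fintype.card_subtype] at h4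
      exact h4
    -- layer cake
    have hlayer : ∀ {n : ℕ} (f : Fin n → ℤ) (N : ℕ), (∀ i, -f i ≤ N) →
        ∑ i ∈ univ.filter (fun i => f i < 0), (-f i) =
          ∑ k ∈ Finset.Icc 1 N, ((univ.filter fun i => (k : ℤ) ≤ -f i).card : ℤ) := by
      intro n f N hN
      have h3 : ∀ k ∈ Finset.Icc 1 N, ((univ.filter fun i => (k : ℤ) ≤ -f i).card : ℤ) =
          ∑ i, if (k : ℤ) ≤ -f i then (1 : ℤ) else 0 := by
        intro k _
        rw [Finset.card_filter]
        push_cast
        rfl
      rw [Finset.sum_congr rfl h3, Finset.sum_comm, Finset.sum_filter]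
      refine Finset.sum_congr rfl fun i _ => ?_
      rw [← Finset.sum_filter, Finset.sum_const, nsmul_eq_mul, mul_one]
      split_ifs with h
      · have h4 : (Finset.Icc 1 N).filter (fun k : ℕ => (k : ℤ) ≤ -f i) =
            Finset.Icc 1 (-f i).toNat := by
          ext k
          simp only [Finset.mem_filter, Finset.mem_Icc]
          have := hN i
          omega
        rw [h4, Nat.card_Icc]
        omega
      · have h4 : (Finset.Icc 1 N).filter (fun k : ℕ => (k : ℤ) ≤ -f i) = ∅ := by
          rw [Finset.filter_eq_empty_iff]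
          intro k hk
          rw [Finset.mem_Icc] at hk
          omega
        rw [h4]
        simp
    let N : ℕ := (∑ i, (-φ (D.w i)).toNat) + ∑ j, (-φ (D.μ j)).toNat
    have hN1 : ∀ i, -φ (D.w i) ≤ N := by
      intro i
      have h3 := Finset.single_le_sum (f := fun i => (-φ (D.w i)).toNat)
        (fun _ _ => Nat.zero_le _) (Finset.mem_univ i)
      omega
    have hN2 : ∀ j, -φ (D.μ j) ≤ N := by
      intro i
      have h3 := Finset.single_le_sum (f := fun i => (-φ (D.μ i)).toNat)
        (fun _ _ => Nat.zero_le _) (Finset.mem_univ i)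
      omega
    rw [hlayer (fun j => φ (D.μ j)) N hN2, hlayer (fun i => φ (D.w i)) N hN1]
    refine Finset.sum_le_sum fun k hk => ?_
    rw [Finset.mem_Icc] at hk
    exact_mod_cast hcount k (by exact_mod_cast hk.1)
  · by_contra hcon
    push Not at hcon
    have h3 := D.not_dvd_of_free hD hx φ hφ 0 (fun i hi => by
      rw [le_antisymm (hcon i) (h1 i hi)])
    norm_num at h3

end CoxData

end Pool.Agent.Run7.H918
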