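import Mathlib

/-!
A counting lemma: totient and Moebius sums.
-/

set_option autoImplicit false

namespace Pool.Agent.Run7.H918

open Finset

theorem sum_totient_count {ι : Type*} (s : Finset ι) (a : ι → ℕ) (M : ℕ) (ha : ∀ i ∈ s, 1 ≤ a i)
    (hM : ∀ i ∈ s, a i ≤ M) :
    (∑ i ∈ s, (a i : ℤ)) =
      ∑ k ∈ Finset.Icc 1 M, (Nat.totient k : ℤ) * ((s.filter fun i => k ∣ a i).card : ℤ) := by
  have h1 : ∀ i ∈ s, (a i : ℤ) = ∑ k ∈ Finset.Icc 1 M, if k ∣ a i then (Nat.totient k : ℤ) else 0 := by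
    intro i hi
    have h2 : ((a i).divisors.sum Nat.totient) = a i := Nat.sum_totient (a i)
    rw [← Finset.sum_filter]
    have h3 : (Finset.Icc 1 M).filter (fun k => k ∣ a i) = (a i).divisors := by
      ext k
      simp only [Finset.mem_filter, Finset.mem_Icc, Nat.mem_divisors]
      constructor
      · rintro ⟨_, h⟩
        exact ⟨h, by have := ha i hi; omega⟩
      · rintro ⟨h, h0⟩
        exact ⟨⟨Nat.pos_of_dvd_of_pos h (ha i hi), (Nat.le_of_dvd (ha i hi) h).trans (hM i hi)⟩, h⟩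
    rw [h3]
    exact_mod_cast h2.symm
  rw [Finset.sum_congr rfl h1, Finset.sum_comm]
  refine Finset.sum_congr rfl fun k _ => ?_
  rw [← Finset.sum_filter, Finset.sum_const, nsmul_eq_mul, mul_comm]

theorem sum_moebius_count {ι : Type*} (s : Finset ι) (a : ι → ℕ) (M : ℕ) (ha : ∀ i ∈ s, 1 ≤ a i)
    (hM : ∀ i ∈ s, a i ≤ M) :
    (((s.filter fun i => a i = 1).card : ℕ) : ℤ) =
      ∑ k ∈ Finset.Icc 1 M, (ArithmeticFunction.moebius k : ℤ) *
        ((s.filter fun i => k ∣ a i).card : ℤ) := by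
  have h1 : ∀ i ∈ s, (if a i = 1 then (1 : ℤ) else 0) =
      ∑ k ∈ Finset.Icc 1 M, if k ∣ a i then (ArithmeticFunction.moebius k : ℤ) else 0 := by
    intro i hi
    rw [← Finset.sum_filter]
    have h3 : (Finset.Icc 1 M).filter (fun k => k ∣ a i) = (a i).divisors := by
      ext k
      simp only [Finset.mem_filter, Finset.mem_Icc, Nat.mem_divisors]
      constructor
      · rintro ⟨_, h⟩
        exact ⟨h, by have := ha i hi; omega⟩
      · rintro ⟨h, h0⟩
        exact ⟨⟨Nat.pos_of_dvd_of_pos h (ha i hi), (Nat.le_of_dvd (ha i hi) h).trans (hM i hi)⟩, h⟩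
    rw [h3]
    have h4 := congrArg (fun f : ArithmeticFunction ℤ => f (a i))
      ArithmeticFunction.coe_zeta_mul_moebius
    simp only [ArithmeticFunction.coe_zeta_mul_apply, ArithmeticFunction.one_apply] at h4
    exact h4.symm
  rw [Finset.card_filter]
  push_cast
  rw [Finset.sum_congr rfl h1, Finset.sum_comm]
  refine Finset.sum_congr rfl fun k _ => ?_
  rw [← Finset.sum_filter, Finset.sum_const, nsmul_eq_mul, mul_comm]

/-- If for every `k ≥ 2` at least as many `d j` as `a i` are divisible by `k` and no `a i` is `1`,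
then `∑ a ≤ ∑ d`. -/
theorem sum_le_sum_of_count {ι κ : Type*} (s : Finset ι) (a : ι → ℕ) (t : Finset κ) (d : κ → ℕ)
    (ha : ∀ i ∈ s, 2 ≤ a i) (hd : ∀ j ∈ t, 1 ≤ d j)
    (h : ∀ k, 2 ≤ k → (s.filter fun i => k ∣ a i).card ≤ (t.filter fun j => k ∣ d j).card) :
    (∑ i ∈ s, a i) ≤ ∑ j ∈ t, d j := by
  set M := (∑ i ∈ s, a i) + ∑ j ∈ t, d j with hM
  have haM : ∀ i ∈ s, a i ≤ M := fun i hi =>
    (Finset.single_le_sum (f := a) (fun _ _ => Nat.zero_le _) hi).trans (Nat.le_add_right _ _)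
  have hdM : ∀ j ∈ t, d j ≤ M := fun j hj =>
    (Finset.single_le_sum (f := d) (fun _ _ => Nat.zero_le _) hj).trans (Nat.le_add_left _ _)
  have ha1 : ∀ i ∈ s, 1 ≤ a i := fun i hi => (by norm_num : 1 ≤ 2).trans (ha i hi)
  have e1 := sum_totient_count s a M ha1 haM
  have e2 := sum_totient_count t d M hd hdM
  have e3 := sum_moebius_count s a M ha1 haM
  have e4 := sum_moebius_count t d M hd hdM
  have e5 : (s.filter fun i => a i = 1) = ∅ := by
    rw [Finset.filter_eq_empty_iff]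
    intro i hi h1
    have := ha i hi
    omega
  rw [e5] at e3
  simp only [Finset.card_empty, Nat.cast_zero] at e3
  have key : ∑ k ∈ Finset.Icc 1 M, (Nat.totient k : ℤ) * ((s.filter fun i => k ∣ a i).card : ℤ) -
      ∑ k ∈ Finset.Icc 1 M, (ArithmeticFunction.moebius k : ℤ) *
        ((s.filter fun i => k ∣ a i).card : ℤ) ≤
      ∑ k ∈ Finset.Icc 1 M, (Nat.totient k : ℤ) * ((t.filter fun i => k ∣ d i).card : ℤ) -
      ∑ k ∈ Finset.Icc 1 M, (ArithmeticFunction.moebius k : ℤ) *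
        ((t.filter fun i => k ∣ d i).card : ℤ) := by
    rw [← Finset.sum_sub_distrib, ← Finset.sum_sub_distrib]
    refine Finset.sum_le_sum fun k hk => ?_
    rw [Finset.mem_Icc] at hk
    rw [← sub_mul, ← sub_mul]
    rcases eq_or_lt_of_le hk.1 with h1 | h1
    · subst h1
      simp
    · have h2 : (ArithmeticFunction.moebius k : ℤ) ≤ 1 :=
        (le_abs_self _).trans ArithmeticFunction.abs_moebius_le_one
      have h3 : 0 < Nat.totient k := Nat.totient_pos.2 (by omega)
      have h4 : (1 : ℤ) ≤ Nat.totient k := by exact_mod_cast h3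
      have h5 : ((s.filter fun i => k ∣ a i).card : ℤ) ≤ ((t.filter fun j => k ∣ d j).card : ℤ) := by
        exact_mod_cast h k h1
      exact mul_le_mul_of_nonneg_left h5 (by linarith)
  rw [← e1, ← e2, ← e3, ← e4] at key
  have h6 : (0 : ℤ) ≤ (((t.filter fun i => d i = 1).card : ℕ) : ℤ) := Int.natCast_nonneg _
  have h7 : (∑ i ∈ s, (a i : ℤ)) ≤ ∑ j ∈ t, (d j : ℤ) := by linarith
  exact_mod_cast h7

end Pool.Agent.Run7.H918
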