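import Pool.Agent.Run7.h918.Wall3
import Pool.Agent.Run7.h918.Num
import Pool.Agent.H952R2.Sextic.CommonZero

/-!
The main combinatorial argument: along a suitable wall some coordinate has weight one.
-/

set_option autoImplicit false

namespace Pool.Agent.Run7.H918

open Finset MvPolynomial

variable {ρ r s : ℕ}

theorem weight_eq (w : Fin r → Fin ρ → ℤ) (d : Fin r →₀ ℕ) :
    Finsupp.weight w d = ∑ i, d i • w i := by
  rw [Finsupp.weight_apply, Finsupp.sum_fintype]
  intro i
  rw [zero_smul]

theorem exists_monomial {w : Fin r → Fin ρ → ℤ} {f : MvPolynomial (Fin r) ℂ} {m : Fin ρ → ℤ}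
    (hf : f.IsWeightedHomogeneous w m) (y : Fin r → ℂ) (hy : eval y f ≠ 0) :
    ∃ a : Fin r → ℕ, ∑ i, a i • w i = m ∧ ∀ i, a i ≠ 0 → y i ≠ 0 := by
  rw [eval_eq'] at hy
  obtain ⟨d, hd, hne⟩ := Finset.exists_ne_zero_of_sum_ne_zero hy
  refine ⟨d, ?_, ?_⟩
  · rw [← weight_eq]
    exact hf (by
      intro h
      rw [h, zero_mul] at hne
      exact hne rfl)
  · intro i hi h0
    apply hne
    rw [mul_eq_zero]
    right
    exact Finset.prod_eq_zero (Finset.mem_univ i) (by rw [h0, zero_pow hi])

theorem eval_congr {w : Fin r → Fin ρ → ℤ} {f : MvPolynomial (Fin r) ℂ} {m : Fin ρ → ℤ}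
    (hf : f.IsWeightedHomogeneous w m) (y x : Fin r → ℂ)
    (h : ∀ a : Fin r → ℕ, ∑ i, a i • w i = m → ∏ i, y i ^ a i = ∏ i, x i ^ a i) :
    eval y f = eval x f := by
  rw [eval_eq', eval_eq']
  refine Finset.sum_congr rfl fun d hd => ?_
  rw [h d]
  rw [← weight_eq]
  exact hf (by simpa using hd)

theorem map_comb (φ : (Fin ρ → ℤ) →+ ℤ) (w : Fin r → Fin ρ → ℤ) (a : Fin r → ℕ) :
    φ (∑ i, a i • w i) = ∑ i, (a i : ℤ) * φ (w i) := by
  rw [map_sum]
  refine Finset.sum_congr rfl fun i _ => ?_
  rw [map_nsmul, nsmul_eq_mul]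

namespace CoxData

variable (D : CoxData ρ r s)

/-- A semistable point and a functional that is divisible by `k` on all weights of its coordinates. -/
theorem not_dvd_of_free (hD : D.IsGood) {y : Fin r → ℂ} (hy : y ∈ D.semistable)
    (φ : (Fin ρ → ℤ) →+ ℤ) (hφ : Function.Surjective φ) (k : ℤ)
    (h : ∀ i, y i ≠ 0 → k ∣ φ (D.w i)) : k ∣ 1 := by
  have h1 := hD.free y hy
  have h2 : AddSubgroup.closure {v | ∃ i, y i ≠ 0 ∧ v = D.w i} ≤
      AddSubgroup.comap φ (AddSubgroup.zmultiples k) := by
    rw [AddSubgroup.closure_le]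
    rintro _ ⟨i, hi, rfl⟩
    rw [SetLike.mem_coe, AddSubgroup.mem_comap, Int.mem_zmultiples_iff]
    exact h i hi
  rw [h1, top_le_iff] at h2
  obtain ⟨v, hv⟩ := hφ 1
  have h3 : v ∈ AddSubgroup.comap φ (AddSubgroup.zmultiples k) := h2 ▸ AddSubgroup.mem_top v
  rw [AddSubgroup.mem_comap, hv, Int.mem_zmultiples_iff] at h3
  exact h3

/-- If the weight of a coordinate is `1` along a wall, then a high power of the coordinate divides an
anticanonical monomial. -/
theorem good_monomial (φ : (Fin ρ → ℤ) →+ ℤ) (i : Fin r) (hi : φ (D.w i) = 1)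
    (hu : 0 < φ D.u) (Q : Set (Fin r)) (hQ : ∀ l ∈ Q, l = i ∨ φ (D.w l) = 0)
    (hc : InCone D.w Q D.u) :
    ∃ (m : ℕ) (a : Fin r → ℕ), 1 ≤ m ∧ m ≤ a i ∧ ∑ l, a l • D.w l = m • D.u := by
  obtain ⟨m, a, hm, ha, h⟩ := hc
  refine ⟨m, a, hm, ?_, h⟩
  have h1 := congrArg φ h
  rw [map_comb, map_nsmul, nsmul_eq_mul, Finset.sum_eq_single i, hi, mul_one] at h1
  · have h2 : (m : ℤ) * 1 ≤ (m : ℤ) * φ D.u :=
      mul_le_mul_of_nonneg_left hu (Int.natCast_nonneg m)
    rw [← h1, mul_one] at h2
    exact_mod_cast h2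
  · intro l _ hl
    by_cases h0 : a l = 0
    · simp [h0]
    · rcases hQ l (ha l h0) with h3 | h3
      · exact absurd h3 hl
      · rw [h3, mul_zero]
  · intro h
    exact absurd (Finset.mem_univ _) h

theorem core (hD : D.IsGood) (φ : (Fin ρ → ℤ) →+ ℤ) (hφ : Function.Surjective φ)
    (x : Fin r → ℂ) (H1 : ∀ i, x i ≠ 0 → φ (D.w i) = 0)
    (H2 : ∀ i, 0 < φ (D.w i) → InCone D.w {l | l = i ∨ x l ≠ 0} D.u)
    (H3 : ∀ j, eval x (D.g j) = 0)
    (H4 : ∑ j ∈ univ.filter (fun j => φ (D.μ j) < 0), (-φ (D.μ j)) ≤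
      ∑ i ∈ univ.filter (fun i => φ (D.w i) < 0), (-φ (D.w i)))
    (H5 : ∃ i, 0 < φ (D.w i)) :
    ∃ (i : Fin r) (m : ℕ) (a : Fin r → ℕ), 1 ≤ m ∧ m ≤ a i ∧ ∑ l, a l • D.w l = m • D.u := by
  classical
  obtain ⟨i0, hi0⟩ := H5
  -- positivity of `φ u`
  have hu0 : 0 ≤ φ D.u := by
    refine (H2 i0 hi0).nonneg φ fun i hi => ?_
    rcases hi with rfl | hi
    · exact hi0.le
    · exact (H1 i hi).ge
  have hu : 0 < φ D.u := by
    refine lt_of_le_of_ne hu0 fun h0 => ?_
    obtain ⟨m, a, hm, ha, h⟩ := H2 i0 hi0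
    have h1 := congrArg φ h
    rw [map_comb, map_nsmul, ← h0, smul_zero] at h1
    have h2 : ∀ i ∈ (univ : Finset (Fin r)), 0 ≤ (a i : ℤ) * φ (D.w i) := by
      intro i _
      by_cases h3 : a i = 0
      · simp [h3]
      · refine mul_nonneg (Int.natCast_nonneg _) ?_
        rcases ha i h3 with h4 | h4
        · rw [h4]; exact hi0.le
        · exact (H1 i h4).ge
    have h3 := (Finset.sum_eq_zero_iff_of_nonneg h2).1 h1 i0 (Finset.mem_univ _)
    have h4 : a i0 = 0 := by
      rcases mul_eq_zero.1 h3 with h5 | h5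
      · exact_mod_cast h5
      · exact absurd h5 hi0.ne'
    have hx : x ∈ D.semistable := by
      refine ⟨H3, m, a, hm, fun i hi => ?_, h⟩
      rcases ha i hi with h5 | h5
      · rw [h5] at hi
        exact absurd h4 hi
      · exact h5
    have h5 := D.not_dvd_of_free hD hx φ hφ 0 (fun i hi => by rw [H1 i hi])
    norm_num at h5
  -- the counting inequality
  have hcount : ∀ k : ℤ, 2 ≤ k →
      (univ.filter fun i => 0 < φ (D.w i) ∧ k ∣ φ (D.w i)).card ≤
        (univ.filter fun j => 0 < φ (D.μ j) ∧ k ∣ φ (D.μ j)).card := by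
    intro k hk
    by_contra hcon
    push Not at hcon
    let ι := {i : Fin r // 0 < φ (D.w i) ∧ k ∣ φ (D.w i)}
    let κ := {j : Fin s // 0 < φ (D.μ j) ∧ k ∣ φ (D.μ j)}
    have hcard : Fintype.card κ < Fintype.card ι := by
      rw [Fintype.card_subtype, Fintype.card_subtype]
      exact hcon
    let sub : Fin r → MvPolynomial ι ℂ := fun i =>
      if h : 0 < φ (D.w i) ∧ k ∣ φ (D.w i) then X ⟨i, h⟩ else C (x i)
    let pt : (ι → ℂ) → Fin r → ℂ := fun z i =>
      if h : 0 < φ (D.w i) ∧ k ∣ φ (D.w i) then z ⟨i, h⟩ else x i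
    have hsub : ∀ (z : ι → ℂ) (f : MvPolynomial (Fin r) ℂ),
        eval z (aeval sub f) = eval (pt z) f := by
      intro z f
      induction f using MvPolynomial.induction_on with
      | C c => simp
      | add p q hp hq => rw [map_add, map_add, hp, hq, map_add]
      | mul_X p i hp =>
        rw [map_mul, map_mul, hp, map_mul, aeval_X, eval_X]
        congr 1
        simp only [sub, pt]
        split_ifs <;> simp
    have hpt0 : pt 0 = x := by
      funext i
      simp only [pt]
      split_ifs with h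
      · by_contra hne
        have := H1 i (fun h' => hne (by simp [h']))
        omega
      · rfl
    obtain ⟨z, hz, hzero⟩ := Pool.Agent.H952R2.Sextic.exists_common_zero hcard
      (fun j : κ => aeval sub (D.g j.1)) (by
        intro j
        rw [hsub, hpt0]
        exact H3 _)
    set y := pt z with hy
    have hyι : ∀ i (h : 0 < φ (D.w i) ∧ k ∣ φ (D.w i)), y i = z ⟨i, h⟩ := by
      intro i h
      simp only [hy, pt, dif_pos h]
    have hyx : ∀ i, ¬ (0 < φ (D.w i) ∧ k ∣ φ (D.w i)) → y i = x i := by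
      intro i h
      simp only [hy, pt, dif_neg h]
    have hyne : ∀ i, y i ≠ 0 → 0 ≤ φ (D.w i) ∧ k ∣ φ (D.w i) := by
      intro i hi
      by_cases h : 0 < φ (D.w i) ∧ k ∣ φ (D.w i)
      · exact ⟨h.1.le, h.2⟩
      · rw [hyx i h] at hi
        rw [H1 i hi]
        exact ⟨le_rfl, dvd_zero _⟩
    have hxy : ∀ i, x i ≠ 0 → y i = x i := by
      intro i hi
      refine hyx i fun h => ?_
      have := H1 i hi
      omega
    have hyV : ∀ j, eval y (D.g j) = 0 := by
      intro j
      by_cases hj : 0 < φ (D.μ j) ∧ k ∣ φ (D.μ j)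
      · have := hzero ⟨j, hj⟩
        rw [hsub] at this
        exact this
      by_cases hj0 : φ (D.μ j) = 0
      · rw [← H3 j]
        refine eval_congr (hD.homog j) y x fun a ha => ?_
        by_cases hsupp : ∀ i, a i ≠ 0 → x i ≠ 0
        · refine Finset.prod_congr rfl fun i _ => ?_
          by_cases h0 : a i = 0
          · simp [h0]
          · rw [hxy i (hsupp i h0)]
        · push Not at hsupp
          obtain ⟨i1, hi1, hxi1⟩ := hsupp
          rw [Finset.prod_eq_zero (f := fun i => x i ^ a i) (Finset.mem_univ i1)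
            (by simp only [hxi1]; exact zero_pow hi1)]
          by_contra hne
          rw [← Ne, Finset.prod_ne_zero_iff] at hne
          have hyne' : ∀ i, a i ≠ 0 → y i ≠ 0 := by
            intro i hi h0
            apply hne i (Finset.mem_univ i)
            rw [h0, zero_pow hi]
          have h1 := congrArg φ ha
          rw [map_comb, hj0] at h1
          have h2 : ∀ i ∈ (univ : Finset (Fin r)), 0 ≤ (a i : ℤ) * φ (D.w i) := by
            intro i _
            by_cases h3 : a i = 0
            · simp [h3]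
            · exact mul_nonneg (Int.natCast_nonneg _) (hyne i (hyne' i h3)).1
          have h3 := (Finset.sum_eq_zero_iff_of_nonneg h2).1 h1 i1 (Finset.mem_univ _)
          rcases mul_eq_zero.1 h3 with h4 | h4
          · exact hi1 (by exact_mod_cast h4)
          · have h5 := hyne' i1 hi1
            rw [hyx i1 (fun h => by omega)] at h5
            exact h5 hxi1
      · by_contra hne
        obtain ⟨a, ha, hsupp⟩ := exists_monomial (hD.homog j) y hne
        have h1 := congrArg φ ha
        rw [map_comb] at h1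
        apply hj
        constructor
        · refine lt_of_le_of_ne ?_ (Ne.symm hj0)
          rw [← h1]
          refine Finset.sum_nonneg fun i _ => ?_
          by_cases h3 : a i = 0
          · simp [h3]
          · exact mul_nonneg (Int.natCast_nonneg _) (hyne i (hsupp i h3)).1
        · rw [← h1]
          refine Finset.dvd_sum fun i _ => ?_
          by_cases h3 : a i = 0
          · simp [h3]
          · exact Dvd.dvd.mul_left (hyne i (hsupp i h3)).2 _
    obtain ⟨i1, hi1⟩ : ∃ i1 : ι, z i1 ≠ 0 := by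
      by_contra h
      push Not at h
      exact hz (funext h)
    have hys : y ∈ D.semistable := by
      refine ⟨hyV, (H2 i1.1 i1.2.1).mono fun l hl => ?_⟩
      rcases hl with h | h
      · show y l ≠ 0
        rw [h, hyι _ i1.2]
        exact hi1
      · show y l ≠ 0
        rw [hxy l h]
        exact h
    have h5 := D.not_dvd_of_free hD hys φ hφ k (fun i hi => (hyne i hi).2)
    have := Int.le_of_dvd one_pos h5
    omega
  -- some weight is one
  have hone : ∃ i, φ (D.w i) = 1 := by
    by_contra hcon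
    push Not at hcon
    have key := sum_le_sum_of_count (univ.filter fun i => 0 < φ (D.w i))
      (fun i => (φ (D.w i)).toNat) (univ.filter fun j => 0 < φ (D.μ j))
      (fun j => (φ (D.μ j)).toNat) (by
        intro i hi
        have h1 := (Finset.mem_filter.1 hi).2
        have h2 := hcon i
        omega) (by
        intro j hj
        have h1 := (Finset.mem_filter.1 hj).2
        omega) (by
        intro k hk
        have h1 := hcount k (by exact_mod_cast hk)
        rw [Finset.filter_filter, Finset.filter_filter]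
        have e1 : (univ.filter fun i => 0 < φ (D.w i) ∧ k ∣ (φ (D.w i)).toNat) =
            univ.filter fun i => 0 < φ (D.w i) ∧ (k : ℤ) ∣ φ (D.w i) := by
          refine Finset.filter_congr fun i _ => and_congr_right fun h => ?_
          rw [← Int.natCast_dvd_natCast, Int.toNat_of_nonneg h.le]
        have e2 : (univ.filter fun i => 0 < φ (D.μ i) ∧ k ∣ (φ (D.μ i)).toNat) =
            univ.filter fun i => 0 < φ (D.μ i) ∧ (k : ℤ) ∣ φ (D.μ i) := by
          refine Finset.filter_congr fun i _ => and_congr_right fun h => ?_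
          rw [← Int.natCast_dvd_natCast, Int.toNat_of_nonneg h.le]
        rw [e1, e2]
        exact h1)
    have key' : ∑ i ∈ univ.filter (fun i => 0 < φ (D.w i)), φ (D.w i) ≤
        ∑ j ∈ univ.filter (fun j => 0 < φ (D.μ j)), φ (D.μ j) := by
      have e1 : ∑ i ∈ univ.filter (fun i => 0 < φ (D.w i)), φ (D.w i) =
          ((∑ i ∈ univ.filter (fun i => 0 < φ (D.w i)), (φ (D.w i)).toNat : ℕ) : ℤ) := by
        rw [Nat.cast_sum]
        refine Finset.sum_congr rfl fun i hi => ?_
        rw [Int.toNat_of_nonneg (Finset.mem_filter.1 hi).2.le]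
      have e2 : ∑ i ∈ univ.filter (fun i => 0 < φ (D.μ i)), φ (D.μ i) =
          ((∑ i ∈ univ.filter (fun i => 0 < φ (D.μ i)), (φ (D.μ i)).toNat : ℕ) : ℤ) := by
        rw [Nat.cast_sum]
        refine Finset.sum_congr rfl fun i hi => ?_
        rw [Int.toNat_of_nonneg (Finset.mem_filter.1 hi).2.le]
      rw [e1, e2]
      exact_mod_cast key
    have split : ∀ {n : ℕ} (f : Fin n → ℤ), ∑ i, f i = ∑ i ∈ univ.filter (fun i => 0 < f i), f i -
        ∑ i ∈ univ.filter (fun i => f i < 0), (-f i) := by
      intro n f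
      rw [Finset.sum_filter, Finset.sum_filter, ← Finset.sum_sub_distrib]
      refine Finset.sum_congr rfl fun i _ => ?_
      rcases lt_trichotomy (f i) 0 with h | h | h
      · rw [if_neg (by omega), if_pos h]; ring
      · rw [if_neg (by omega), if_neg (by omega), h]; ring
      · rw [if_pos h, if_neg (by omega)]; ring
    have hueq : φ D.u = ∑ i, φ (D.w i) - ∑ j, φ (D.μ j) := by
      rw [CoxData.u, map_sub, map_sum, map_sum]
    rw [split (fun i => φ (D.w i)), split (fun j => φ (D.μ j))] at hueq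
    linarith
  obtain ⟨i, hi⟩ := hone
  obtain ⟨m, a, h⟩ := D.good_monomial φ i hi hu {l | l = i ∨ x l ≠ 0}
    (fun l hl => hl.imp_right (H1 l)) (H2 i (by omega))
  exact ⟨i, m, a, h⟩

end CoxData

end Pool.Agent.Run7.H918
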