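import Pool.Agent.Helper774.KSing.Defs

/-!
Varieties given by homogeneous coordinates (Cox coordinates): complete intersections
`X = V(g)^ss / H` in a projective toric variety `Z = (ℂ^r)^ss / H`. Here `H = Hom(ℤ^ρ, ℂ^*)` is a torus
which acts on the coordinate `T_i` with weight `w_i ∈ ℤ^ρ`, and semistability is taken with respect
to the weight `u = ∑ w_i - ∑ deg g_j` of the anticanonical class (adjunction formula). The toric
variety `Z` may be singular, also non-`ℚ`-factorial, and of any Picard number.
-/

set_option autoImplicit false

noncomputable section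

namespace Pool.Agent.Run7.H918

open Pool.Agent.Helper774.KSing

/-- The vector `v` lies in the rational convex cone spanned by the weights `w i`, `i ∈ Q`: some
positive multiple of `v` is a sum of weights `w i`, `i ∈ Q`. -/
def InCone {ρ r : ℕ} (w : Fin r → Fin ρ → ℤ) (Q : Set (Fin r)) (v : Fin ρ → ℤ) : Prop :=
  ∃ (m : ℕ) (a : Fin r → ℕ), 1 ≤ m ∧ (∀ i, a i ≠ 0 → i ∈ Q) ∧ ∑ i, a i • w i = m • v

/-- Homogeneous coordinates `T_1, ..., T_r` with weights `w i ∈ ℤ^ρ` and `s` polynomials `g j` in them,
with weights `μ j`. -/
structure CoxData (ρ r s : ℕ) where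
  /-- the weights of the coordinates -/
  w : Fin r → Fin ρ → ℤ
  /-- the equations -/
  g : Fin s → MvPolynomial (Fin r) ℂ
  /-- the weights of the equations -/
  μ : Fin s → Fin ρ → ℤ

namespace CoxData

variable {ρ r s : ℕ} (D : CoxData ρ r s)

/-- The weight `u = ∑ w_i - ∑ μ_j` (the adjunction formula: the class of `-K_X`). -/
def u : Fin ρ → ℤ := ∑ i, D.w i - ∑ j, D.μ j

/-- The ideal generated by the equations. -/
def ideal : Ideal (MvPolynomial (Fin r) ℂ) := Ideal.span (Set.range D.g)

/-- The semistable points of `V(g)` for the weight `u`: the points `y` at which some monomial, whose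
weight is a positive multiple of `u`, does not vanish. -/
def semistable : Set (Fin r → ℂ) :=
  {y | (∀ j, MvPolynomial.eval y (D.g j) = 0) ∧ InCone D.w {i | y i ≠ 0} D.u}

/-- The geometric hypotheses on homogeneous coordinates: the equations are homogeneous; the only
invariant polynomials are the constants (so the toric variety `Z` is projective); the torus `H` acts
freely on the semistable locus of `V(g)`; this locus is smooth, by the Jacobian criterion; and no
coordinate vanishes identically on `V(g)` and every coordinate vanishes somewhere on the semistable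
locus (every toric prime divisor of `Z` meets `X` properly). -/
structure IsGood : Prop where
  homog : ∀ j, (D.g j).IsWeightedHomogeneous D.w (D.μ j)
  pointed : ∃ ψ : (Fin ρ → ℤ) →+ ℤ, ∀ i, 0 < ψ (D.w i)
  free : ∀ y ∈ D.semistable, AddSubgroup.closure {v | ∃ i, y i ≠ 0 ∧ v = D.w i} = ⊤
  smooth : ∀ y ∈ D.semistable, LinearIndependent ℂ
    (fun (j : Fin s) (i : Fin r) => MvPolynomial.eval y (MvPolynomial.pderiv i (D.g j)))
  coord : ∀ i, MvPolynomial.X i ∉ D.ideal ∧ ∃ y ∈ D.semistable, y i = 0

/-- The prime ideals `p` of `ℂ[T]` which are homogeneous, contain the equations and do not contain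
all monomials of weight a positive multiple of `u`: they correspond to the `H`-invariant irreducible
closed subsets of the semistable locus, that is, to the points of the scheme `V(g)^ss / H`. -/
def Relevant (p : Ideal (MvPolynomial (Fin r) ℂ)) : Prop :=
  p.IsPrime ∧ D.ideal ≤ p ∧
    (∀ f ∈ p, ∀ d, MvPolynomial.weightedHomogeneousComponent D.w d f ∈ p) ∧
    InCone D.w {i | MvPolynomial.X i ∉ p} D.u

/-- `X` is the quotient `V(g)^ss / H`, of dimension `r - ρ - s` (so it is a complete intersection).
Here `Ω` is the function field of the irreducible affine variety `V(g)`, with the coordinate functions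
`t i`; the function field of `X` is the field of homogeneous fractions of degree `0`; and the local
rings of the points of `X` are the rings of homogeneous fractions of degree `0` with denominators
outside `p`, for the relevant homogeneous prime ideals `p`. -/
structure Presentation (X : Variety) where
  /-- the function field of `V(g)` -/
  Ω : Type
  [fld : Field Ω]
  [alg : Algebra ℂ Ω]
  /-- the coordinate functions -/
  t : Fin r → Ω
  ker : RingHom.ker (MvPolynomial.aeval t : MvPolynomial (Fin r) ℂ →ₐ[ℂ] Ω) = D.ideal
  frac : ∀ z : Ω, ∃ f h : MvPolynomial (Fin r) ℂ, MvPolynomial.aeval t h ≠ 0 ∧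
    z * MvPolynomial.aeval t h = MvPolynomial.aeval t f
  /-- the embedding of the function field of `X` -/
  e : X.K →ₐ[ℂ] Ω
  range : ∀ z : Ω, z ∈ Set.range e ↔ ∃ (d : Fin ρ → ℤ) (f h : MvPolynomial (Fin r) ℂ),
    f.IsWeightedHomogeneous D.w d ∧ h.IsWeightedHomogeneous D.w d ∧ h ∉ D.ideal ∧
      z * MvPolynomial.aeval t h = MvPolynomial.aeval t f
  points : ∀ A : Set X.K, A ∈ X.points ↔ ∃ p, D.Relevant p ∧
    A = {z | ∃ (d : Fin ρ → ℤ) (f h : MvPolynomial (Fin r) ℂ),
      f.IsWeightedHomogeneous D.w d ∧ h.IsWeightedHomogeneous D.w d ∧ h ∉ p ∧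
        e z * MvPolynomial.aeval t h = MvPolynomial.aeval t f}
  dim : X.dim + ρ + s = r

attribute [instance] Presentation.fld Presentation.alg

/-- The weight `v` is an ample class on the toric variety `Z`: for every set `Q` of coordinates whose
cone contains `u`, the cone contains `n v - u` for some `n ≥ 1` (equivalently, `v` lies in the relative
interior of the chamber of `u`, which is the intersection of all these cones). -/
def Ample (v : Fin ρ → ℤ) : Prop :=
  ∀ Q : Set (Fin r), InCone D.w Q D.u → ∃ n : ℕ, 1 ≤ n ∧ InCone D.w Q (n • v - D.u)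

/-- `X` meets the exceptional locus of an extremal contraction of `Z`: there are a semistable point `x`
of `V(g)` and a primitive curve class `φ` (a surjection from the class group `ℤ^ρ` of `Z` to `ℤ`) such
that the coordinates of negative degree vanish at `x`, and such that the fibre of the contraction
through `x`, which consists of all points with arbitrary coordinates of positive degree, not
all zero, with the coordinates of `x` in degree zero and with coordinates `0` in negative degree,
consists of semistable points of `ℂ^r`. -/
def MeetsExceptionalLocus : Prop :=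
  ∃ x ∈ D.semistable, ∃ φ : (Fin ρ → ℤ) →+ ℤ, Function.Surjective φ ∧
    (∀ i, x i ≠ 0 → 0 ≤ φ (D.w i)) ∧
    ∀ i, 0 < φ (D.w i) → InCone D.w {l | l = i ∨ (x l ≠ 0 ∧ φ (D.w l) = 0)} D.u

end CoxData

end Pool.Agent.Run7.H918
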