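import Pool.Agent.Run7.h918.HF

/-!
Derivations of the function field of an affine variety, and selection of nonzero minors.
-/

set_option autoImplicit false

namespace Pool.Agent.Run7.H918

open Finset MvPolynomial

variable {r : ℕ} {Ω : Type} [Field Ω] [Algebra ℂ Ω]

/-- Derivations with prescribed values on the coordinate functions. -/
theorem exists_derivation (t : Fin r → Ω)
    (hfrac : ∀ z : Ω, ∃ f h : MvPolynomial (Fin r) ℂ, aeval t h ≠ 0 ∧ z * aeval t h = aeval t f)
    {s : ℕ} (g : Fin s → MvPolynomial (Fin r) ℂ)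
    (hker : ∀ f : MvPolynomial (Fin r) ℂ, aeval t f = 0 → f ∈ Ideal.span (Set.range g))
    (hg : ∀ j, aeval t (g j) = 0) (δ : Fin r → Ω)
    (hδ : ∀ j, ∑ i, aeval t (pderiv i (g j)) * δ i = 0) :
    ∃ D : Derivation ℂ Ω Ω, ∀ i, D (t i) = δ i := by
  classical
  let D0 : MvPolynomial (Fin r) ℂ → Ω := fun f => ∑ i, aeval t (pderiv i f) * δ i
  have hadd : ∀ f h, D0 (f + h) = D0 f + D0 h := by
    intro f h
    simp only [D0, map_add, add_mul, Finset.sum_add_distrib]
  have hsub : ∀ f h, D0 (f - h) = D0 f - D0 h := by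
    intro f h
    simp only [D0, map_sub, sub_mul, Finset.sum_sub_distrib]
  have hmul : ∀ f h, D0 (f * h) = aeval t f * D0 h + aeval t h * D0 f := by
    intro f h
    simp only [D0, Derivation.leibniz, smul_eq_mul, map_add, map_mul, add_mul,
      Finset.sum_add_distrib, Finset.mul_sum]
    congr 1 <;> exact Finset.sum_congr rfl fun i _ => by ring
  have hC : ∀ c, D0 (C c) = 0 := by
    intro c
    simp [D0]
  have hX : ∀ i, D0 (X i) = δ i := by
    intro i
    simp only [D0]
    rw [Finset.sum_eq_single i]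
    · simp
    · intro j _ hj
      rw [pderiv_X_of_ne hj.symm]
      simp
    · intro h
      exact absurd (Finset.mem_univ _) h
  have hzero : ∀ f, aeval t f = 0 → D0 f = 0 := by
    intro f hf
    have h1 := hker f hf
    clear hf
    induction h1 using Submodule.span_induction with
    | mem x hx =>
      obtain ⟨j, rfl⟩ := hx
      exact hδ j
    | zero => simp [D0]
    | add x y _ _ hx hy => rw [hadd, hx, hy, add_zero]
    | smul a x hx0 hx =>
      have h2 : aeval t x = 0 := by
        have h3 : Ideal.span (Set.range g) ≤ RingHom.ker (aeval t : MvPolynomial (Fin r) ℂ →ₐ[ℂ] Ω) := by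
          rw [Ideal.span_le]
          rintro _ ⟨j, rfl⟩
          exact hg j
        exact h3 hx0
      rw [smul_eq_mul, hmul, hx, h2, mul_zero, zero_mul, add_zero]
  choose nu de hde hnu using hfrac
  let DD : Ω → Ω := fun z => (D0 (nu z) - z * D0 (de z)) / aeval t (de z)
  have hDD : ∀ z f h, aeval t h ≠ 0 → z * aeval t h = aeval t f →
      DD z = (D0 f - z * D0 h) / aeval t h := by
    intro z f h hh hz
    simp only [DD]
    rw [div_eq_div_iff (hde z) hh]
    have h1 : D0 (f * de z - nu z * h) = 0 := by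
      apply hzero
      rw [map_sub, map_mul, map_mul, ← hz, ← hnu z]
      ring
    rw [hsub, hmul, hmul, ← hz, ← hnu z] at h1
    linear_combination -h1
  have hDadd : ∀ z z', DD (z + z') = DD z + DD z' := by
    intro z z'
    have h1 := hde z
    have h2 := hde z'
    rw [hDD (z + z') (nu z * de z' + nu z' * de z) (de z * de z')
      (by rw [map_mul]; exact mul_ne_zero h1 h2)
      (by rw [map_mul, map_add, map_mul, map_mul, ← hnu z, ← hnu z']; ring)]
    simp only [DD]
    rw [hadd, hmul, hmul, hmul, map_mul, ← hnu z, ← hnu z']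
    field_simp
    ring
  have hDmul : ∀ z z', DD (z * z') = z * DD z' + z' * DD z := by
    intro z z'
    have h1 := hde z
    have h2 := hde z'
    rw [hDD (z * z') (nu z * nu z') (de z * de z')
      (by rw [map_mul]; exact mul_ne_zero h1 h2)
      (by rw [map_mul, map_mul, ← hnu z, ← hnu z']; ring)]
    simp only [DD]
    rw [hmul, hmul, map_mul, ← hnu z, ← hnu z']
    field_simp
    ring
  have hDC : ∀ c : ℂ, DD (algebraMap ℂ Ω c) = 0 := by
    intro c
    rw [hDD (algebraMap ℂ Ω c) (C c) 1 (by simp) (by simp), hC]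
    have : D0 1 = 0 := by
      rw [← C_1, hC]
    rw [this]
    simp
  let L : Ω →ₗ[ℂ] Ω :=
    { toFun := DD
      map_add' := hDadd
      map_smul' := by
        intro c z
        rw [Algebra.smul_def, hDmul, hDC, mul_zero, add_zero, RingHom.id_apply, Algebra.smul_def] }
  refine ⟨Derivation.mk' L hDmul, fun i => ?_⟩
  show DD (t i) = δ i
  rw [hDD (t i) (X i) 1 (by simp) (by simp), hX]
  have : D0 1 = 0 := by
    rw [← C_1, hC]
  rw [this]
  simp

/-- a family of vectors which is killed by no nonzero functional contains a basis -/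
theorem exists_minor {F : Type*} [Field F] {n : ℕ} {ι : Type*} (v : ι → Fin n → F)
    (h : ∀ c : Fin n → F, (∀ i, ∑ k, c k * v i k = 0) → c = 0) :
    ∃ κ : Fin n → ι, (Matrix.of fun k l => v (κ k) l).det ≠ 0 := by
  classical
  have hspan : Submodule.span F (Set.range v) = ⊤ := by
    by_contra hne
    obtain ⟨f, hf0, hf⟩ := Submodule.exists_le_ker_of_lt_top _ (lt_top_iff_ne_top.2 hne)
    apply hf0
    have h1 : (fun k => f (Pi.single k 1)) = 0 := by
      apply h
      intro i
      have h2 : v i ∈ LinearMap.ker f := hf (Submodule.subset_span ⟨i, rfl⟩)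
      rw [LinearMap.mem_ker] at h2
      have h3 : v i = ∑ k, v i k • Pi.single k (1 : F) := by
        ext j
        simp only [Finset.sum_apply, Pi.smul_apply, Pi.single_apply, smul_eq_mul, mul_ite, mul_one,
          mul_zero, Finset.sum_ite_eq, Finset.mem_univ, if_true]
      rw [h3, map_sum] at h2
      rw [← h2]
      refine Finset.sum_congr rfl fun k _ => ?_
      rw [map_smul, smul_eq_mul, mul_comm]
    refine LinearMap.pi_ext' fun k => ?_
    refine LinearMap.ext_ring ?_
    simp only [LinearMap.coe_comp, Function.comp_apply, LinearMap.single_apply,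
      LinearMap.zero_apply]
    exact congrFun h1 k
  have hfin : Module.finrank F (Submodule.span F (Set.range v)) = n := by
    rw [hspan, finrank_top]
    simp
  have hex := Submodule.exists_fun_fin_finrank_span_eq F (Set.range v)
  rw [hfin] at hex
  obtain ⟨f, hf, -, hli⟩ := hex
  choose κ hκ using hf
  refine ⟨κ, ?_⟩
  have h1 : (Matrix.of fun k l => v (κ k) l) = Matrix.of fun k l => f k l := by
    ext k l
    simp only [Matrix.of_apply, hκ]
  rw [h1]
  have h2 : IsUnit (Matrix.of fun k l => f k l) := by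
    rw [← Matrix.linearIndependent_rows_iff_isUnit]
    exact hli
  rw [Matrix.isUnit_iff_isUnit_det] at h2
  exact h2.ne_zero

/-- extend an injection of indices to a bijection -/
theorem exists_sigma {q : Type} [Fintype q] {s : ℕ} (κ : Fin s → Fin r)
    (hκ : Function.Injective κ) (hcard : Fintype.card q + s = r) :
    ∃ σ : q ⊕ Fin s ≃ Fin r, ∀ j, σ (Sum.inr j) = κ j := by
  classical
  have h1 : Fintype.card ((Set.range κ)ᶜ : Set (Fin r)) = Fintype.card q := by
    rw [Fintype.card_compl_set, Set.card_range_of_injective hκ, Fintype.card_fin, Fintype.card_fin]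
    omega
  let e1 : q ≃ ((Set.range κ)ᶜ : Set (Fin r)) := (Fintype.equivOfCardEq h1).symm
  let e2 : Fin s ≃ Set.range κ := Equiv.ofInjective κ hκ
  refine ⟨((Equiv.sumComm _ _).trans (Equiv.sumCongr e2 e1)).trans (Equiv.Set.sumCompl (Set.range κ)),
    fun j => ?_⟩
  simp [e2]

/-- the derivations dual to a part of the coordinates -/
theorem exists_E (t : Fin r → Ω)
    (hfrac : ∀ z : Ω, ∃ f h : MvPolynomial (Fin r) ℂ, aeval t h ≠ 0 ∧ z * aeval t h = aeval t f)
    {s : ℕ} (g : Fin s → MvPolynomial (Fin r) ℂ)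
    (hker : ∀ f : MvPolynomial (Fin r) ℂ, aeval t f = 0 → f ∈ Ideal.span (Set.range g))
    (hg : ∀ j, aeval t (g j) = 0) {q : Type} [Fintype q] [DecidableEq q]
    (σ : q ⊕ Fin s ≃ Fin r)
    (hM : (Matrix.of fun j j' => aeval t (pderiv (σ (Sum.inr j')) (g j)) :
      Matrix (Fin s) (Fin s) Ω).det ≠ 0) :
    ∃ E : q → Derivation ℂ Ω Ω, ∀ l l', E l (t (σ (Sum.inl l'))) = if l = l' then 1 else 0 := by
  classical
  have key : ∀ l : q, ∃ D : Derivation ℂ Ω Ω, ∀ l', D (t (σ (Sum.inl l'))) = if l = l' then 1 else 0 := by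
    intro l
    set M : Matrix (Fin s) (Fin s) Ω := Matrix.of fun j j' => aeval t (pderiv (σ (Sum.inr j')) (g j))
      with hMdef
    let a : Fin s → Ω := fun j => aeval t (pderiv (σ (Sum.inl l)) (g j))
    let x : Fin s → Ω := -(M⁻¹.mulVec a)
    have hx : M.mulVec x = -a := by
      simp only [x, Matrix.mulVec_neg, Matrix.mulVec_mulVec]
      rw [Matrix.mul_nonsing_inv _ (isUnit_iff_ne_zero.2 hM), Matrix.one_mulVec]
    let δ' : q ⊕ Fin s → Ω := Sum.elim (fun l' => if l = l' then 1 else 0) x
    obtain ⟨D, hD⟩ := exists_derivation t hfrac g hker hg (fun i => δ' (σ.symm i)) (by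
      intro j
      rw [← Equiv.sum_comp σ, Fintype.sum_sum_type]
      simp only [Equiv.symm_apply_apply, δ', Sum.elim_inl, Sum.elim_inr, mul_ite, mul_one, mul_zero,
        Finset.sum_ite_eq, Finset.mem_univ, if_true]
      have h1 := congrFun hx j
      simp only [Matrix.mulVec, dotProduct, hMdef, Matrix.of_apply, Pi.neg_apply, a] at h1
      rw [h1]
      ring)
    refine ⟨D, fun l' => ?_⟩
    rw [hD]
    simp only [Equiv.symm_apply_apply, δ', Sum.elim_inl]
  choose E hE using key
  exact ⟨E, hE⟩

end Pool.Agent.Run7.H918
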