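import Mathlib

/-!
Homogeneous fractions with denominators outside a prime ideal, their partial derivatives, and
determinants of derivatives.
-/

set_option autoImplicit false

namespace Pool.Agent.Run7.H918

open Finset MvPolynomial

variable {ρ r : ℕ} {Ω : Type} [Field Ω] [Algebra ℂ Ω]

/-- homogeneous fractions of degree `d` with denominator outside `p` -/
def HF (w : Fin r → Fin ρ → ℤ) (t : Fin r → Ω) (p : Ideal (MvPolynomial (Fin r) ℂ))
    (d : Fin ρ → ℤ) (z : Ω) : Prop :=
  ∃ (b : Fin ρ → ℤ) (f h : MvPolynomial (Fin r) ℂ), f.IsWeightedHomogeneous w (b + d) ∧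
    h.IsWeightedHomogeneous w b ∧ h ∉ p ∧ z * aeval t h = aeval t f

section

variable {w : Fin r → Fin ρ → ℤ} {t : Fin r → Ω} {p : Ideal (MvPolynomial (Fin r) ℂ)}

theorem aeval_ne (hker : ∀ f : MvPolynomial (Fin r) ℂ, aeval t f = 0 → f ∈ p)
    {h : MvPolynomial (Fin r) ℂ} (hh : h ∉ p) : aeval t h ≠ 0 := fun h0 => hh (hker h h0)

theorem HF.mul (hp : p.IsPrime) {d d' : Fin ρ → ℤ} {z z' : Ω} (hz : HF w t p d z)
    (hz' : HF w t p d' z') : HF w t p (d + d') (z * z') := by
  obtain ⟨b, f, h, h1, h2, h3, h4⟩ := hz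
  obtain ⟨b', f', h', h1', h2', h3', h4'⟩ := hz'
  refine ⟨b + b', f * f', h * h', ?_, h2.mul h2', fun hm => ?_, ?_⟩
  · have := h1.mul h1'
    rwa [show b + d + (b' + d') = b + b' + (d + d') by abel] at this
  · exact (hp.mem_or_mem hm).elim h3 h3'
  · rw [map_mul, map_mul, ← h4, ← h4']
    ring

theorem HF.add (hp : p.IsPrime) {d : Fin ρ → ℤ} {z z' : Ω} (hz : HF w t p d z)
    (hz' : HF w t p d z') : HF w t p d (z + z') := by
  obtain ⟨b, f, h, h1, h2, h3, h4⟩ := hz
  obtain ⟨b', f', h', h1', h2', h3', h4'⟩ := hz'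
  refine ⟨b + b', f * h' + f' * h, h * h', ?_, h2.mul h2', fun hm => ?_, ?_⟩
  · have e1 := h1.mul h2'
    have e2 := h1'.mul h2
    rw [show b + d + b' = b + b' + d by abel] at e1
    rw [show b' + d + b = b + b' + d by abel] at e2
    exact e1.add e2
  · exact (hp.mem_or_mem hm).elim h3 h3'
  · rw [map_mul, map_add, map_mul, map_mul, ← h4, ← h4']
    ring

theorem HF.zero (hp : p.IsPrime) (d : Fin ρ → ℤ) : HF w t p d 0 :=
  ⟨0, 0, 1, isWeightedHomogeneous_zero _ _ _, isWeightedHomogeneous_one _ _,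
    fun h => hp.ne_top ((Ideal.eq_top_iff_one _).2 h), by simp⟩

theorem HF.of_poly (hp : p.IsPrime) {d : Fin ρ → ℤ} {f : MvPolynomial (Fin r) ℂ}
    (hf : f.IsWeightedHomogeneous w d) : HF w t p d (aeval t f) :=
  ⟨0, f, 1, by rwa [zero_add], isWeightedHomogeneous_one _ _,
    fun h => hp.ne_top ((Ideal.eq_top_iff_one _).2 h), by simp⟩

theorem HF.one (hp : p.IsPrime) : HF w t p 0 (1 : Ω) := by
  have := HF.of_poly (t := t) hp (isWeightedHomogeneous_one ℂ w)
  simpa using this

theorem HF.const (hp : p.IsPrime) (c : ℂ) : HF w t p 0 (algebraMap ℂ Ω c) := by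
  have := HF.of_poly (t := t) hp (isWeightedHomogeneous_C w c)
  simpa using this

theorem HF.neg (hp : p.IsPrime) {d : Fin ρ → ℤ} {z : Ω} (hz : HF w t p d z) :
    HF w t p d (-z) := by
  have := (HF.const (w := w) (t := t) hp (-1)).mul hp hz
  rw [zero_add] at this
  simpa using this

theorem HF.sub (hp : p.IsPrime) {d : Fin ρ → ℤ} {z z' : Ω} (hz : HF w t p d z)
    (hz' : HF w t p d z') : HF w t p d (z - z') := by
  rw [sub_eq_add_neg]
  exact hz.add hp (hz'.neg hp)

theorem HF.sum (hp : p.IsPrime) {ι : Type*} (s : Finset ι) {d : Fin ρ → ℤ} {z : ι → Ω}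
    (hz : ∀ i ∈ s, HF w t p d (z i)) : HF w t p d (∑ i ∈ s, z i) := by
  classical
  induction s using Finset.induction_on with
  | empty => rw [Finset.sum_empty]; exact HF.zero hp d
  | insert a s ha ih =>
    rw [Finset.sum_insert ha]
    exact (hz a (Finset.mem_insert_self _ _)).add hp
      (ih fun i hi => hz i (Finset.mem_insert_of_mem hi))

theorem HF.prod (hp : p.IsPrime) {ι : Type*} (s : Finset ι) {d : ι → Fin ρ → ℤ} {z : ι → Ω}
    (hz : ∀ i ∈ s, HF w t p (d i) (z i)) : HF w t p (∑ i ∈ s, d i) (∏ i ∈ s, z i) := by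
  classical
  induction s using Finset.induction_on with
  | empty => rw [Finset.prod_empty, Finset.sum_empty]; exact HF.one hp
  | insert a s ha ih =>
    rw [Finset.prod_insert ha, Finset.sum_insert ha]
    exact (hz a (Finset.mem_insert_self _ _)).mul hp
      (ih fun i hi => hz i (Finset.mem_insert_of_mem hi))

theorem HF.pow (hp : p.IsPrime) {d : Fin ρ → ℤ} {z : Ω} (hz : HF w t p d z) (n : ℕ) :
    HF w t p (n • d) (z ^ n) := by
  have := HF.prod hp (Finset.range n) (d := fun _ => d) (z := fun _ => z) (fun _ _ => hz)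
  simpa using this

/-- the inverse of a fraction whose numerator is outside `p` -/
theorem HF.inv (hker : ∀ f : MvPolynomial (Fin r) ℂ, aeval t f = 0 → f ∈ p)
    {b d : Fin ρ → ℤ} {z : Ω} {f h : MvPolynomial (Fin r) ℂ}
    (hf : f.IsWeightedHomogeneous w (b + d)) (hh : h.IsWeightedHomogeneous w b) (hfp : f ∉ p)
    (hz : z * aeval t h = aeval t f) : HF w t p (-d) z⁻¹ := by
  refine ⟨b + d, h, f, by rwa [add_neg_cancel_right], hf, hfp, ?_⟩
  have h1 : z ≠ 0 := by
    rintro rfl
    rw [zero_mul] at hz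
    exact aeval_ne hker hfp hz.symm
  rw [← hz, ← mul_assoc, inv_mul_cancel₀ h1, one_mul]

theorem HF.mono {q : Ideal (MvPolynomial (Fin r) ℂ)} (hpq : q ≤ p) {d : Fin ρ → ℤ} {z : Ω}
    (hz : HF w t p d z) : HF w t q d z := by
  obtain ⟨b, f, h, h1, h2, h3, h4⟩ := hz
  exact ⟨b, f, h, h1, h2, fun hm => h3 (hpq hm), h4⟩

/-- the inverse, for the kernel: every nonzero homogeneous fraction is invertible -/
theorem HF.inv_ker (hker : ∀ f : MvPolynomial (Fin r) ℂ, aeval t f = 0 ↔ f ∈ p)
    {d : Fin ρ → ℤ} {z : Ω} (hz : HF w t p d z) (h0 : z ≠ 0) : HF w t p (-d) z⁻¹ := by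
  obtain ⟨b, f, h, h1, h2, h3, h4⟩ := hz
  refine HF.inv (fun f hf => (hker f).1 hf) h1 h2 (fun hf => ?_) h4
  rw [← hker, ← h4] at hf
  exact (mul_ne_zero h0 (aeval_ne (fun f hf => (hker f).1 hf) h3)) hf

theorem HF.det (hp : p.IsPrime) {n : Type*} [Fintype n] [DecidableEq n] (M : Matrix n n Ω)
    (a c : n → Fin ρ → ℤ) (h : ∀ i j, HF w t p (a i - c j) (M i j)) :
    HF w t p (∑ i, a i - ∑ j, c j) M.det := by
  rw [Matrix.det_apply]
  refine HF.sum hp _ fun σ _ => ?_
  have h1 : HF w t p (∑ i, (a (σ i) - c i)) (∏ i, M (σ i) i) :=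
    HF.prod hp _ fun i _ => h _ _
  have h2 : ∑ i, (a (σ i) - c i) = ∑ i, a i - ∑ j, c j := by
    rw [Finset.sum_sub_distrib, Equiv.sum_comp σ a]
  rw [h2] at h1
  rcases Int.units_eq_one_or (Equiv.Perm.sign σ) with h3 | h3
  · rw [h3, one_smul]
    exact h1
  · rw [h3]
    simp only [Units.neg_smul, one_smul]
    exact h1.neg hp

/-- the chain rule for a derivation of the function field -/
theorem derivation_aeval (E : Derivation ℂ Ω Ω) (f : MvPolynomial (Fin r) ℂ) :
    E (aeval t f) = ∑ i, aeval t (pderiv i f) * E (t i) := by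
  classical
  induction f using MvPolynomial.induction_on with
  | C c => simp
  | add p q hp hq => simp only [map_add, hp, hq, add_mul, Finset.sum_add_distrib]
  | mul_X f i hf =>
    rw [map_mul, Derivation.leibniz, hf, aeval_X]
    simp only [smul_eq_mul, Derivation.leibniz, map_add, map_mul, aeval_X, add_mul,
      Finset.sum_add_distrib]
    congr 1
    · rw [Finset.sum_eq_single i]
      · simp
      · intro j _ hj
        rw [pderiv_X_of_ne hj.symm]
        simp
      · intro h
        exact absurd (Finset.mem_univ _) h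
    · rw [Finset.mul_sum]
      refine Finset.sum_congr rfl fun j _ => ?_
      ring

/-- the partial derivatives of a homogeneous fraction -/
theorem HF.partials (hp : p.IsPrime) (hker : ∀ f : MvPolynomial (Fin r) ℂ, aeval t f = 0 → f ∈ p)
    {d : Fin ρ → ℤ} {z : Ω} (hz : HF w t p d z) :
    ∃ δ : Fin r → Ω, (∀ i, HF w t p (d - w i) (δ i)) ∧
      ∀ E : Derivation ℂ Ω Ω, E z = ∑ i, δ i * E (t i) := by
  obtain ⟨b, f, h, h1, h2, h3, h4⟩ := hz
  have hne : aeval t h ≠ 0 := aeval_ne hker h3
  have hinv : HF w t p (-b) (aeval t h)⁻¹ := by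
    refine HF.inv (b := 0) (d := b) hker (by rwa [zero_add]) (isWeightedHomogeneous_one ℂ w) h3 ?_
    simp
  have hz : HF w t p d z := ⟨b, f, h, h1, h2, h3, h4⟩
  refine ⟨fun i => (aeval t (pderiv i f) - z * aeval t (pderiv i h)) * (aeval t h)⁻¹,
    fun i => ?_, fun E => ?_⟩
  · have e1 : HF w t p (b + d - w i) (aeval t (pderiv i f)) :=
      HF.of_poly hp (h1.pderiv (sub_add_cancel _ _))
    have e2 : HF w t p (b - w i) (aeval t (pderiv i h)) :=
      HF.of_poly hp (h2.pderiv (sub_add_cancel _ _))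
    have e3 := hz.mul hp e2
    rw [show d + (b - w i) = b + d - w i by abel] at e3
    have e4 := (e1.sub hp e3).mul hp hinv
    rwa [show b + d - w i + -b = d - w i by abel] at e4
  · have e1 := congrArg E h4
    rw [Derivation.leibniz, derivation_aeval, derivation_aeval] at e1
    simp only [smul_eq_mul] at e1
    have e2 : E z * aeval t h = ∑ i, (aeval t (pderiv i f) - z * aeval t (pderiv i h)) * E (t i) := by
      simp only [sub_mul, Finset.sum_sub_distrib]
      rw [← e1]
      have e3 : ∑ i, z * aeval t (pderiv i h) * E (t i) =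
          z * ∑ i, aeval t (pderiv i h) * E (t i) := by
        rw [Finset.mul_sum]
        exact Finset.sum_congr rfl fun i _ => mul_assoc _ _ _
      rw [e3]
      ring
    have e4 : E z = (∑ i, (aeval t (pderiv i f) - z * aeval t (pderiv i h)) * E (t i)) *
        (aeval t h)⁻¹ := by
      rw [← e2, mul_assoc, mul_inv_cancel₀ hne, mul_one]
    rw [e4, Finset.sum_mul]
    exact Finset.sum_congr rfl fun i _ => by ring

/-- The determinant of the derivatives of homogeneous fractions, times the minor of the Jacobian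
matrix of the equations, is a homogeneous fraction. -/
theorem HF.det_derivatives (hp : p.IsPrime)
    (hker : ∀ f : MvPolynomial (Fin r) ℂ, aeval t f = 0 → f ∈ p) {q : Type} [Fintype q]
    [DecidableEq q] {s : ℕ} (σ : q ⊕ Fin s ≃ Fin r) (g : Fin s → MvPolynomial (Fin r) ℂ) (μ : Fin s → Fin ρ → ℤ)
    (hg : ∀ j, (g j).IsWeightedHomogeneous w (μ j)) (hg0 : ∀ j, aeval t (g j) = 0)
    (E : q → Derivation ℂ Ω Ω)
    (hE : ∀ l l', E l (t (σ (Sum.inl l'))) = if l = l' then 1 else 0)
    (z : q → Ω) (d : q → Fin ρ → ℤ) (hz : ∀ k, HF w t p (d k) (z k)) :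
    HF w t p (∑ k, d k + ∑ j, μ j - ∑ i, w i)
      ((Matrix.of fun k l => E l (z k)).det *
        (Matrix.of fun j j' => aeval t (pderiv (σ (Sum.inr j')) (g j))).det) := by
  classical
  choose δ hδ1 hδ2 using fun k => (hz k).partials hp hker
  let P : Matrix (q ⊕ Fin s) (q ⊕ Fin s) Ω := Matrix.of fun a c =>
    Sum.elim (fun k => δ k (σ c)) (fun j => aeval t (pderiv (σ c) (g j))) a
  let Q : Matrix (q ⊕ Fin s) (q ⊕ Fin s) Ω :=
    Matrix.fromBlocks 1 0 (Matrix.of fun j l => E l (t (σ (Sum.inr j)))) 1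
  have hQ1 : ∀ c l, Q c (Sum.inl l) = E l (t (σ c)) := by
    rintro (c | c) l
    · simp only [Q, Matrix.fromBlocks_apply₁₁, Matrix.one_apply, hE]
      simp only [eq_comm]
    · simp only [Q, Matrix.fromBlocks_apply₂₁, Matrix.of_apply]
  have hPQ : P * Q = Matrix.fromBlocks (Matrix.of fun k l => E l (z k))
      (Matrix.of fun k j => δ k (σ (Sum.inr j))) 0
      (Matrix.of fun j j' => aeval t (pderiv (σ (Sum.inr j')) (g j))) := by
    ext a c
    rw [Matrix.mul_apply]
    rcases c with l | j'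
    · simp only [hQ1]
      rcases a with k | j
      · simp only [P, Matrix.of_apply, Sum.elim_inl, Matrix.fromBlocks_apply₁₁]
        rw [hδ2 k (E l)]
        exact Equiv.sum_comp σ (fun i => δ k i * E l (t i))
      · simp only [P, Matrix.of_apply, Sum.elim_inr, Matrix.fromBlocks_apply₂₁, Matrix.zero_apply]
        rw [Equiv.sum_comp σ (fun i => aeval t (pderiv i (g j)) * E l (t i)), ← derivation_aeval,
          hg0 j, map_zero]
    · rw [Fintype.sum_sum_type]
      simp only [Q, Matrix.fromBlocks_apply₁₂, Matrix.zero_apply, mul_zero, Finset.sum_const_zero,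
        zero_add, Matrix.fromBlocks_apply₂₂, Matrix.one_apply, mul_ite, mul_one,
        Finset.sum_ite_eq', Finset.mem_univ, if_true]
      rcases a with k | j
      · simp only [P, Matrix.of_apply, Sum.elim_inl]
        rfl
      · simp only [P, Matrix.of_apply, Sum.elim_inr]
        rfl
  have hdet : P.det = (Matrix.of fun k l => E l (z k)).det *
      (Matrix.of fun j j' => aeval t (pderiv (σ (Sum.inr j')) (g j))).det := by
    have h1 := congrArg Matrix.det hPQ
    rw [Matrix.det_mul, Matrix.det_fromBlocks_zero₂₁] at h1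
    have h2 : Q.det = 1 := by
      rw [Matrix.det_fromBlocks_zero₁₂, Matrix.det_one, Matrix.det_one, one_mul]
    rw [h2, mul_one] at h1
    exact h1
  rw [← hdet]
  have h3 := HF.det (w := w) (t := t) hp P (Sum.elim d μ) (fun c => w (σ c)) (by
    rintro (k | j) c
    · simp only [P, Matrix.of_apply, Sum.elim_inl]
      exact hδ1 k _
    · simp only [P, Matrix.of_apply, Sum.elim_inr]
      exact HF.of_poly hp ((hg j).pderiv (sub_add_cancel _ _)))
  rw [Fintype.sum_sum_type, Equiv.sum_comp σ w] at h3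
  exact h3

end

end Pool.Agent.Run7.H918
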