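import Pool.Agent.Run7.h918.VWall1

/-!
Existence of a wall of the chamber of `x` in a given direction, for a family of cones that is closed
under taking faces.
-/

set_option autoImplicit false

namespace Pool.Agent.Run7.H918

open Finset

variable {ρ r : ℕ}

/-- generic perturbation that keeps track of both signs -/
theorem exists_generic_point' (x θ : Fin ρ → ℚ) {J : Type*} [Finite J]
    (f : J → ((Fin ρ → ℚ) →ₗ[ℚ] ℚ)) (hf : ∀ j, f j θ ≠ 0) :
    ∃ ε : ℚ, 0 < ε ∧ ∀ j, f j (x + ε • θ) ≠ 0 ∧ (f j x < 0 → f j (x + ε • θ) < 0) ∧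
      (0 < f j x → 0 < f j (x + ε • θ)) := by
  obtain ⟨ε, hε, h⟩ := exists_generic_point x θ (J := J ⊕ J) (Sum.elim f (fun j => - f j)) (by
    rintro (j | j)
    · exact hf j
    · simp only [Sum.elim_inr, LinearMap.neg_apply, neg_ne_zero]
      exact hf j)
  refine ⟨ε, hε, fun j => ⟨(h (Sum.inl j)).1, (h (Sum.inl j)).2, fun h1 => ?_⟩⟩
  have h2 := (h (Sum.inr j)).2
  simp only [Sum.elim_inr, LinearMap.neg_apply, neg_lt_zero] at h2
  exact h2 h1

/-- a generic point near `x` in the cone of `Q0`, for the direction `v` -/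
theorem exists_gen (z : Fin r → Fin ρ → ℚ) (Q0 : Set (Fin r))
    (hQ0 : Submodule.span ℚ (z '' Q0) = ⊤) (x : Fin ρ → ℚ) (hx : Cn z Q0 x) (v : Fin ρ → ℚ) :
    ∃ p, Gen z p v ∧ Cn z Q0 p ∧
      (∀ β c, IsDual z β c → ∀ k, (0 < c k p → 0 ≤ c k x) ∧ (c k p < 0 → c k x ≤ 0)) ∧
      (∀ β c, IsDual z β c → ∀ k l, 0 < c k v * c l p - c l v * c k p →
        0 ≤ c k v * c l x - c l v * c k x) := by
  classical
  let co : (Fin ρ → Fin r) → Fin ρ → ((Fin ρ → ℚ) →ₗ[ℚ] ℚ) := fun β =>
    if h : ∃ c, IsDual z β c then h.choose else 0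
  have hco : ∀ β c, IsDual z β c → co β = c := by
    intro β c h
    have h1 : ∃ c, IsDual z β c := ⟨c, h⟩
    simp only [co, dif_pos h1]
    exact h1.choose_spec.unique h
  let Y := (Fin ρ → Fin r) × Fin ρ
  let F : Y → ((Fin ρ → ℚ) →ₗ[ℚ] ℚ) := fun y => co y.1 y.2
  let F2 : Y × Y → ((Fin ρ → ℚ) →ₗ[ℚ] ℚ) := fun y => (F y.1 v) • F y.2 - (F y.2 v) • F y.1
  let G : Y ⊕ (Y × Y) → ((Fin ρ → ℚ) →ₗ[ℚ] ℚ) := Sum.elim F F2
  let J := {a : Y ⊕ (Y × Y) // G a ≠ 0}
  let z' : Fin r → Fin ρ → ℚ := fun i => if i ∈ Q0 then z i else 0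
  have hspan : Submodule.span ℚ (Set.range z') = ⊤ := by
    rw [eq_top_iff, ← hQ0, Submodule.span_le]
    rintro _ ⟨i, hi, rfl⟩
    exact Submodule.subset_span ⟨i, by simp only [z', if_pos hi]⟩
  obtain ⟨q, hq, hθ⟩ := exists_generic_direction z' hspan (J := J) (fun a => G a.1) (fun a => a.2)
  obtain ⟨ε, hε, hgen⟩ := exists_generic_point' x (∑ i, q i • z' i) (J := J) (fun a => G a.1) hθ
  have hθC : Cn z Q0 (∑ i, q i • z' i) := by
    refine ⟨fun i => if i ∈ Q0 then q i else 0, fun i => ?_, fun i hi => ?_, ?_⟩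
    · show 0 ≤ if i ∈ Q0 then q i else 0
      split_ifs
      · exact hq i
      · exact le_rfl
    · by_contra h
      exact hi (if_neg h)
    · refine Finset.sum_congr rfl fun i _ => ?_
      show (if i ∈ Q0 then q i else 0) • z i = q i • (if i ∈ Q0 then z i else 0)
      split_ifs
      · rfl
      · rw [zero_smul, smul_zero]
  set p := x + ε • ∑ i, q i • z' i with hp
  have hF0 : ∀ β c, IsDual z β c → ∀ k, F (β, k) ≠ 0 := by
    intro β c hc k h
    have h1 := congrArg (fun g => g (z (β k))) h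
    simp only [F, LinearMap.zero_apply] at h1
    rw [hco _ _ hc, hc k k, if_pos rfl] at h1
    exact one_ne_zero h1
  refine ⟨p, ⟨?_, ?_⟩, ?_, ?_, ?_⟩
  · intro β c hc k
    have h1 := (hgen ⟨Sum.inl (β, k), hF0 β c hc k⟩).1
    simp only [G, Sum.elim_inl, F] at h1
    rw [hco _ _ hc] at h1
    exact h1
  · intro β c β' c' hc hc' k k' h1
    by_contra hne
    have hG : G (Sum.inr ((β', k'), (β, k))) ≠ 0 := by
      simp only [G, Sum.elim_inr, F2, F]
      rw [hco _ _ hc, hco _ _ hc']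
      exact sub_ne_zero.2 hne
    have h2 := (hgen ⟨_, hG⟩).1
    simp only [G, Sum.elim_inr, F2, F] at h2
    rw [hco _ _ hc, hco _ _ hc', LinearMap.sub_apply, LinearMap.smul_apply, LinearMap.smul_apply,
      smul_eq_mul, smul_eq_mul] at h2
    exact h2 (by linarith)
  · have h1 := hx.convex hθC zero_le_one hε.le
    rw [one_smul] at h1
    exact h1
  · intro β c hc k
    have h1 := (hgen ⟨Sum.inl (β, k), hF0 β c hc k⟩).2
    simp only [G, Sum.elim_inl, F] at h1
    rw [hco _ _ hc] at h1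
    constructor
    · intro h2
      by_contra h3
      push Not at h3
      exact absurd (h1.1 h3) (not_lt.2 h2.le)
    · intro h2
      by_contra h3
      push Not at h3
      exact absurd (h1.2 h3) (not_lt.2 h2.le)
  · intro β c hc k l h1
    have hG : G (Sum.inr ((β, k), (β, l))) ≠ 0 := by
      intro h0
      have h2 := congrArg (fun g => g p) h0
      simp only [G, Sum.elim_inr, F2, F, LinearMap.zero_apply] at h2
      rw [hco _ _ hc, LinearMap.sub_apply, LinearMap.smul_apply, LinearMap.smul_apply,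
        smul_eq_mul, smul_eq_mul] at h2
      linarith
    have h2 := (hgen ⟨_, hG⟩).2.1
    simp only [G, Sum.elim_inr, F2, F] at h2
    rw [hco _ _ hc, LinearMap.sub_apply, LinearMap.smul_apply, LinearMap.smul_apply,
      smul_eq_mul, smul_eq_mul, LinearMap.sub_apply, LinearMap.smul_apply, LinearMap.smul_apply,
      smul_eq_mul, smul_eq_mul] at h2
    by_contra h3
    push Not at h3
    have := h2 h3
    linarith

/-- if the cone of a non spanning family contains a generic point of the line, this is an event -/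
theorem nonspan_event {z : Fin r → Fin ρ → ℚ} (hz : Submodule.span ℚ (Set.range z) = ⊤)
    {p v : Fin ρ → ℚ} (hG : Gen z p v) (Q : Set (Fin r)) (hQ : Submodule.span ℚ (z '' Q) ≠ ⊤) {t : ℚ}
    (ht : Cn z Q (p - t • v)) :
    ∃ (β : Fin ρ → Fin r) (c : Fin ρ → ((Fin ρ → ℚ) →ₗ[ℚ] ℚ)) (k : Fin ρ), IsDual z β c ∧
      (∀ l, l ≠ k → β l ∈ Q) ∧ c k (p - t • v) = 0 ∧ (∀ l, 0 ≤ c l (p - t • v)) ∧
      ∀ i ∈ Q, c k (z i) = 0 := by
  classical
  obtain ⟨q, hq, hqQ, hqx⟩ := ht
  obtain ⟨q', h1, h2, h3⟩ := exists_min_support (fun i => if i ∈ Q then z i else 0) q hq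
  have hq' : ∀ i, q' i ≠ 0 → i ∈ Q := by
    intro i hi
    by_contra h
    exact (h3.ne_zero (i := i) hi) (if_neg h)
  have h3' : LinearIndepOn ℚ z {i | q' i ≠ 0} := by
    refine (linearIndepOn_congr fun i hi => ?_).1 h3
    exact if_pos (hq' i hi)
  have hx' : ∑ i, q' i • z i = p - t • v := by
    rw [← hqx]
    have e1 : ∀ i, q' i • z i = q' i • (if i ∈ Q then z i else 0) := by
      intro i
      by_cases h : q' i = 0
      · rw [h, zero_smul, zero_smul]
      · rw [if_pos (hq' i h)]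
    rw [Finset.sum_congr rfl fun i _ => e1 i, h2]
    refine Finset.sum_congr rfl fun i _ => ?_
    by_cases h : q i = 0
    · rw [h, zero_smul, zero_smul]
    · rw [if_pos (hqQ i h)]
  -- extend inside `Q`, then to everything
  obtain ⟨b1, hb1Q, hb1s, hb1span, hb1li⟩ := exists_linearIndepOn_extension h3'
    (t := Q) (fun i hi => hq' i hi)
  obtain ⟨b, -, hb1, hb3, hb4⟩ := exists_linearIndepOn_extension hb1li (Set.subset_univ _)
  have hspan : Submodule.span ℚ (z '' b) = ⊤ := by
    rw [eq_top_iff, ← hz, Submodule.span_le]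
    rw [Set.image_univ] at hb3
    exact hb3
  have hcard : Fintype.card b = ρ := by
    have h5 : LinearIndependent ℚ (fun i : b => z i) := hb4
    have h6 : Submodule.span ℚ (Set.range fun i : b => z i) = ⊤ := by
      have : Set.range (fun i : b => z i) = z '' b := by
        ext x; simp
      rw [this, hspan]
    have h7 := finrank_span_eq_card h5
    rw [h6, finrank_top] at h7
    simpa using h7.symm
  let eq : Fin ρ ≃ b := (Fintype.equivFinOfCardEq hcard).symm
  let β : Fin ρ → Fin r := fun k => (eq k : Fin r)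
  have hβ : LinearIndependent ℚ (fun k => z (β k)) := by
    have h5 : LinearIndependent ℚ (fun i : b => z i) := hb4
    exact h5.comp eq eq.injective
  obtain ⟨c, hc⟩ := exists_dual hβ
  have hcoord : ∀ k, c k (p - t • v) = ∑ i, q' i * (if β k = i then 1 else 0) := by
    intro k
    rw [← hx', map_sum]
    refine Finset.sum_congr rfl fun i _ => ?_
    rw [map_smul, smul_eq_mul]
    by_cases hi : q' i = 0
    · rw [hi, zero_mul, zero_mul]
    · have hib : i ∈ b := hb1 (hb1s hi)
      have h8 : i = β (eq.symm ⟨i, hib⟩) := by simp [β]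
      have h9 : c k (z i) = if β k = i then 1 else 0 := by
        conv_lhs => rw [h8]
        rw [hc]
        by_cases h10 : k = eq.symm ⟨i, hib⟩
        · rw [if_pos h10, if_pos (by rw [h10, ← h8])]
        · rw [if_neg h10, if_neg]
          intro h11
          apply h10
          rw [Equiv.eq_symm_apply]
          exact Subtype.ext h11
      rw [h9]
  have hcoord' : ∀ k, c k (p - t • v) = q' (β k) := by
    intro k
    rw [hcoord k, Finset.sum_eq_single (β k)]
    · rw [if_pos rfl, mul_one]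
    · intro i _ hi
      rw [if_neg (fun h => hi h.symm), mul_zero]
    · intro h
      exact absurd (Finset.mem_univ _) h
  -- some basis element is not in `Q`
  obtain ⟨k, hk⟩ : ∃ k, β k ∉ b1 := by
    by_contra hcon
    push Not at hcon
    apply hQ
    rw [eq_top_iff, ← hspan, Submodule.span_le]
    rintro _ ⟨i, hi, rfl⟩
    have h8 : i = β (eq.symm ⟨i, hi⟩) := by simp [β]
    rw [h8]
    exact Submodule.subset_span ⟨_, hb1Q (hcon _), rfl⟩
  have hk0 : c k (p - t • v) = 0 := by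
    rw [hcoord' k]
    by_contra h
    exact hk (hb1s h)
  have hl : ∀ l, l ≠ k → β l ∈ b1 := by
    intro l hlk
    by_contra h
    have h5 : c l (p - t • v) = 0 := by
      rw [hcoord' l]
      by_contra h'
      exact h (hb1s h')
    exact hG.ne_zero hc hlk hk0 h5
  refine ⟨β, c, k, hc, fun l hlk => hb1Q (hl l hlk), hk0, fun l => by rw [hcoord' l]; exact h1 _, ?_⟩
  intro i hi
  have h5 : z i ∈ Submodule.span ℚ (z '' b1) := hb1span ⟨i, hi, rfl⟩
  have h6 : Submodule.span ℚ (z '' b1) ≤ LinearMap.ker (c k) := by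
    rw [Submodule.span_le]
    rintro _ ⟨j, hj, rfl⟩
    have hjb : j ∈ b := hb1 hj
    have h8 : j = β (eq.symm ⟨j, hjb⟩) := by simp [β]
    rw [SetLike.mem_coe, LinearMap.mem_ker, h8, hc, if_neg]
    rintro rfl
    apply hk
    rw [← h8]
    exact hj
  exact h6 h5

/-- the wall lemma for a family of cones closed under faces -/
theorem vwall_rat (z : Fin r → Fin ρ → ℚ) (hz : Submodule.span ℚ (Set.range z) = ⊤)
    (𝒮 : Set (Set (Fin r)))
    (hface : ∀ Q ∈ 𝒮, ∀ ξ : (Fin ρ → ℚ) →ₗ[ℚ] ℚ, (∀ i ∈ Q, 0 ≤ ξ (z i)) →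
      {i | i ∈ Q ∧ ξ (z i) = 0} ∈ 𝒮)
    (Q0 : Set (Fin r)) (hQ0 : Q0 ∈ 𝒮) (hspan0 : Submodule.span ℚ (z '' Q0) = ⊤)
    (x : Fin ρ → ℚ) (hx : Cn z Q0 x) (v : Fin ρ → ℚ)
    (ψ : (Fin ρ → ℚ) →ₗ[ℚ] ℚ) (hψ : ∀ i, 0 < ψ (z i)) (hψv : 0 < ψ v) :
    ∃ φ : (Fin ρ → ℚ) →ₗ[ℚ] ℚ, ∃ Q' ∈ 𝒮, 0 < φ v ∧ (∀ i ∈ Q', φ (z i) = 0) ∧
      (∃ X : ℚ, 0 ≤ X ∧ X * φ v = φ x ∧ Cn z Q' (x - X • v)) ∧ (∃ i, 0 < φ (z i)) ∧
      ∀ Q ∈ 𝒮, (∀ i ∈ Q', i ∈ Q) → (∃ i ∈ Q, 0 < φ (z i)) → Cn z Q x := by
  classical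
  obtain ⟨p, hG, hp, hsgn, hsgn2⟩ := exists_gen z Q0 hspan0 x hx v
  let co : (Fin ρ → Fin r) → Fin ρ → ((Fin ρ → ℚ) →ₗ[ℚ] ℚ) := fun β =>
    if h : ∃ c, IsDual z β c then h.choose else 0
  have hco : ∀ β c, IsDual z β c → co β = c := by
    intro β c h
    have h1 : ∃ c, IsDual z β c := ⟨c, h⟩
    simp only [co, dif_pos h1]
    exact h1.choose_spec.unique h
  let tm : (Fin ρ → Fin r) × Fin ρ → ℚ := fun y => co y.1 y.2 p / co y.1 y.2 v
  let Ev : Finset ((Fin ρ → Fin r) × Fin ρ) :=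
    Finset.univ.filter fun y => (∃ c, IsDual z y.1 c) ∧ co y.1 y.2 v ≠ 0 ∧ 0 ≤ tm y ∧
      (∀ l, 0 ≤ co y.1 l (p - tm y • v)) ∧
      ∃ Q' ∈ 𝒮, (∀ i ∈ Q', co y.1 y.2 (z i) = 0) ∧ ∀ l, l ≠ y.2 → y.1 l ∈ Q'
  -- events
  have hev : ∀ (β : Fin ρ → Fin r) (c : Fin ρ → ((Fin ρ → ℚ) →ₗ[ℚ] ℚ)) (k : Fin ρ) (t : ℚ),
      IsDual z β c → 0 ≤ t → c k (p - t • v) = 0 → (∀ l, 0 ≤ c l (p - t • v)) →
      (∃ Q' ∈ 𝒮, (∀ i ∈ Q', c k (z i) = 0) ∧ ∀ l, l ≠ k → β l ∈ Q') →
      (β, k) ∈ Ev ∧ tm (β, k) = t := by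
    intro β c k t hc ht hk hnn hQ
    have hkv : c k v ≠ 0 := by
      intro h0
      rw [apply_line, h0, mul_zero, sub_zero] at hk
      exact hG.ne β c hc k hk
    have htm : tm (β, k) = t := by
      simp only [tm, hco _ _ hc]
      rw [div_eq_iff hkv]
      rw [apply_line] at hk
      linarith
    refine ⟨?_, htm⟩
    simp only [Ev, Finset.mem_filter, Finset.mem_univ, true_and]
    rw [htm, hco _ _ hc]
    exact ⟨⟨c, hc⟩, hkv, ht, hnn, hQ⟩
  have hEvne : Ev.Nonempty := by
    have h0 : Cn z Q0 (p - (0 : ℚ) • v) := by rwa [zero_smul, sub_zero]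
    have hψp : 0 ≤ ψ p := by
      obtain ⟨q, h1, -, h3⟩ := hp
      rw [← h3, map_sum]
      refine Finset.sum_nonneg fun i _ => ?_
      rw [map_smul, smul_eq_mul]
      exact mul_nonneg (h1 i) (hψ i).le
    have h2 : ¬ Cn z Q0 (p - ((ψ p + 1) / ψ v) • v) := by
      rintro ⟨q, h1, -, h3⟩
      have h4 := congrArg ψ h3
      rw [apply_line, div_mul_cancel₀ _ hψv.ne', map_sum] at h4
      have h5 : 0 ≤ ∑ i, ψ (q i • z i) := by
        refine Finset.sum_nonneg fun i _ => ?_
        rw [map_smul, smul_eq_mul]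
        exact mul_nonneg (h1 i) (hψ i).le
      linarith
    obtain ⟨t, β, c, k, ht0, -, hc, hβ, hkv, hk0, hpos, hnn⟩ :=
      exit_lemma hG Q0 hspan0 (div_nonneg (by linarith) hψv.le) h0 h2
    refine ⟨_, (hev β c k t hc ht0 hk0 (fun l => ?_) ⟨_, hface Q0 hQ0 (c k) hnn, fun i hi => hi.2,
      fun l hl => ⟨hβ l, ?_⟩⟩).1⟩
    · by_cases h : l = k
      · rw [h, hk0]
      · exact (hpos l h).le
    · rw [hc, if_neg (fun h => hl h.symm)]
  obtain ⟨⟨β, k⟩, hmem, hmin⟩ := Finset.exists_min_image Ev tm hEvne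
  simp only [Ev, Finset.mem_filter, Finset.mem_univ, true_and] at hmem
  obtain ⟨⟨c, hc⟩, hkv, hT0, hnn, Q', hQ', hQ'k, hβQ'⟩ := hmem
  rw [hco _ _ hc] at hkv hQ'k
  simp only [hco _ _ hc] at hnn
  set T := tm (β, k) with hT
  have hTe : T * c k v = c k p := by
    simp only [hT, tm, hco _ _ hc]
    rw [div_mul_cancel₀ _ hkv]
  have hk0 : c k (p - T • v) = 0 := by
    rw [apply_line, hTe, sub_self]
  have hpos : ∀ l, l ≠ k → 0 < c l (p - T • v) := fun l hl =>
    lt_of_le_of_ne (hnn l) (hG.ne_zero hc hl hk0).symm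
  have hTpos : 0 < T := by
    refine lt_of_le_of_ne hT0 fun h => ?_
    rw [← h, zero_mul] at hTe
    exact hG.ne β c hc k hTe.symm
  -- constancy before the first event
  have hconst : ∀ Q ∈ 𝒮, ∀ t, 0 ≤ t → t < T → Cn z Q (p - t • v) →
      Submodule.span ℚ (z '' Q) = ⊤ ∧ Cn z Q p := by
    intro Q hQ t ht0 htT hC
    by_cases hspan : Submodule.span ℚ (z '' Q) = ⊤
    · refine ⟨hspan, ?_⟩
      by_contra hcon
      have h1 : Cn z Q (p - (-t) • (-v)) := by rwa [neg_smul_neg]
      have h2 : ¬ Cn z Q (p - (0 : ℚ) • (-v)) := by rwa [zero_smul, sub_zero]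
      obtain ⟨t', β', c', k', ht1, ht2, hc', hβ', hkv', hk0', hpos', hnn'⟩ :=
        exit_lemma hG.neg Q hspan (by linarith) h1 h2
      have e : ∀ l, c' l (p - t' • (-v)) = c' l (p - (-t') • v) := by
        intro l
        rw [smul_neg, neg_smul]
      obtain ⟨h3, h4⟩ := hev β' c' k' (-t') hc' (by linarith) (by rw [← e]; exact hk0')
        (fun l => by
          rw [← e]
          by_cases h : l = k'
          · rw [h, hk0']
          · exact (hpos' l h).le)
        ⟨_, hface Q hQ (c' k') hnn', fun i hi => hi.2, fun l hl => ⟨hβ' l, by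
          rw [hc', if_neg (fun h => hl h.symm)]⟩⟩
      have h5 := hmin _ h3
      rw [h4] at h5
      linarith
    · exfalso
      obtain ⟨β', c', k', hc', hβ', hk0', hnn', hQk'⟩ := nonspan_event hz hG Q hspan hC
      obtain ⟨h3, h4⟩ := hev β' c' k' t hc' ht0 hk0' hnn' ⟨Q, hQ, hQk', hβ'⟩
      have h5 := hmin _ h3
      rw [h4] at h5
      linarith
  -- sign normalisation
  obtain ⟨σ, hσ, hσv⟩ : ∃ σ : ℚ, (σ = 1 ∨ σ = -1) ∧ 0 < σ * c k v := by
    rcases lt_or_gt_of_ne hkv with h | h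
    · exact ⟨-1, Or.inr rfl, by linarith⟩
    · exact ⟨1, Or.inl rfl, by linarith⟩
  have hσ0 : σ ≠ 0 := by rcases hσ with h | h <;> rw [h] <;> norm_num
  have hσσ : σ * σ = 1 := by rcases hσ with h | h <;> rw [h] <;> norm_num
  have hσp : 0 < σ * c k p := by
    rw [← hTe]
    have := mul_pos hTpos hσv
    linarith
  have hσx : 0 ≤ σ * c k x := by
    rcases hσ with h | h
    · rw [h, one_mul] at hσp ⊢
      exact (hsgn β c hc k).1 hσp
    · rw [h] at hσp ⊢
      have := (hsgn β c hc k).2 (by linarith)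
      linarith
  refine ⟨σ • c k, Q', hQ', by rw [LinearMap.smul_apply, smul_eq_mul]; exact hσv, fun i hi => by
    rw [LinearMap.smul_apply, hQ'k i hi, smul_zero], ⟨(σ * c k x) / (σ * c k v),
    div_nonneg hσx hσv.le, ?_, ?_⟩, ?_, ?_⟩
  · rw [LinearMap.smul_apply, LinearMap.smul_apply, smul_eq_mul, smul_eq_mul,
      div_mul_cancel₀ _ hσv.ne']
  · -- the point on the wall
    have hkx : c k (x - ((σ * c k x) / (σ * c k v)) • v) = 0 := by
      rw [apply_line]
      field_simp
      ring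
    refine Cn.of_dual hc (fun l => ?_) (fun l hl => hβQ' l ?_)
    · by_cases h : l = k
      · rw [h, hkx]
      · have h1 := hpos l h
        rw [apply_line] at h1
        have h2 : 0 < (σ * c k v) * c l p - (σ * c k p) * c l v := by
          have : (σ * c k v) * (c l p - T * c l v) = (σ * c k v) * c l p - (σ * c k p) * c l v := by
            rw [← hTe]; ring
          rw [← this]
          exact mul_pos hσv h1
        have h3 : 0 ≤ (σ * c k v) * c l x - (σ * c k x) * c l v := by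
          rcases hσ with h | h
          · subst h
            have := hsgn2 β c hc k l (by linarith)
            linarith
          · subst h
            have := hsgn2 β c hc l k (by linarith)
            linarith
        rw [apply_line]
        have h4 : c l x - (σ * c k x) / (σ * c k v) * c l v =
            ((σ * c k v) * c l x - (σ * c k x) * c l v) / (σ * c k v) := by
          field_simp
        rw [h4]
        exact div_nonneg h3 hσv.le
    · rintro rfl
      exact hl hkx
  · -- some weight is positive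
    by_contra hcon
    push Not at hcon
    obtain ⟨q, h1, -, h3⟩ := hp
    have h4 := congrArg (σ • c k) h3
    rw [map_sum, LinearMap.smul_apply, smul_eq_mul] at h4
    have h5 : ∑ i, (σ • c k) (q i • z i) ≤ 0 := by
      refine Finset.sum_nonpos fun i _ => ?_
      rw [map_smul, smul_eq_mul]
      exact mul_nonpos_of_nonneg_of_nonpos (h1 i) (hcon i)
    linarith
  · intro Q hQ hQ'Q ⟨i, hiQ, hi⟩
    rw [LinearMap.smul_apply, smul_eq_mul] at hi
    have hki : c k (z i) ≠ 0 := by
      intro h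
      rw [h, mul_zero] at hi
      exact lt_irrefl _ hi
    have hd := hc.update k i hki
    set c' : Fin ρ → ((Fin ρ → ℚ) →ₗ[ℚ] ℚ) :=
      (fun m => if m = k then (c k (z i))⁻¹ • c k else c m - (c m (z i) / c k (z i)) • c k) with hc'
    have hc'k : c' k = (c k (z i))⁻¹ • c k := by simp [hc']
    have hc'l : ∀ m, m ≠ k → c' m = c m - (c m (z i) / c k (z i)) • c k := by
      intro m hm
      simp [hc', hm]
    have hβ' : ∀ l, Function.update β k i l ∈ Q := by
      intro l
      by_cases h : l = k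
      · subst h
        rw [Function.update_self]
        exact hiQ
      · rw [Function.update_of_ne h]
        exact hQ'Q _ (hβQ' l h)
    -- a time slightly before `T`
    obtain ⟨δ, hδ0, hδT, hδ⟩ : ∃ δ : ℚ, 0 < δ ∧ δ ≤ T ∧ ∀ l, l ≠ k → 0 ≤ c' l (p - (T - δ) • v) := by
      have hev : ∀ᶠ δ : ℚ in nhdsWithin 0 (Set.Ioi 0), ∀ l, l ≠ k → 0 ≤ c' l (p - (T - δ) • v) := by
        rw [Filter.eventually_all]
        intro l
        by_cases hl : l = k
        · exact Filter.Eventually.of_forall fun _ h => absurd hl h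
        · have h1 : 0 < c' l (p - T • v) := by
            rw [hc'l l hl, LinearMap.sub_apply, LinearMap.smul_apply, hk0, smul_zero, sub_zero]
            exact hpos l hl
          have hcont : Continuous fun δ : ℚ => c' l (p - T • v) + δ * c' l v := by fun_prop
          have h0 : Filter.Tendsto (fun δ : ℚ => c' l (p - T • v) + δ * c' l v)
              (nhdsWithin 0 (Set.Ioi 0)) (nhds (c' l (p - T • v))) := by
            have h1 := (hcont.tendsto 0).mono_left (nhdsWithin_le_nhds (s := Set.Ioi 0))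
            simpa using h1
          filter_upwards [h0.eventually (lt_mem_nhds h1)] with δ hδ _
          have e : c' l (p - (T - δ) • v) = c' l (p - T • v) + δ * c' l v := by
            rw [apply_line, apply_line]
            ring
          rw [e]
          exact hδ.le
      have hT' : ∀ᶠ δ : ℚ in nhdsWithin 0 (Set.Ioi 0), δ ≤ T := by
        filter_upwards [nhdsWithin_le_nhds (gt_mem_nhds hTpos)] with δ hδ
        exact hδ.le
      obtain ⟨δ, ⟨h1, h2⟩, h3⟩ := ((hev.and hT').and self_mem_nhdsWithin).exists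
      exact ⟨δ, h3, h2, h1⟩
    have hC : Cn z Q (p - (T - δ) • v) := by
      refine Cn.of_dual hd (fun l => ?_) (fun l _ => hβ' l)
      by_cases h : l = k
      · rw [h, hc'k, LinearMap.smul_apply, smul_eq_mul, apply_line, ← hTe]
        have e : (c k (z i))⁻¹ * (T * c k v - (T - δ) * c k v) =
            δ * (σ * c k v) * (σ * c k (z i))⁻¹ := by
          rcases hσ with h | h
          · subst h
            ring
          · subst h
            rw [neg_one_mul, neg_one_mul, inv_neg]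
            ring
        rw [e]
        exact mul_nonneg (mul_nonneg hδ0.le hσv.le) (inv_nonneg.2 hi.le)
      · exact hδ l h
    obtain ⟨hspan, hpC⟩ := hconst Q hQ (T - δ) (by linarith) (by linarith) hC
    obtain ⟨β2, c2, hc2, hβ2, hnn2⟩ := exists_feasible' z Q hspan hpC
    refine Cn.of_dual hc2 (fun l => ?_) (fun l _ => hβ2 l)
    exact (hsgn β2 c2 hc2 l).1 (lt_of_le_of_ne (hnn2 l) (hG.ne β2 c2 hc2 l).symm)

end Pool.Agent.Run7.H918
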