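import Pool.Agent.Run7.h918.Cases
import Pool.Agent.Run7.h918.VWall2
import Pool.Agent.Run7.h918.Attract

/-!
Numerical consequences of smoothness and freeness along a one-parameter subgroup.
-/

set_option autoImplicit false

namespace Pool.Agent.Run7.H918

open Finset MvPolynomial

variable {ρ r s : ℕ}

/-- If for every `k ≥ 2` at least as many `d j` as `a i` are divisible by `k`, then
`∑ a - ∑ d` is at most the number of the `a i` equal to `1`. -/
theorem sum_sub_le_card {ι κ : Type*} (s : Finset ι) (a : ι → ℕ) (t : Finset κ) (d : κ → ℕ)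
    (ha : ∀ i ∈ s, 1 ≤ a i) (hd : ∀ j ∈ t, 1 ≤ d j)
    (h : ∀ k, 2 ≤ k → (s.filter fun i => k ∣ a i).card ≤ (t.filter fun j => k ∣ d j).card) :
    (∑ i ∈ s, (a i : ℤ)) - ∑ j ∈ t, (d j : ℤ) ≤ ((s.filter fun i => a i = 1).card : ℤ) := by
  set M := (∑ i ∈ s, a i) + ∑ j ∈ t, d j with hM
  have haM : ∀ i ∈ s, a i ≤ M := fun i hi =>
    (Finset.single_le_sum (f := a) (fun _ _ => Nat.zero_le _) hi).trans (Nat.le_add_right _ _)
  have hdM : ∀ j ∈ t, d j ≤ M := fun j hj =>
    (Finset.single_le_sum (f := d) (fun _ _ => Nat.zero_le _) hj).trans (Nat.le_add_left _ _)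
  have e1 := sum_totient_count s a M ha haM
  have e2 := sum_totient_count t d M hd hdM
  have e3 := sum_moebius_count s a M ha haM
  have e4 := sum_moebius_count t d M hd hdM
  have key : ∑ k ∈ Finset.Icc 1 M, (Nat.totient k : ℤ) * ((s.filter fun i => k ∣ a i).card : ℤ) -
      ∑ k ∈ Finset.Icc 1 M, (ArithmeticFunction.moebius k : ℤ) *
        ((s.filter fun i => k ∣ a i).card : ℤ) ≤
      ∑ k ∈ Finset.Icc 1 M, (Nat.totient k : ℤ) * ((t.filter fun i => k ∣ d i).card : ℤ) -
      ∑ k ∈ Finset.Icc 1 M, (ArithmeticFunction.moebius k : ℤ) *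
        ((t.filter fun i => k ∣ d i).card : ℤ) := by
    rw [← Finset.sum_sub_distrib, ← Finset.sum_sub_distrib]
    refine Finset.sum_le_sum fun k hk => ?_
    rw [Finset.mem_Icc] at hk
    rw [← sub_mul, ← sub_mul]
    rcases eq_or_lt_of_le hk.1 with h1 | h1
    · subst h1
      simp
    · have h2 : (ArithmeticFunction.moebius k : ℤ) ≤ 1 :=
        (le_abs_self _).trans ArithmeticFunction.abs_moebius_le_one
      have h3 : 0 < Nat.totient k := Nat.totient_pos.2 (by omega)
      have h4 : (1 : ℤ) ≤ Nat.totient k := by exact_mod_cast h3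
      have h5 : ((s.filter fun i => k ∣ a i).card : ℤ) ≤ ((t.filter fun j => k ∣ d j).card : ℤ) := by
        exact_mod_cast h k h1
      exact mul_le_mul_of_nonneg_left h5 (by linarith)
  rw [← e1, ← e2, ← e3, ← e4] at key
  have h6 : (0 : ℤ) ≤ (((t.filter fun i => d i = 1).card : ℕ) : ℤ) := Int.natCast_nonneg _
  linarith

namespace CoxData

variable (D : CoxData ρ r s)

/-- the limit of a point of `V(g)` under a one-parameter subgroup lies in `V(g)` -/
theorem limit_mem (hg : ∀ j, (D.g j).IsWeightedHomogeneous D.w (D.μ j))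
    (ξ : (Fin ρ → ℤ) →+ ℚ) (y : Fin r → ℂ) (hy : ∀ j, eval y (D.g j) = 0)
    (hξ : ∀ i, y i ≠ 0 → 0 ≤ ξ (D.w i)) (y' : Fin r → ℂ)
    (h0 : ∀ i, ξ (D.w i) = 0 → y' i = y i) (h1 : ∀ i, ξ (D.w i) ≠ 0 → y' i = 0) :
    ∀ j, eval y' (D.g j) = 0 := by
  classical
  intro j
  have hmap : ∀ a : Fin r → ℕ, ∑ i, a i • D.w i = D.μ j →
      ∑ i, (a i : ℚ) * ξ (D.w i) = ξ (D.μ j) := by
    intro a ha
    rw [← ha, map_sum]
    refine Finset.sum_congr rfl fun i _ => ?_
    rw [map_nsmul, nsmul_eq_mul]
  by_cases hj : ξ (D.μ j) = 0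
  · rw [← hy j]
    refine eval_congr (hg j) _ _ fun a ha => ?_
    by_cases hsupp : ∀ i, a i ≠ 0 → ξ (D.w i) = 0
    · refine Finset.prod_congr rfl fun i _ => ?_
      by_cases ha0 : a i = 0
      · rw [ha0, pow_zero, pow_zero]
      · rw [h0 i (hsupp i ha0)]
    · push Not at hsupp
      obtain ⟨i1, hi1, hξ1⟩ := hsupp
      rw [Finset.prod_eq_zero (f := fun i => y' i ^ a i) (Finset.mem_univ i1)
        (by simp only [h1 i1 hξ1]; exact zero_pow hi1)]
      by_contra hne
      have hne' := Finset.prod_ne_zero_iff.1 (Ne.symm hne)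
      have hyne : ∀ i, a i ≠ 0 → y i ≠ 0 := by
        intro i hi h
        apply hne' i (Finset.mem_univ i)
        rw [h, zero_pow hi]
      have h3 := hmap a ha
      rw [hj] at h3
      have h4 := (Finset.sum_eq_zero_iff_of_nonneg (fun i _ => by
        by_cases h3 : a i = 0
        · simp [h3]
        · exact mul_nonneg (Nat.cast_nonneg _) (hξ i (hyne i h3)))).1 h3 i1 (Finset.mem_univ _)
      rcases mul_eq_zero.1 h4 with h5 | h5
      · exact hi1 (by exact_mod_cast h5)
      · exact hξ1 h5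
  · by_contra hne
    obtain ⟨a, ha, hsupp⟩ := exists_monomial (hg j) y' hne
    apply hj
    rw [← hmap a ha]
    refine Finset.sum_eq_zero fun i _ => ?_
    by_cases h : a i = 0
    · simp [h]
    · by_cases hξi : ξ (D.w i) = 0
      · rw [hξi, mul_zero]
      · exact absurd (h1 i hξi) (hsupp i h)

/-- the Jacobian criterion along a one-parameter subgroup -/
theorem jacobian_count (hD : D.IsGood) (x : Fin r → ℂ) (hx : x ∈ D.semistable)
    (φ : (Fin ρ → ℤ) →+ ℤ) (h1 : ∀ i, x i ≠ 0 → 0 ≤ φ (D.w i)) :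
    ∑ j ∈ univ.filter (fun j => φ (D.μ j) < 0), (-φ (D.μ j)) ≤
      ∑ i ∈ univ.filter (fun i => φ (D.w i) < 0), (-φ (D.w i)) := by
  classical
  have hrow : ∀ j i, (eval x (pderiv i (D.g j)) : ℂ) ≠ 0 → φ (D.w i) ≤ φ (D.μ j) := by
    intro j i hne
    have h3 : (pderiv i (D.g j)).IsWeightedHomogeneous D.w (D.μ j - D.w i) :=
      (hD.homog j).pderiv (sub_add_cancel _ _)
    obtain ⟨a, ha, hsupp⟩ := exists_monomial h3 x hne
    have h4 := congrArg φ ha
    rw [map_comb, map_sub] at h4
    have h5 : 0 ≤ ∑ i, (a i : ℤ) * φ (D.w i) := by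
      refine Finset.sum_nonneg fun i _ => ?_
      by_cases h : a i = 0
      · simp [h]
      · exact mul_nonneg (Int.natCast_nonneg _) (h1 i (hsupp i h))
    linarith
  have hcount : ∀ k : ℤ, 1 ≤ k → (univ.filter fun j => k ≤ -φ (D.μ j)).card ≤
      (univ.filter fun i => k ≤ -φ (D.w i)).card := by
    intro k hk
    have hli := hD.smooth x hx
    let T : Finset (Fin r) := univ.filter fun i => k ≤ -φ (D.w i)
    have h3 : LinearIndependent ℂ (fun (j : {j // k ≤ -φ (D.μ j)}) (i : T) =>
        (eval x (pderiv i.1 (D.g j.1)) : ℂ)) := by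
      rw [Fintype.linearIndependent_iff]
      intro c hc
      have h4 : LinearIndependent ℂ (fun (j : {j // k ≤ -φ (D.μ j)}) (i : Fin r) =>
          (eval x (pderiv i (D.g j.1)) : ℂ)) := hli.comp _ Subtype.val_injective
      rw [Fintype.linearIndependent_iff] at h4
      apply h4 c
      funext i
      by_cases hi : i ∈ T
      · have h5 := congrFun hc ⟨i, hi⟩
        simpa using h5
      · simp only [Finset.sum_apply, Pi.smul_apply, smul_eq_mul, Pi.zero_apply]
        refine Finset.sum_eq_zero fun j _ => ?_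
        have h5 : (eval x (pderiv i (D.g j.1)) : ℂ) = 0 := by
          by_contra hne
          apply hi
          have h6 := hrow j.1 i hne
          have h7 := j.2
          simp only [T, Finset.mem_filter, Finset.mem_univ, true_and]
          omega
        rw [h5, mul_zero]
    have h4 := h3.fintype_card_le_finrank
    rw [Module.finrank_fintype_fun_eq_card, Fintype.card_coe, Fintype.card_subtype] at h4
    exact h4
  -- layer cake
  have hlayer : ∀ {n : ℕ} (f : Fin n → ℤ) (N : ℕ), (∀ i, -f i ≤ N) →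
      ∑ i ∈ univ.filter (fun i => f i < 0), (-f i) =
        ∑ k ∈ Finset.Icc 1 N, ((univ.filter fun i => (k : ℤ) ≤ -f i).card : ℤ) := by
    intro n f N hN
    have h3 : ∀ k ∈ Finset.Icc 1 N, ((univ.filter fun i => (k : ℤ) ≤ -f i).card : ℤ) =
        ∑ i, if (k : ℤ) ≤ -f i then (1 : ℤ) else 0 := by
      intro k _
      rw [Finset.card_filter]
      push_cast
      rfl
    rw [Finset.sum_congr rfl h3, Finset.sum_comm, Finset.sum_filter]
    refine Finset.sum_congr rfl fun i _ => ?_
    rw [← Finset.sum_filter, Finset.sum_const, nsmul_eq_mul, mul_one]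
    split_ifs with h
    · have h4 : (Finset.Icc 1 N).filter (fun k : ℕ => (k : ℤ) ≤ -f i) =
          Finset.Icc 1 (-f i).toNat := by
        ext k
        simp only [Finset.mem_filter, Finset.mem_Icc]
        have := hN i
        omega
      rw [h4, Nat.card_Icc]
      omega
    · have h4 : (Finset.Icc 1 N).filter (fun k : ℕ => (k : ℤ) ≤ -f i) = ∅ := by
        rw [Finset.filter_eq_empty_iff]
        intro k hk
        rw [Finset.mem_Icc] at hk
        omega
      rw [h4]
      simp
  let N : ℕ := (∑ i, (-φ (D.w i)).toNat) + ∑ j, (-φ (D.μ j)).toNat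
  have hN1 : ∀ i, -φ (D.w i) ≤ N := by
    intro i
    have h3 := Finset.single_le_sum (f := fun i => (-φ (D.w i)).toNat)
      (fun _ _ => Nat.zero_le _) (Finset.mem_univ i)
    omega
  have hN2 : ∀ j, -φ (D.μ j) ≤ N := by
    intro i
    have h3 := Finset.single_le_sum (f := fun i => (-φ (D.μ i)).toNat)
      (fun _ _ => Nat.zero_le _) (Finset.mem_univ i)
    omega
  rw [hlayer (fun j => φ (D.μ j)) N hN2, hlayer (fun i => φ (D.w i)) N hN1]
  refine Finset.sum_le_sum fun k hk => ?_
  rw [Finset.mem_Icc] at hk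
  exact_mod_cast hcount k (by exact_mod_cast hk.1)

/-- Common zeros over a fixed point `x`: if fewer equations than coordinates (of a set `A` of
coordinates of positive weight) are nonconstant there, there is a point of `V(g)` with the
coordinates of `x` and nonzero part in `A`. -/
theorem exists_point (hg : ∀ j, (D.g j).IsWeightedHomogeneous D.w (D.μ j))
    (φ : (Fin ρ → ℤ) →+ ℤ) (x : Fin r → ℂ) (hx : ∀ j, eval x (D.g j) = 0)
    (hxφ : ∀ i, x i ≠ 0 → φ (D.w i) = 0) (A : Finset (Fin r)) (hA : ∀ i ∈ A, 0 < φ (D.w i))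
    (E : Finset (Fin s)) (hE : E.card < A.card)
    (hEc : ∀ j ∉ E, ∀ y : Fin r → ℂ, (∀ i, i ∉ A → y i = x i) → φ (D.μ j) ≤ 0 ∨
      eval y (D.g j) = 0) :
    ∃ y : Fin r → ℂ, (∀ j, eval y (D.g j) = 0) ∧ (∀ i, i ∉ A → y i = x i) ∧ ∃ i ∈ A, y i ≠ 0 := by
  classical
  have hcard : Fintype.card {j // j ∈ E} < Fintype.card {i // i ∈ A} := by
    rw [Fintype.card_coe, Fintype.card_coe]
    exact hE
  have hxA : ∀ i ∈ A, x i = 0 := by
    intro i hi
    by_contra h
    have h1 := hxφ i h
    have h2 := hA i hi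
    omega
  let sub : Fin r → MvPolynomial {i // i ∈ A} ℂ := fun i =>
    if h : i ∈ A then X ⟨i, h⟩ else C (x i)
  let pt : ({i // i ∈ A} → ℂ) → Fin r → ℂ := fun z i => if h : i ∈ A then z ⟨i, h⟩ else x i
  have hsub : ∀ (z : {i // i ∈ A} → ℂ) (f : MvPolynomial (Fin r) ℂ),
      eval z (aeval sub f) = eval (pt z) f := by
    intro z f
    induction f using MvPolynomial.induction_on with
    | C c => simp
    | add p q hp hq => rw [map_add, map_add, hp, hq, map_add]
    | mul_X p i hp =>
      rw [map_mul, map_mul, hp, map_mul, aeval_X, eval_X]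
      congr 1
      simp only [sub, pt]
      split_ifs <;> simp
  have hpt0 : pt 0 = x := by
    funext i
    simp only [pt]
    split_ifs with h
    · exact (hxA i h).symm
    · rfl
  obtain ⟨z, hz, hzero⟩ := Pool.Agent.H952R2.Sextic.exists_common_zero hcard
    (fun j : {j // j ∈ E} => aeval sub (D.g j.1)) (by
      intro j
      rw [hsub, hpt0]
      exact hx _)
  have hyA : ∀ i (h : i ∈ A), pt z i = z ⟨i, h⟩ := by
    intro i h
    simp only [pt, dif_pos h]
  have hyx : ∀ i, i ∉ A → pt z i = x i := by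
    intro i h
    simp only [pt, dif_neg h]
  have hnn : ∀ i, pt z i ≠ 0 → 0 ≤ φ (D.w i) := by
    intro i hi
    by_cases h : i ∈ A
    · exact (hA i h).le
    · rw [hyx i h] at hi
      exact (hxφ i hi).ge
  refine ⟨pt z, fun j => ?_, hyx, ?_⟩
  · by_cases hj : j ∈ E
    · have := hzero ⟨j, hj⟩
      rw [hsub] at this
      exact this
    rcases hEc j hj (pt z) hyx with h | h
    · rcases eq_or_lt_of_le h with h0 | h0
      · -- weight zero: compare with `x`
        rw [← hx j]
        refine eval_congr (hg j) _ _ fun a ha => ?_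
        by_cases hsupp : ∀ i, a i ≠ 0 → i ∉ A
        · refine Finset.prod_congr rfl fun i _ => ?_
          by_cases ha0 : a i = 0
          · rw [ha0, pow_zero, pow_zero]
          · rw [hyx i (hsupp i ha0)]
        · push Not at hsupp
          obtain ⟨i1, hi1, hiA⟩ := hsupp
          rw [Finset.prod_eq_zero (f := fun i => x i ^ a i) (Finset.mem_univ i1)
            (by simp only [hxA i1 hiA]; exact zero_pow hi1)]
          by_contra hne
          have hne' := Finset.prod_ne_zero_iff.1 hne
          have hyne : ∀ i, a i ≠ 0 → pt z i ≠ 0 := by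
            intro i hi h
            apply hne' i (Finset.mem_univ i)
            rw [h, zero_pow hi]
          have h3 := congrArg φ ha
          rw [map_comb, h0] at h3
          have h4 := (Finset.sum_eq_zero_iff_of_nonneg (fun i _ => by
            by_cases h3 : a i = 0
            · simp [h3]
            · exact mul_nonneg (Int.natCast_nonneg _) (hnn i (hyne i h3)))).1 h3 i1
              (Finset.mem_univ _)
          rcases mul_eq_zero.1 h4 with h5 | h5
          · exact hi1 (by exact_mod_cast h5)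
          · exact (hA i1 hiA).ne' h5
      · by_contra hne
        obtain ⟨a, ha, hsupp⟩ := exists_monomial (hg j) _ hne
        have h3 := congrArg φ ha
        rw [map_comb] at h3
        have h4 : 0 ≤ ∑ i, (a i : ℤ) * φ (D.w i) := by
          refine Finset.sum_nonneg fun i _ => ?_
          by_cases h : a i = 0
          · simp [h]
          · exact mul_nonneg (Int.natCast_nonneg _) (hnn i (hsupp i h))
        omega
    · exact h
  · by_contra hcon
    push Not at hcon
    apply hz
    funext i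
    have := hcon i.1 i.2
    rw [hyA i.1 i.2] at this
    exact this

/-- the counting inequality along a wall: the coordinates of positive weight divisible by `k ≥ 2` are
at most as many as the equations of positive weight divisible by `k` -/
theorem count_le (hD : D.IsGood) (φ : (Fin ρ → ℤ) →+ ℤ) (hφ : Function.Surjective φ)
    (x : Fin r → ℂ) (hx : ∀ j, eval x (D.g j) = 0) (hxφ : ∀ i, x i ≠ 0 → φ (D.w i) = 0)
    (hss : ∀ y : Fin r → ℂ, (∀ j, eval y (D.g j) = 0) → (∀ i, x i ≠ 0 → y i ≠ 0) →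
      (∃ i, y i ≠ 0 ∧ 0 < φ (D.w i)) → y ∈ D.semistable) (k : ℤ) (hk : 2 ≤ k) :
    (univ.filter fun i => 0 < φ (D.w i) ∧ k ∣ φ (D.w i)).card ≤
      (univ.filter fun j => 0 < φ (D.μ j) ∧ k ∣ φ (D.μ j)).card := by
  classical
  by_contra hcon
  push Not at hcon
  obtain ⟨y, hyV, hyx, i1, hi1, hyi1⟩ := D.exists_point hD.homog φ x hx hxφ
    (univ.filter fun i => 0 < φ (D.w i) ∧ k ∣ φ (D.w i)) (fun i hi => (Finset.mem_filter.1 hi).2.1)
    (univ.filter fun j => 0 < φ (D.μ j) ∧ k ∣ φ (D.μ j)) hcon (by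
      intro j hj y hy
      by_contra hne
      push Not at hne
      obtain ⟨hpos, hne⟩ := hne
      apply hj
      rw [Finset.mem_filter]
      refine ⟨Finset.mem_univ _, hpos, ?_⟩
      obtain ⟨a, ha, hsupp⟩ := exists_monomial (hD.homog j) y hne
      have h1 := congrArg φ ha
      rw [map_comb] at h1
      rw [← h1]
      refine Finset.dvd_sum fun i _ => ?_
      by_cases h3 : a i = 0
      · simp [h3]
      · refine Dvd.dvd.mul_left ?_ _
        by_cases hi : i ∈ univ.filter fun i => 0 < φ (D.w i) ∧ k ∣ φ (D.w i)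
        · exact (Finset.mem_filter.1 hi).2.2
        · have h4 := hsupp i h3
          rw [hy i hi] at h4
          rw [hxφ i h4]
          exact dvd_zero _)
  have hi1' := (Finset.mem_filter.1 hi1).2
  have hys : y ∈ D.semistable := by
    refine hss y hyV (fun i hi => ?_) ⟨i1, hyi1, hi1'.1⟩
    rw [hyx i]
    · exact hi
    · intro h
      have h1 := (Finset.mem_filter.1 h).2.1
      have h2 := hxφ i hi
      omega
  have h5 := D.not_dvd_of_free hD hys φ hφ k (fun i hi => by
    by_cases h : i ∈ univ.filter fun i => 0 < φ (D.w i) ∧ k ∣ φ (D.w i)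
    · exact (Finset.mem_filter.1 h).2.2
    · rw [hyx i h] at hi
      rw [hxφ i hi]
      exact dvd_zero _)
  have := Int.le_of_dvd one_pos h5
  omega

/-- the number of coordinates of weight one along a wall is at least the weight of `u` -/
theorem le_card_one (hD : D.IsGood) (φ : (Fin ρ → ℤ) →+ ℤ) (hφ : Function.Surjective φ)
    (x : Fin r → ℂ) (hx : ∀ j, eval x (D.g j) = 0) (hxφ : ∀ i, x i ≠ 0 → φ (D.w i) = 0)
    (hss : ∀ y : Fin r → ℂ, (∀ j, eval y (D.g j) = 0) → (∀ i, x i ≠ 0 → y i ≠ 0) →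
      (∃ i, y i ≠ 0 ∧ 0 < φ (D.w i)) → y ∈ D.semistable)
    (y : Fin r → ℂ) (hy : y ∈ D.semistable) (hyφ : ∀ i, y i ≠ 0 → 0 ≤ φ (D.w i)) :
    φ D.u ≤ ((univ.filter fun i => φ (D.w i) = 1).card : ℤ) := by
  classical
  have key := sum_sub_le_card (univ.filter fun i => 0 < φ (D.w i))
    (fun i => (φ (D.w i)).toNat) (univ.filter fun j => 0 < φ (D.μ j))
    (fun j => (φ (D.μ j)).toNat) (by
      intro i hi
      have h1 := (Finset.mem_filter.1 hi).2
      omega) (by
      intro j hj
      have h1 := (Finset.mem_filter.1 hj).2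
      omega) (by
      intro k hk
      have h1 := D.count_le hD φ hφ x hx hxφ hss k (by exact_mod_cast hk)
      rw [Finset.filter_filter, Finset.filter_filter]
      have e1 : (univ.filter fun i => 0 < φ (D.w i) ∧ k ∣ (φ (D.w i)).toNat) =
          univ.filter fun i => 0 < φ (D.w i) ∧ (k : ℤ) ∣ φ (D.w i) := by
        refine Finset.filter_congr fun i _ => and_congr_right fun h => ?_
        rw [← Int.natCast_dvd_natCast, Int.toNat_of_nonneg h.le]
      have e2 : (univ.filter fun i => 0 < φ (D.μ i) ∧ k ∣ (φ (D.μ i)).toNat) =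
          univ.filter fun i => 0 < φ (D.μ i) ∧ (k : ℤ) ∣ φ (D.μ i) := by
        refine Finset.filter_congr fun i _ => and_congr_right fun h => ?_
        rw [← Int.natCast_dvd_natCast, Int.toNat_of_nonneg h.le]
      rw [e1, e2]
      exact h1)
  have e1 : ∑ i ∈ univ.filter (fun i => 0 < φ (D.w i)), ((φ (D.w i)).toNat : ℤ) =
      ∑ i ∈ univ.filter (fun i => 0 < φ (D.w i)), φ (D.w i) := by
    refine Finset.sum_congr rfl fun i hi => ?_
    rw [Int.toNat_of_nonneg (Finset.mem_filter.1 hi).2.le]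
  have e2 : ∑ i ∈ univ.filter (fun i => 0 < φ (D.μ i)), ((φ (D.μ i)).toNat : ℤ) =
      ∑ i ∈ univ.filter (fun i => 0 < φ (D.μ i)), φ (D.μ i) := by
    refine Finset.sum_congr rfl fun i hi => ?_
    rw [Int.toNat_of_nonneg (Finset.mem_filter.1 hi).2.le]
  have e3 : ((univ.filter fun i => 0 < φ (D.w i)).filter fun i => (φ (D.w i)).toNat = 1) =
      univ.filter fun i => φ (D.w i) = 1 := by
    rw [Finset.filter_filter]
    refine Finset.filter_congr fun i _ => ?_
    omega
  rw [e1, e2, e3] at key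
  have split : ∀ {n : ℕ} (f : Fin n → ℤ), ∑ i, f i = ∑ i ∈ univ.filter (fun i => 0 < f i), f i -
      ∑ i ∈ univ.filter (fun i => f i < 0), (-f i) := by
    intro n f
    rw [Finset.sum_filter, Finset.sum_filter, ← Finset.sum_sub_distrib]
    refine Finset.sum_congr rfl fun i _ => ?_
    rcases lt_trichotomy (f i) 0 with h | h | h
    · rw [if_neg (by omega), if_pos h]; ring
    · rw [if_neg (by omega), if_neg (by omega), h]; ring
    · rw [if_pos h, if_neg (by omega)]; ring
  have hueq : φ D.u = ∑ i, φ (D.w i) - ∑ j, φ (D.μ j) := by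
    rw [CoxData.u, map_sub, map_sum, map_sum]
  rw [split (fun i => φ (D.w i)), split (fun j => φ (D.μ j))] at hueq
  have h4 := D.jacobian_count hD y hy φ hyφ
  linarith

/-- along a wall, the weight of `u` is positive -/
theorem wall_pos (hD : D.IsGood) (φ : (Fin ρ → ℤ) →+ ℤ) (hφ : Function.Surjective φ)
    (x : Fin r → ℂ) (hx : ∀ j, eval x (D.g j) = 0) (hxφ : ∀ i, x i ≠ 0 → φ (D.w i) = 0)
    (y : Fin r → ℂ) (hy : y ∈ D.semistable) (hyx : ∀ i, y i ≠ 0 → x i ≠ 0 ∨ 0 < φ (D.w i)) :
    0 < φ D.u := by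
  classical
  have hnn : ∀ i, y i ≠ 0 → 0 ≤ φ (D.w i) := by
    intro i hi
    rcases hyx i hi with h | h
    · exact (hxφ i h).ge
    · exact h.le
  have h0 : 0 ≤ φ D.u := hy.2.nonneg φ hnn
  refine lt_of_le_of_ne h0 fun he => ?_
  obtain ⟨m, a, hm, ha, h⟩ := hy.2
  have h1 := congrArg φ h
  rw [map_comb, map_nsmul, ← he, smul_zero] at h1
  have h2 : ∀ i ∈ (univ : Finset (Fin r)), 0 ≤ (a i : ℤ) * φ (D.w i) := by
    intro i _
    by_cases h3 : a i = 0
    · simp [h3]
    · exact mul_nonneg (Int.natCast_nonneg _) (hnn i (ha i h3))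
  have hxs : x ∈ D.semistable := by
    refine ⟨hx, m, a, hm, fun i hi => ?_, h⟩
    rcases hyx i (ha i hi) with h3 | h3
    · exact h3
    · have h4 := (Finset.sum_eq_zero_iff_of_nonneg h2).1 h1 i (Finset.mem_univ _)
      rcases mul_eq_zero.1 h4 with h5 | h5
      · exact absurd (by exact_mod_cast h5) hi
      · exact absurd h5 h3.ne'
  have h5 := D.not_dvd_of_free hD hxs φ hφ 0 (fun i hi => by rw [hxφ i hi])
  norm_num at h5

end CoxData

end Pool.Agent.Run7.H918
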