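import Pool.Agent.Run7.h918.Der

/-!
Derivations of a subfield `K` of `Ω` with values in `Ω`.
-/

set_option autoImplicit false

namespace Pool.Agent.Run7.H918

open Finset

variable {K Ω : Type} [Field K] [Algebra ℂ K] [Field Ω] [Algebra ℂ Ω]

theorem der_sum_apply {ι : Type*} (s : Finset ι) (f : ι → Derivation ℂ K K) (x : K) :
    (∑ i ∈ s, f i) x = ∑ i ∈ s, f i x := by
  classical
  induction s using Finset.induction_on with
  | empty => simp
  | insert a s ha ih => rw [Finset.sum_insert ha, Finset.sum_insert ha, Derivation.add_apply, ih]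

/-- a derivation of `K` with values in `Ω`, along the embedding `e` -/
structure IsDer (e : K →ₐ[ℂ] Ω) (D : K → Ω) : Prop where
  add : ∀ a b, D (a + b) = D a + D b
  mul : ∀ a b, D (a * b) = e a * D b + e b * D a
  const : ∀ c : ℂ, D (algebraMap ℂ K c) = 0

variable {n : ℕ} (b : Module.Basis (Fin n) K (Derivation ℂ K K))

/-- a derivation which kills a separating family is zero -/
theorem IsDer.eq_zero {e : K →ₐ[ℂ] Ω} {D : K → Ω} (hD : IsDer e D) (y : Fin n → K)
    (hy : (Matrix.of fun i j => b i (y j)).det ≠ 0) (h0 : ∀ j, D (y j) = 0) (x : K) : D x = 0 := by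
  classical
  let : Algebra K Ω := e.toRingHom.toAlgebra
  have hsm : ∀ (a : K) (z : Ω), a • z = e a * z := fun a z => rfl
  by_contra hne
  obtain ⟨l, hl⟩ : ∃ l : Module.Dual K Ω, l (D x) ≠ 0 := by
    by_contra hcon
    push Not at hcon
    exact hne ((Module.forall_dual_apply_eq_zero_iff K (D x)).1 hcon)
  let L : K →ₗ[ℂ] K :=
    { toFun := fun a => l (D a)
      map_add' := by
        intro a a'
        rw [hD.add, map_add]
      map_smul' := by
        intro c a
        rw [Algebra.smul_def, hD.mul, hD.const, mul_zero, add_zero, ← hsm, map_smul, smul_eq_mul,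
          RingHom.id_apply, Algebra.smul_def] }
  let D' : Derivation ℂ K K := Derivation.mk' L (by
    intro a a'
    show l (D (a * a')) = a • l (D a') + a' • l (D a)
    rw [hD.mul, map_add, ← hsm, ← hsm, map_smul, map_smul])
  have hD' : ∀ a, D' a = l (D a) := fun a => rfl
  have hrepr : ∀ a, D' a = ∑ i, b.repr D' i * b i a := by
    intro a
    conv_lhs => rw [← b.sum_repr D']
    rw [der_sum_apply]
    rfl
  have hc : (fun i => b.repr D' i) = 0 := by
    apply Matrix.eq_zero_of_vecMul_eq_zero hy
    funext j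
    simp only [Matrix.vecMul, dotProduct, Matrix.of_apply, Pi.zero_apply]
    rw [← hrepr, hD', h0, map_zero]
  apply hl
  rw [← hD', hrepr]
  refine Finset.sum_eq_zero fun i _ => ?_
  have := congrFun hc i
  simp only [Pi.zero_apply] at this
  rw [this, zero_mul]

/-- derivations dual to a separating family -/
theorem exists_dual_der (y : Fin n → K) (hy : (Matrix.of fun i j => b i (y j)).det ≠ 0) :
    ∃ p : Fin n → Derivation ℂ K K, (∀ j k, p j (y k) = if j = k then 1 else 0) ∧
      ∀ x : Fin n → K, (Matrix.of fun i j => b i (x j)).det =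
        (Matrix.of fun i j => b i (y j)).det * (Matrix.of fun j k => p j (x k)).det := by
  classical
  set N : Matrix (Fin n) (Fin n) K := Matrix.of fun i j => b i (y j) with hN
  have hu : IsUnit N.det := isUnit_iff_ne_zero.2 hy
  have hp : ∀ j x, (∑ i, N⁻¹ j i • b i) x = ∑ i, N⁻¹ j i * b i x := by
    intro j x
    rw [der_sum_apply]
    rfl
  refine ⟨fun j => ∑ i, N⁻¹ j i • b i, ?_, ?_⟩
  · intro j k
    rw [hp]
    have h1 := congrFun (congrFun (Matrix.nonsing_inv_mul N hu) j) k
    rw [Matrix.mul_apply, Matrix.one_apply] at h1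
    exact h1
  · intro x
    have h1 : (Matrix.of fun j k => (∑ i, N⁻¹ j i • b i) (x k) : Matrix (Fin n) (Fin n) K) =
        N⁻¹ * Matrix.of fun i j => b i (x j) := by
      ext j k
      rw [Matrix.mul_apply, Matrix.of_apply, hp]
      rfl
    rw [h1, Matrix.det_mul, ← mul_assoc, ← Matrix.det_mul, Matrix.mul_nonsing_inv N hu,
      Matrix.det_one, one_mul]

/-- the expansion of a derivation in terms of a separating family -/
theorem IsDer.expand {e : K →ₐ[ℂ] Ω} {D : K → Ω} (hD : IsDer e D) (y : Fin n → K)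
    (hy : (Matrix.of fun i j => b i (y j)).det ≠ 0) (p : Fin n → Derivation ℂ K K)
    (hp : ∀ j k, p j (y k) = if j = k then 1 else 0) (x : K) :
    D x = ∑ j, D (y j) * e (p j x) := by
  classical
  have h1 : IsDer e (fun x => D x - ∑ j, D (y j) * e (p j x)) := by
    refine ⟨fun a a' => ?_, fun a a' => ?_, fun c => ?_⟩
    · simp only [hD.add, map_add, mul_add, Finset.sum_add_distrib]
      ring
    · simp only [hD.mul, Derivation.leibniz, smul_eq_mul, map_add, map_mul, mul_add,
        Finset.sum_add_distrib, mul_sub, Finset.mul_sum]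
      have e1 : ∀ j, D (y j) * (e a * e (p j a')) = e a * (D (y j) * e (p j a')) := fun j => by ring
      have e2 : ∀ j, D (y j) * (e a' * e (p j a)) = e a' * (D (y j) * e (p j a)) := fun j => by ring
      simp only [e1, e2]
      ring
    · simp [hD.const]
  have h2 := h1.eq_zero b y hy (by
    intro k
    simp only [hp]
    rw [Finset.sum_eq_single k]
    · simp
    · intro j _ hj
      rw [if_neg hj, map_zero, mul_zero]
    · intro h
      exact absurd (Finset.mem_univ _) h) x
  exact sub_eq_zero.1 h2

/-- restriction of a derivation of `Ω` -/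
theorem IsDer.restrict (e : K →ₐ[ℂ] Ω) (E : Derivation ℂ Ω Ω) : IsDer e (fun a => E (e a)) := by
  refine ⟨fun a a' => by rw [map_add, map_add], fun a a' => ?_, fun c => ?_⟩
  · rw [map_mul, Derivation.leibniz, smul_eq_mul, smul_eq_mul]
  · rw [AlgHom.commutes, Derivation.map_algebraMap]

/-- The transformation rule of the determinants of derivatives. -/
theorem det_transform {m : ℕ} (e : K →ₐ[ℂ] Ω) (E : Fin n ⊕ Fin m → Derivation ℂ Ω Ω)
    (y x : Fin n → K) (hy : (Matrix.of fun i j => b i (y j)).det ≠ 0) (τ : Fin m → Ω)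
    (v : Fin m → K) :
    (Matrix.of fun k l => E l ((Sum.elim (fun j => e (x j)) (fun k => τ k * e (v k)) :
        Fin n ⊕ Fin m → Ω) k)).det * e (Matrix.of fun i j => b i (y j)).det =
      (Matrix.of fun k l => E l ((Sum.elim (fun j => e (y j)) τ : Fin n ⊕ Fin m → Ω) k)).det *
        e (Matrix.of fun i j => b i (x j)).det * ∏ k, e (v k) := by
  classical
  obtain ⟨p, hp1, hp2⟩ := exists_dual_der b y hy
  have hexp : ∀ l x, E l (e x) = ∑ j, E l (e (y j)) * e (p j x) := fun l x =>
    (IsDer.restrict e (E l)).expand b y hy p hp1 x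
  let U : Matrix (Fin n) (Fin n) Ω := Matrix.of fun k j => e (p j (x k))
  let A : Matrix (Fin n ⊕ Fin m) (Fin n ⊕ Fin m) Ω :=
    Matrix.fromBlocks U 0 (Matrix.of fun k j => τ k * e (p j (v k)))
      (Matrix.diagonal fun k => e (v k))
  have hA : (Matrix.of fun k l => E l ((Sum.elim (fun j => e (x j)) (fun k => τ k * e (v k)) :
        Fin n ⊕ Fin m → Ω) k)) =
      A * (Matrix.of fun k l => E l ((Sum.elim (fun j => e (y j)) τ : Fin n ⊕ Fin m → Ω) k)) := by
    ext k l
    rw [Matrix.mul_apply, Fintype.sum_sum_type]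
    rcases k with k | k
    · simp only [Matrix.of_apply, Sum.elim_inl, Sum.elim_inr, A, U, Matrix.fromBlocks_apply₁₁,
        Matrix.fromBlocks_apply₁₂, Matrix.zero_apply, zero_mul, Finset.sum_const_zero, add_zero]
      rw [hexp]
      exact Finset.sum_congr rfl fun j _ => mul_comm _ _
    · simp only [Matrix.of_apply, Sum.elim_inl, Sum.elim_inr, A, Matrix.fromBlocks_apply₂₁,
        Matrix.fromBlocks_apply₂₂, Matrix.diagonal_apply, ite_mul, zero_mul, Finset.sum_ite_eq,
        Finset.mem_univ, if_true]
      rw [Derivation.leibniz, smul_eq_mul, smul_eq_mul, hexp, Finset.mul_sum]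
      congr 1
      exact Finset.sum_congr rfl fun j _ => by ring
  have hdetA : A.det = U.det * ∏ k, e (v k) := by
    rw [Matrix.det_fromBlocks_zero₁₂, Matrix.det_diagonal]
  have hU : e (Matrix.of fun i j => b i (x j)).det =
      e (Matrix.of fun i j => b i (y j)).det * U.det := by
    rw [hp2 x, map_mul]
    congr 1
    rw [← AlgHom.coe_toRingHom, RingHom.map_det, ← Matrix.det_transpose]
    congr 1
  rw [hA, Matrix.det_mul, hdetA, hU]
  ring

/-- If a separating family and further elements have linearly dependent derivatives, there is a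
nonzero combination of the derivations which kills the subfield and the further elements. -/
theorem exists_killing {m : ℕ} (e : K →ₐ[ℂ] Ω) (E : Fin n ⊕ Fin m → Derivation ℂ Ω Ω)
    (y : Fin n → K) (hy : (Matrix.of fun i j => b i (y j)).det ≠ 0) (τ : Fin m → Ω)
    (h : (Matrix.of fun k l => E l ((Sum.elim (fun j => e (y j)) τ : Fin n ⊕ Fin m → Ω) k)).det = 0) :
    ∃ c : Fin n ⊕ Fin m → Ω, c ≠ 0 ∧ (∀ x : K, ∑ l, c l * E l (e x) = 0) ∧
      ∀ k, ∑ l, c l * E l (τ k) = 0 := by
  classical
  obtain ⟨c, hc, hc0⟩ := Matrix.exists_mulVec_eq_zero_iff.2 h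
  have h1 : ∀ k, ∑ l, c l * E l ((Sum.elim (fun j => e (y j)) τ : Fin n ⊕ Fin m → Ω) k) = 0 := by
    intro k
    have h2 := congrFun hc0 k
    simp only [Matrix.mulVec, dotProduct, Matrix.of_apply, Pi.zero_apply] at h2
    rw [← h2]
    exact Finset.sum_congr rfl fun l _ => mul_comm _ _
  refine ⟨c, hc, ?_, fun k => h1 (Sum.inr k)⟩
  have h3 : IsDer e (fun x => ∑ l, c l * E l (e x)) := by
    refine ⟨fun a a' => ?_, fun a a' => ?_, fun z => ?_⟩
    · simp only [map_add, mul_add, Finset.sum_add_distrib]
    · simp only [map_mul, Derivation.leibniz, smul_eq_mul, mul_add, Finset.sum_add_distrib,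
        Finset.mul_sum]
      congr 1 <;> exact Finset.sum_congr rfl fun l _ => by ring
    · simp
  exact fun x => h3.eq_zero b y hy (fun j => h1 (Sum.inl j)) x

/-- a subalgebra with fraction field `K` contains a separating family -/
theorem exists_separating (R : Subalgebra ℂ K) (hR : ∀ z : K, ∃ a ∈ R, ∃ s ∈ R, s ≠ 0 ∧ z * s = a) :
    ∃ y : Fin n → K, (∀ j, y j ∈ R) ∧ (Matrix.of fun i j => b i (y j)).det ≠ 0 := by
  classical
  obtain ⟨κ, hκ⟩ := exists_minor (fun (x : R) (i : Fin n) => b i (x : K)) (by
    intro c hc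
    have hzero : ∀ z : K, ∑ k, c k * b k z = 0 := by
      intro z
      obtain ⟨a, ha, s, hs, hs0, hz⟩ := hR z
      have h1 := hc ⟨a, ha⟩
      have h2 := hc ⟨s, hs⟩
      simp only at h1 h2
      have h3 : ∑ k, c k * b k a = z * ∑ k, c k * b k s + s * ∑ k, c k * b k z := by
        rw [← hz, Finset.mul_sum, Finset.mul_sum, ← Finset.sum_add_distrib]
        refine Finset.sum_congr rfl fun k _ => ?_
        rw [Derivation.leibniz, smul_eq_mul, smul_eq_mul]
        ring
      rw [h1, h2, mul_zero, zero_add] at h3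
      exact (mul_eq_zero.1 h3.symm).resolve_left hs0
    have h4 : ∑ k, c k • b k = 0 := by
      ext z
      rw [der_sum_apply]
      exact hzero z
    have h5 := Fintype.linearIndependent_iff.1 b.linearIndependent c h4
    funext k
    exact h5 k)
  refine ⟨fun j => κ j, fun j => (κ j).2, ?_⟩
  rw [← Matrix.det_transpose]
  exact hκ

end Pool.Agent.Run7.H918
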