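import Pool.Agent.Run7.h918.HF
import Pool.Agent.Run7.h918.Core

/-!
Homogeneous units, relevant primes and the prime ideals of torus orbits.
-/

set_option autoImplicit false

namespace Pool.Agent.Run7.H918

open Finset MvPolynomial

variable {ρ r s : ℕ} {Ω : Type} [Field Ω] [Algebra ℂ Ω]

/-- homogeneous units of degree `d` at `p` -/
def HU (w : Fin r → Fin ρ → ℤ) (t : Fin r → Ω) (p : Ideal (MvPolynomial (Fin r) ℂ))
    (d : Fin ρ → ℤ) (z : Ω) : Prop :=
  z ≠ 0 ∧ HF w t p d z ∧ HF w t p (-d) z⁻¹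

section

variable {w : Fin r → Fin ρ → ℤ} {t : Fin r → Ω} {p : Ideal (MvPolynomial (Fin r) ℂ)}

theorem HU.mul (hp : p.IsPrime) {d d' : Fin ρ → ℤ} {z z' : Ω} (hz : HU w t p d z)
    (hz' : HU w t p d' z') : HU w t p (d + d') (z * z') := by
  refine ⟨mul_ne_zero hz.1 hz'.1, hz.2.1.mul hp hz'.2.1, ?_⟩
  rw [mul_inv, neg_add]
  exact hz.2.2.mul hp hz'.2.2

theorem HU.inv {d : Fin ρ → ℤ} {z : Ω} (hz : HU w t p d z) : HU w t p (-d) z⁻¹ := by
  refine ⟨inv_ne_zero hz.1, hz.2.2, ?_⟩
  rw [neg_neg, inv_inv]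
  exact hz.2.1

theorem HU.one (hp : p.IsPrime) : HU w t p 0 (1 : Ω) :=
  ⟨one_ne_zero, HF.one hp, by rw [neg_zero, inv_one]; exact HF.one hp⟩

theorem HU.pow (hp : p.IsPrime) {d : Fin ρ → ℤ} {z : Ω} (hz : HU w t p d z) (n : ℕ) :
    HU w t p (n • d) (z ^ n) := by
  induction n with
  | zero => rw [zero_smul, pow_zero]; exact HU.one hp
  | succ n ih => rw [succ_nsmul, pow_succ]; exact ih.mul hp hz

theorem HU.zpow (hp : p.IsPrime) {d : Fin ρ → ℤ} {z : Ω} (hz : HU w t p d z) (n : ℤ) :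
    HU w t p (n • d) (z ^ n) := by
  obtain ⟨m, rfl | rfl⟩ := n.eq_nat_or_neg
  · rw [natCast_zsmul, zpow_natCast]
    exact hz.pow hp m
  · rw [neg_smul, natCast_zsmul, zpow_neg, zpow_natCast]
    exact (hz.pow hp m).inv

theorem HU.prod (hp : p.IsPrime) {ι : Type*} (s : Finset ι) {d : ι → Fin ρ → ℤ} {z : ι → Ω}
    (hz : ∀ i ∈ s, HU w t p (d i) (z i)) : HU w t p (∑ i ∈ s, d i) (∏ i ∈ s, z i) := by
  classical
  induction s using Finset.induction_on with
  | empty => rw [Finset.prod_empty, Finset.sum_empty]; exact HU.one hp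
  | insert a s ha ih =>
    rw [Finset.prod_insert ha, Finset.sum_insert ha]
    exact (hz a (Finset.mem_insert_self _ _)).mul hp
      (ih fun i hi => hz i (Finset.mem_insert_of_mem hi))

theorem HU.of_poly (hp : p.IsPrime) (hker : ∀ f : MvPolynomial (Fin r) ℂ, aeval t f = 0 → f ∈ p)
    {d : Fin ρ → ℤ} {f : MvPolynomial (Fin r) ℂ}
    (hf : f.IsWeightedHomogeneous w d) (hfp : f ∉ p) : HU w t p d (aeval t f) :=
  ⟨aeval_ne hker hfp, HF.of_poly hp hf,
    HF.inv (b := 0) hker (by rwa [zero_add]) (isWeightedHomogeneous_one ℂ w) hfp (by simp)⟩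

/-- if the weights of the coordinates outside `p` generate `ℤ^ρ`, there are units of all degrees -/
theorem exists_unit (hp : p.IsPrime) (hker : ∀ f : MvPolynomial (Fin r) ℂ, aeval t f = 0 → f ∈ p)
    (h : AddSubgroup.closure {v | ∃ i, X i ∉ p ∧ v = w i} = ⊤) (v : Fin ρ → ℤ) :
    ∃ z : Ω, HU w t p v z := by
  have hv : v ∈ AddSubgroup.closure {v | ∃ i, X i ∉ p ∧ v = w i} := h ▸ AddSubgroup.mem_top v
  induction hv using AddSubgroup.closure_induction with
  | mem x hx =>
    obtain ⟨i, hi, rfl⟩ := hx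
    exact ⟨_, HU.of_poly hp hker (isWeightedHomogeneous_X ℂ w i) hi⟩
  | zero => exact ⟨1, HU.one hp⟩
  | add x y _ _ hx hy =>
    obtain ⟨z, hz⟩ := hx
    obtain ⟨z', hz'⟩ := hy
    exact ⟨z * z', hz.mul hp hz'⟩
  | neg x _ hx =>
    obtain ⟨z, hz⟩ := hx
    exact ⟨z⁻¹, hz.inv⟩

/-- products of powers of units of degrees the basis vectors -/
theorem HU.monomial (hp : p.IsPrime) {τ : Fin ρ → Ω}
    (hτ : ∀ k, HU w t p (Pi.single k 1) (τ k)) (v : Fin ρ → ℤ) :
    HU w t p v (∏ k, τ k ^ v k) := by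
  have h1 := HU.prod hp Finset.univ (d := fun k => v k • Pi.single k (1 : ℤ))
    (z := fun k => τ k ^ v k) (fun k _ => (hτ k).zpow hp (v k))
  have h2 : ∑ k, v k • Pi.single k (1 : ℤ) = v := by
    ext j
    simp only [Finset.sum_apply, Pi.smul_apply, Pi.single_apply, smul_eq_mul, mul_ite, mul_one,
      mul_zero, Finset.sum_ite_eq, Finset.mem_univ, if_true]
  rw [h2] at h1
  exact h1

end

namespace CoxData

variable (D : CoxData ρ r s)

/-- at a relevant prime the weights of the coordinates outside it generate `ℤ^ρ` -/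
theorem closure_relevant (hD : D.IsGood) {p : Ideal (MvPolynomial (Fin r) ℂ)} (hp : D.Relevant p) :
    AddSubgroup.closure {v | ∃ i, X i ∉ p ∧ v = D.w i} = ⊤ := by
  classical
  obtain ⟨h1, h2, -, h4⟩ := hp
  have hP : (∏ i ∈ Finset.univ.filter fun i => X i ∉ p, (X i : MvPolynomial (Fin r) ℂ)) ∉ p := by
    intro h
    obtain ⟨i, hi, hm⟩ := (h1.prod_mem_iff).1 h
    exact (Finset.mem_filter.1 hi).2 hm
  obtain ⟨y, hy, hyne⟩ : ∃ y : Fin r → ℂ, (∀ f ∈ p, eval y f = 0) ∧
      eval y (∏ i ∈ Finset.univ.filter fun i => X i ∉ p, (X i : MvPolynomial (Fin r) ℂ)) ≠ 0 := by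
    by_contra hcon
    push Not at hcon
    apply hP
    have h5 := MvPolynomial.IsPrime.vanishingIdeal_zeroLocus (K := ℂ) p
    generalize (∏ i ∈ Finset.univ.filter fun i => X i ∉ p, (X i : MvPolynomial (Fin r) ℂ)) = P
      at hcon ⊢
    rw [← h5, mem_vanishingIdeal_iff]
    intro x hx
    rw [mem_zeroLocus_iff] at hx
    rw [MvPolynomial.aeval_eq_eval]
    exact hcon x fun f hf => by
      have := hx f hf
      rwa [MvPolynomial.aeval_eq_eval] at this
  rw [map_prod, Finset.prod_ne_zero_iff] at hyne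
  have hiff : ∀ i, y i ≠ 0 ↔ X i ∉ p := by
    intro i
    constructor
    · intro hne hm
      have := hy _ hm
      rw [eval_X] at this
      exact hne this
    · intro hm
      have := hyne i (by simp [hm])
      rwa [eval_X] at this
  have hys : y ∈ D.semistable := by
    refine ⟨fun j => hy _ (h2 (Ideal.subset_span ⟨j, rfl⟩)), h4.mono fun i hi => (hiff i).2 hi⟩
  have h6 := hD.free y hys
  have h7 : {v | ∃ i, X i ∉ p ∧ v = D.w i} = {v | ∃ i, y i ≠ 0 ∧ v = D.w i} := by
    ext v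
    simp only [Set.mem_ofPred_eq, hiff]
  rw [h7]
  exact h6

/-- the homomorphism to the group algebra that describes the orbit of `y` -/
noncomputable def orb (w : Fin r → Fin ρ → ℤ) (y : Fin r → ℂ) :
    MvPolynomial (Fin r) ℂ →ₐ[ℂ] AddMonoidAlgebra ℂ (Fin ρ → ℤ) :=
  aeval fun i => AddMonoidAlgebra.single (w i) (y i)

theorem orb_monomial (w : Fin r → Fin ρ → ℤ) (y : Fin r → ℂ) (a : Fin r →₀ ℕ) (c : ℂ) :
    orb w y (monomial a c) = AddMonoidAlgebra.single (Finsupp.weight w a) (eval y (monomial a c)) := by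
  rw [orb, aeval_monomial, eval_monomial, weight_eq, Finsupp.prod_fintype _ _ (fun i => pow_zero _),
    Finsupp.prod_fintype _ _ (fun i => pow_zero _)]
  have h1 : ∀ i, (AddMonoidAlgebra.single (w i) (y i) : AddMonoidAlgebra ℂ (Fin ρ → ℤ)) ^ a i =
      AddMonoidAlgebra.single (a i • w i) (y i ^ a i) := fun i =>
    AddMonoidAlgebra.single_pow _ _ _
  simp only [h1]
  have h2 : ∀ S : Finset (Fin r), ∏ i ∈ S, (AddMonoidAlgebra.single (a i • w i) (y i ^ a i) :
      AddMonoidAlgebra ℂ (Fin ρ → ℤ)) =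
      AddMonoidAlgebra.single (∑ i ∈ S, a i • w i) (∏ i ∈ S, y i ^ a i) := by
    intro S
    classical
    induction S using Finset.induction_on with
    | empty => rfl
    | insert b S hb ih =>
      rw [Finset.prod_insert hb, Finset.sum_insert hb, Finset.prod_insert hb, ih,
        AddMonoidAlgebra.single_mul_single]
  rw [h2, ← Algebra.smul_def, AddMonoidAlgebra.smul_single, smul_eq_mul]

theorem orb_homogeneous (w : Fin r → Fin ρ → ℤ) (y : Fin r → ℂ) {f : MvPolynomial (Fin r) ℂ}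
    {d : Fin ρ → ℤ} (hf : f.IsWeightedHomogeneous w d) :
    orb w y f = AddMonoidAlgebra.single d (eval y f) := by
  classical
  rw [f.as_sum, map_sum, map_sum]
  have h1 : ∀ a ∈ f.support, orb w y (monomial a (coeff a f)) =
      AddMonoidAlgebra.single d (eval y (monomial a (coeff a f))) := by
    intro a ha
    rw [orb_monomial, hf (by simpa using ha)]
  rw [Finset.sum_congr rfl h1]
  have h2 : ∀ (S : Finset (Fin r →₀ ℕ)) (F : (Fin r →₀ ℕ) → ℂ),
      ∑ a ∈ S, (AddMonoidAlgebra.single d (F a) : AddMonoidAlgebra ℂ (Fin ρ → ℤ)) =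
        AddMonoidAlgebra.single d (∑ a ∈ S, F a) := by
    intro S F
    induction S using Finset.induction_on with
    | empty => simp
    | insert b S hb ih => rw [Finset.sum_insert hb, Finset.sum_insert hb, ih,
        AddMonoidAlgebra.single_add]
  rw [h2]

theorem orb_coeff (w : Fin r → Fin ρ → ℤ) (y : Fin r → ℂ) (f : MvPolynomial (Fin r) ℂ)
    (d : Fin ρ → ℤ) :
    (orb w y f).coeff d = eval y (weightedHomogeneousComponent w d f) := by
  classical
  induction f using MvPolynomial.induction_on' with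
  | monomial a c =>
    rw [orb_monomial]
    by_cases h : Finsupp.weight w a = d
    · rw [(isWeightedHomogeneous_monomial w a c h).weightedHomogeneousComponent_same, h]
      simp
    · rw [(isWeightedHomogeneous_monomial w a c rfl).weightedHomogeneousComponent_ne d (Ne.symm h)]
      simp [h]
  | add f g hf hg =>
    rw [map_add, map_add, map_add, ← hf, ← hg]
    simp

theorem exists_orbit_prime (hD : D.IsGood) {y : Fin r → ℂ} (hy : y ∈ D.semistable) :
    ∃ p, D.Relevant p ∧ ∀ i, X i ∈ p ↔ y i = 0 := by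
  classical
  have hX : ∀ i, (X i : MvPolynomial (Fin r) ℂ) ∈ RingHom.ker (orb D.w y) ↔ y i = 0 := by
    intro i
    rw [RingHom.mem_ker, orb_homogeneous D.w y (isWeightedHomogeneous_X ℂ D.w i), eval_X]
    simp
  refine ⟨RingHom.ker (orb D.w y), ⟨RingHom.ker_isPrime _, ?_, ?_, ?_⟩, hX⟩
  · rw [CoxData.ideal, Ideal.span_le]
    rintro _ ⟨j, rfl⟩
    rw [SetLike.mem_coe, RingHom.mem_ker, orb_homogeneous D.w y (hD.homog j), hy.1 j]
    simp
  · intro f hf d
    rw [RingHom.mem_ker] at hf ⊢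
    rw [orb_homogeneous D.w y (weightedHomogeneousComponent_isWeightedHomogeneous d f),
      ← orb_coeff, hf]
    simp
  · refine hy.2.mono fun i hi => ?_
    show X i ∉ RingHom.ker (orb D.w y)
    rw [hX]
    exact hi

end CoxData

end Pool.Agent.Run7.H918
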