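import Pool.Agent.Run7.h918.KDer
import Pool.Agent.Run7.h918.Points
import Pool.Agent.Run7.h918.Cases

/-!
The adjunction formula in homogeneous coordinates: homogeneous elements of weight `m u` give
sections of `O_X(-m K_X)`.
-/

set_option autoImplicit false

namespace Pool.Agent.Run7.H918

open Finset MvPolynomial Pool.Agent.Helper774.KSing

variable {ρ r s : ℕ}

namespace CoxData

variable {D : CoxData ρ r s}

namespace Presentation

variable {X : Variety} (P : D.Presentation X)

include P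

theorem ker_iff (f : MvPolynomial (Fin r) ℂ) : aeval P.t f = 0 ↔ f ∈ D.ideal := by
  rw [← P.ker, RingHom.mem_ker]

theorem ideal_prime : D.ideal.IsPrime := by
  rw [← P.ker]
  exact RingHom.ker_isPrime _

theorem ker_of_relevant {p : Ideal (MvPolynomial (Fin r) ℂ)} (hp : D.Relevant p)
    (f : MvPolynomial (Fin r) ℂ) (hf : aeval P.t f = 0) : f ∈ p :=
  hp.2.1 ((P.ker_iff f).1 hf)

theorem exists_of_hf {z : P.Ω} (hz : HF D.w P.t D.ideal 0 z) : ∃ a : X.K, P.e a = z := by
  obtain ⟨b, f, h, h1, h2, h3, h4⟩ := hz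
  rw [add_zero] at h1
  exact (P.range z).2 ⟨b, f, h, h1, h2, h3, h4⟩

theorem hf_of_range (a : X.K) : HF D.w P.t D.ideal 0 (P.e a) := by
  obtain ⟨b, f, h, h1, h2, h3, h4⟩ := (P.range (P.e a)).1 ⟨a, rfl⟩
  exact ⟨b, f, h, by rwa [add_zero], h2, h3, h4⟩

theorem points_iff (A : Set X.K) : A ∈ X.points ↔ ∃ p, D.Relevant p ∧
    A = {z | HF D.w P.t p 0 (P.e z)} := by
  rw [P.points]
  refine exists_congr fun p => and_congr_right fun _ => ?_
  have : {z | ∃ (d : Fin ρ → ℤ) (f h : MvPolynomial (Fin r) ℂ),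
      f.IsWeightedHomogeneous D.w d ∧ h.IsWeightedHomogeneous D.w d ∧ h ∉ p ∧
        P.e z * aeval P.t h = aeval P.t f} = {z | HF D.w P.t p 0 (P.e z)} := by
    ext z
    constructor
    · rintro ⟨d, f, h, h1, h2, h3, h4⟩
      exact ⟨d, f, h, by rwa [add_zero], h2, h3, h4⟩
    · rintro ⟨d, f, h, h1, h2, h3, h4⟩
      rw [add_zero] at h1
      exact ⟨d, f, h, h1, h2, h3, h4⟩
  rw [this]

/-- The residue of the canonical form of the homogeneous coordinates. -/
theorem exists_adjunction (hD : D.IsGood) (hr : 0 < r) :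
    ∃ c : P.Ω, c ≠ 0 ∧ HF D.w P.t D.ideal (-D.u) c ∧
      ∀ p, D.Relevant p → ∀ x : Fin X.dim → X.K, (∀ j, HF D.w P.t p 0 (P.e (x j))) →
        HF D.w P.t p (-D.u) (c * P.e (X.jac x)) := by
  classical
  have hI := P.ideal_prime
  have hkI : ∀ f : MvPolynomial (Fin r) ℂ, aeval P.t f = 0 → f ∈ D.ideal := fun f =>
    (P.ker_iff f).1
  have hg0 : ∀ j, aeval P.t (D.g j) = 0 := fun j =>
    (P.ker_iff _).2 (Ideal.subset_span ⟨j, rfl⟩)
  obtain ⟨y0, hy0⟩ := D.semistable_nonempty hD hr
  -- the minor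
  obtain ⟨κ, hκ⟩ := exists_minor (fun (i : Fin r) (j : Fin s) =>
      (eval y0 (pderiv i (D.g j)) : ℂ)) (by
    intro c hc
    have h1 := Fintype.linearIndependent_iff.1 (hD.smooth y0 hy0) c (by
      funext i
      simp only [Finset.sum_apply, Pi.smul_apply, smul_eq_mul, Pi.zero_apply]
      exact hc i)
    exact funext h1)
  have hκinj : Function.Injective κ := by
    intro j j' hjj
    by_contra hne
    apply hκ
    exact Matrix.det_zero_of_row_eq hne (by
      funext l
      simp only [Matrix.of_apply, hjj])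
  obtain ⟨σ, hσ⟩ := exists_sigma (q := Fin X.dim ⊕ Fin ρ) κ hκinj (by
    rw [Fintype.card_sum, Fintype.card_fin, Fintype.card_fin]
    exact P.dim)
  have hM : (Matrix.of fun j j' => aeval P.t (pderiv (σ (Sum.inr j')) (D.g j)) :
      Matrix (Fin s) (Fin s) P.Ω).det ≠ 0 := by
    intro h0
    let N : Matrix (Fin s) (Fin s) (MvPolynomial (Fin r) ℂ) :=
      Matrix.of fun j j' => pderiv (σ (Sum.inr j')) (D.g j)
    have h1 : aeval P.t N.det = 0 := by
      rw [← h0, ← AlgHom.coe_toRingHom, RingHom.map_det]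
      congr 1
    have h2 : eval y0 N.det = 0 := by
      have h3 : D.ideal ≤ RingHom.ker (eval y0) := by
        rw [CoxData.ideal, Ideal.span_le]
        rintro _ ⟨j, rfl⟩
        exact hy0.1 j
      exact h3 (hkI _ h1)
    apply hκ
    rw [← Matrix.det_transpose, ← h2, RingHom.map_det]
    congr 1
    ext j j'
    simp only [Matrix.transpose_apply, Matrix.of_apply, RingHom.mapMatrix_apply, Matrix.map_apply,
      N, hσ]
  set M : P.Ω := (Matrix.of fun j j' => aeval P.t (pderiv (σ (Sum.inr j')) (D.g j)) :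
      Matrix (Fin s) (Fin s) P.Ω).det with hMdef
  obtain ⟨E, hE⟩ := exists_E P.t P.frac D.g hkI hg0 σ hM
  -- a separating family
  obtain ⟨y, -, hy⟩ := exists_separating X.der ⊤ (fun z =>
    ⟨z, trivial, 1, trivial, one_ne_zero, mul_one z⟩)
  have hjy : X.jac y ≠ 0 := hy
  have hejy : P.e (X.jac y) ≠ 0 := by
    intro h
    exact hjy (P.e.toRingHom.injective (by rw [map_zero]; exact h))
  -- units
  have hcl : AddSubgroup.closure {v | ∃ i, (MvPolynomial.X i : MvPolynomial (Fin r) ℂ) ∉ D.ideal ∧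
      v = D.w i} = ⊤ := by
    rw [eq_top_iff, ← hD.free y0 hy0]
    apply AddSubgroup.closure_mono
    rintro _ ⟨i, -, rfl⟩
    exact ⟨i, (hD.coord i).1, rfl⟩
  choose τ hτ using fun k : Fin ρ => exists_unit (w := D.w) (t := P.t) hI hkI hcl
    (Pi.single k (1 : ℤ))
  have hprodτ : HU D.w P.t D.ideal (∑ k, Pi.single k (1 : ℤ)) (∏ k, τ k) :=
    HU.prod hI _ fun k _ => hτ k
  let W : (Fin X.dim → X.K) → (Fin ρ → P.Ω) → P.Ω := fun x τ =>
    (Matrix.of fun k l => E l ((Sum.elim (fun j => P.e (x j)) τ : Fin X.dim ⊕ Fin ρ → P.Ω) k)).det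
  -- homogeneity of `W`
  have hWh : ∀ p : Ideal (MvPolynomial (Fin r) ℂ), p.IsPrime →
      (∀ f : MvPolynomial (Fin r) ℂ, aeval P.t f = 0 → f ∈ p) →
      ∀ (x : Fin X.dim → X.K) (τ' : Fin ρ → P.Ω), (∀ j, HF D.w P.t p 0 (P.e (x j))) →
      (∀ k, HF D.w P.t p (Pi.single k 1) (τ' k)) →
      HF D.w P.t p (∑ k, Pi.single k (1 : ℤ) - D.u) (W x τ' * M) := by
    intro p hp hkp x τ' hx hτ'
    have h1 := HF.det_derivatives hp hkp σ D.g D.μ hD.homog hg0 E hE
      (Sum.elim (fun j => P.e (x j)) τ') (Sum.elim (fun _ => 0) (fun k => Pi.single k 1)) (by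
        rintro (j | k)
        · exact hx j
        · exact hτ' k)
    rw [Fintype.sum_sum_type] at h1
    simp only [Sum.elim_inl, Sum.elim_inr, Finset.sum_const_zero, zero_add] at h1
    have h2 : ∑ k, Pi.single k (1 : ℤ) + ∑ j, D.μ j - ∑ i, D.w i =
        ∑ k, Pi.single k (1 : ℤ) - D.u := by
      rw [CoxData.u]
      abel
    rw [h2] at h1
    exact h1
  have hW0 : W y τ ≠ 0 := by
    intro h0
    obtain ⟨c, hc0, hc1, hc2⟩ := exists_killing X.der P.e E y hy τ h0
    apply hc0
    -- the constants of the combination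
    have hmul : ∀ a b : P.Ω, ∑ l, c l * E l a = 0 → ∑ l, c l * E l b = 0 →
        ∑ l, c l * E l (a * b) = 0 := by
      intro a b ha hb
      simp only [Derivation.leibniz, smul_eq_mul, mul_add, Finset.sum_add_distrib]
      have e1 : ∑ l, c l * (a * E l b) = a * ∑ l, c l * E l b := by
        rw [Finset.mul_sum]
        exact Finset.sum_congr rfl fun l _ => by ring
      have e2 : ∑ l, c l * (b * E l a) = b * ∑ l, c l * E l a := by
        rw [Finset.mul_sum]
        exact Finset.sum_congr rfl fun l _ => by ring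
      rw [e1, e2, ha, hb, mul_zero, mul_zero, add_zero]
    have hinv : ∀ a : P.Ω, ∑ l, c l * E l a = 0 → ∑ l, c l * E l a⁻¹ = 0 := by
      intro a ha
      by_cases ha0 : a = 0
      · rw [ha0, inv_zero]
        simp
      · have e1 : ∑ l, c l * E l (a * a⁻¹) = 0 := by
          rw [mul_inv_cancel₀ ha0]
          simp
        simp only [Derivation.leibniz, smul_eq_mul, mul_add, Finset.sum_add_distrib] at e1
        have e2 : ∑ l, c l * (a * E l a⁻¹) = a * ∑ l, c l * E l a⁻¹ := by
          rw [Finset.mul_sum]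
          exact Finset.sum_congr rfl fun l _ => by ring
        have e3 : ∑ l, c l * (a⁻¹ * E l a) = a⁻¹ * ∑ l, c l * E l a := by
          rw [Finset.mul_sum]
          exact Finset.sum_congr rfl fun l _ => by ring
        rw [e2, e3, ha, mul_zero, add_zero] at e1
        exact (mul_eq_zero.1 e1).resolve_left ha0
    have hone : ∑ l, c l * E l (1 : P.Ω) = 0 := by simp
    have hpow : ∀ (a : P.Ω) (n : ℕ), ∑ l, c l * E l a = 0 → ∑ l, c l * E l (a ^ n) = 0 := by
      intro a n ha
      induction n with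
      | zero => rw [pow_zero]; exact hone
      | succ n ih => rw [pow_succ]; exact hmul _ _ ih ha
    have hzpow : ∀ (a : P.Ω) (n : ℤ), ∑ l, c l * E l a = 0 → ∑ l, c l * E l (a ^ n) = 0 := by
      intro a n ha
      obtain ⟨m, rfl | rfl⟩ := n.eq_nat_or_neg
      · rw [zpow_natCast]
        exact hpow a m ha
      · rw [zpow_neg, zpow_natCast]
        exact hinv _ (hpow a m ha)
    have hprod : ∀ (S : Finset (Fin ρ)) (f : Fin ρ → P.Ω), (∀ k, ∑ l, c l * E l (f k) = 0) →
        ∑ l, c l * E l (∏ k ∈ S, f k) = 0 := by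
      intro S f hf
      induction S using Finset.induction_on with
      | empty => rw [Finset.prod_empty]; exact hone
      | insert b S hb ih => rw [Finset.prod_insert hb]; exact hmul _ _ (hf b) ih
    have ht : ∀ i, ∑ l, c l * E l (P.t i) = 0 := by
      intro i
      have hu := HU.monomial hI hτ (D.w i)
      have hti : HF D.w P.t D.ideal (D.w i) (P.t i) := by
        have := HF.of_poly (t := P.t) hI (isWeightedHomogeneous_X ℂ D.w i)
        rwa [aeval_X] at this
      have h1 : HF D.w P.t D.ideal 0 (P.t i * (∏ k, τ k ^ D.w i k)⁻¹) := by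
        have := hti.mul hI hu.2.2
        rwa [add_neg_cancel] at this
      obtain ⟨a, ha⟩ := P.exists_of_hf h1
      have h2 : P.t i = P.e a * ∏ k, τ k ^ D.w i k := by
        rw [ha, mul_assoc, inv_mul_cancel₀ hu.1, mul_one]
      rw [h2]
      exact hmul _ _ (hc1 a) (hprod _ _ fun k => hzpow _ _ (hc2 k))
    funext l
    have h1 := ht (σ (Sum.inl l))
    simp only [hE, mul_ite, mul_one, mul_zero] at h1
    rw [Finset.sum_ite_eq' Finset.univ l] at h1
    simpa using h1
  -- the constant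
  have hprod0 : ∏ k, τ k ≠ 0 := hprodτ.1
  refine ⟨W y τ * M * (∏ k, τ k)⁻¹ * (P.e (X.jac y))⁻¹, ?_, ?_, ?_⟩
  · exact mul_ne_zero (mul_ne_zero (mul_ne_zero hW0 hM) (inv_ne_zero hprod0)) (inv_ne_zero hejy)
  · have h1 := hWh D.ideal hI hkI y τ (fun j => P.hf_of_range _) (fun k => (hτ k).2.1)
    have h2 := h1.mul hI hprodτ.2.2
    have h3 := h2.mul hI ((P.hf_of_range (X.jac y)).inv_ker P.ker_iff hejy)
    have h4 : ∑ k, Pi.single k (1 : ℤ) - D.u + -∑ k, Pi.single k (1 : ℤ) + -0 = -D.u := by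
      abel
    rwa [h4] at h3
  · intro p hp x hx
    have hpp := hp.1
    have hkp := P.ker_of_relevant hp
    choose τ' hτ' using fun k : Fin ρ => exists_unit (w := D.w) (t := P.t) hpp hkp
      (D.closure_relevant hD hp) (Pi.single k (1 : ℤ))
    have hprod' : HU D.w P.t p (∑ k, Pi.single k (1 : ℤ)) (∏ k, τ' k) :=
      HU.prod hpp _ fun k _ => hτ' k
    -- compare the units
    have hv : ∀ k, ∃ v : X.K, P.e v = τ' k * (τ k)⁻¹ := by
      intro k
      apply P.exists_of_hf
      have h1 := ((hτ' k).2.1.mono hp.2.1).mul hI (hτ k).2.2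
      rwa [add_neg_cancel] at h1
    choose v hv using hv
    have hτv : τ' = fun k => τ k * P.e (v k) := by
      funext k
      rw [hv, mul_comm (τ' k), ← mul_assoc, mul_inv_cancel₀ (hτ k).1, one_mul]
    have h1 := det_transform X.der P.e E y x hy τ v
    have h2 : W x τ' * P.e (X.jac y) = W y τ * P.e (X.jac x) * ∏ k, P.e (v k) := by
      simp only [W]
      rw [hτv]
      exact h1
    have h3 : ∏ k, τ' k = (∏ k, τ k) * ∏ k, P.e (v k) := by
      rw [hτv, Finset.prod_mul_distrib]
    have h4 : W y τ * M * (∏ k, τ k)⁻¹ * (P.e (X.jac y))⁻¹ * P.e (X.jac x) =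
        W x τ' * M * (∏ k, τ' k)⁻¹ := by
      have h5 : ∏ k, P.e (v k) ≠ 0 := by
        intro h
        rw [h3, h, mul_zero] at hprod'
        exact hprod'.1 rfl
      rw [h3]
      field_simp
      linear_combination (-1 : P.Ω) * h2
    rw [h4]
    have h6 := (hWh p hpp hkp x τ' hx (fun k => (hτ' k).2.1)).mul hpp hprod'.2.2
    have h7 : ∑ k, Pi.single k (1 : ℤ) - D.u + -∑ k, Pi.single k (1 : ℤ) = -D.u := by
      abel
    rwa [h7] at h6

end Presentation

end CoxData

end Pool.Agent.Run7.H918
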