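import Pool.Agent.Run7.h918.Wall3

/-!
Walls of a chamber for a family of cones that is closed under taking faces.
-/

set_option autoImplicit false

namespace Pool.Agent.Run7.H918

open Finset

variable {ρ r : ℕ}

/-- rational cone membership -/
def Cn (z : Fin r → Fin ρ → ℚ) (Q : Set (Fin r)) (x : Fin ρ → ℚ) : Prop :=
  ∃ q : Fin r → ℚ, (∀ i, 0 ≤ q i) ∧ (∀ i, q i ≠ 0 → i ∈ Q) ∧ ∑ i, q i • z i = x

theorem Cn.of_dual {z : Fin r → Fin ρ → ℚ} {β : Fin ρ → Fin r}
    {c : Fin ρ → ((Fin ρ → ℚ) →ₗ[ℚ] ℚ)} (h : IsDual z β c) {x : Fin ρ → ℚ}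
    (hx : ∀ k, 0 ≤ c k x) {Q : Set (Fin r)} (hQ : ∀ k, c k x ≠ 0 → β k ∈ Q) : Cn z Q x := by
  classical
  refine ⟨fun m => ∑ k, if β k = m then c k x else 0, ?_, ?_, ?_⟩
  · intro m
    refine Finset.sum_nonneg fun k _ => ?_
    split_ifs
    · exact hx k
    · exact le_rfl
  · intro m hm
    obtain ⟨k, -, hk⟩ := Finset.exists_ne_zero_of_sum_ne_zero hm
    by_cases hk2 : β k = m
    · rw [if_pos hk2] at hk
      rw [← hk2]
      exact hQ k hk
    · rw [if_neg hk2] at hk
      exact absurd rfl hk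
  · have h5 := h.sum_repr x
    conv_rhs => rw [← h5]
    simp only [Finset.sum_smul]
    rw [Finset.sum_comm]
    refine Finset.sum_congr rfl fun k _ => ?_
    simp only [ite_smul, zero_smul]
    rw [Finset.sum_ite_eq]
    simp

theorem Cn.convex {z : Fin r → Fin ρ → ℚ} {Q : Set (Fin r)} {x y : Fin ρ → ℚ} (hx : Cn z Q x)
    (hy : Cn z Q y) {a b : ℚ} (ha : 0 ≤ a) (hb : 0 ≤ b) : Cn z Q (a • x + b • y) := by
  obtain ⟨q, h1, h2, h3⟩ := hx
  obtain ⟨q', h1', h2', h3'⟩ := hy
  refine ⟨fun i => a * q i + b * q' i, fun i => add_nonneg (mul_nonneg ha (h1 i))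
    (mul_nonneg hb (h1' i)), fun i hi => ?_, ?_⟩
  · by_contra hcon
    apply hi
    have e1 : q i = 0 := by
      by_contra h
      exact hcon (h2 i h)
    have e2 : q' i = 0 := by
      by_contra h
      exact hcon (h2' i h)
    show a * q i + b * q' i = 0
    rw [e1, e2]
    ring
  · rw [← h3, ← h3', Finset.smul_sum, Finset.smul_sum, ← Finset.sum_add_distrib]
    refine Finset.sum_congr rfl fun i _ => ?_
    rw [add_smul, mul_smul, mul_smul]

/-- a point of the cone of a spanning subfamily lies in the cone of a basis contained in it -/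
theorem exists_feasible' (z : Fin r → Fin ρ → ℚ) (Q : Set (Fin r))
    (hz : Submodule.span ℚ (z '' Q) = ⊤) {x : Fin ρ → ℚ} (hx : Cn z Q x) :
    ∃ (β : Fin ρ → Fin r) (c : Fin ρ → ((Fin ρ → ℚ) →ₗ[ℚ] ℚ)), IsDual z β c ∧
      (∀ k, β k ∈ Q) ∧ ∀ k, 0 ≤ c k x := by
  classical
  obtain ⟨q, hq, hqQ, hqx⟩ := hx
  -- restrict the family to `Q`
  let z' : Fin r → Fin ρ → ℚ := fun i => if i ∈ Q then z i else 0
  have hspan : Submodule.span ℚ (Set.range z') = ⊤ := by
    rw [eq_top_iff, ← hz, Submodule.span_le]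
    rintro _ ⟨i, hi, rfl⟩
    exact Submodule.subset_span ⟨i, by simp only [z', if_pos hi]⟩
  obtain ⟨β, c, hc, hnn⟩ := exists_feasible z' hspan q hq
  have hβ : ∀ k, β k ∈ Q := by
    intro k
    by_contra h
    have h1 := hc k k
    simp only [z', if_neg h, map_zero, if_true] at h1
    exact zero_ne_one h1
  have hsum : ∑ i, q i • z' i = x := by
    rw [← hqx]
    refine Finset.sum_congr rfl fun i _ => ?_
    by_cases h : i ∈ Q
    · simp only [z', if_pos h]
    · have : q i = 0 := by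
        by_contra h'
        exact h (hqQ i h')
      rw [this, zero_smul, zero_smul]
  rw [hsum] at hnn
  refine ⟨β, c, fun k l => ?_, hβ, hnn⟩
  have h1 := hc k l
  simp only [z', if_pos (hβ l)] at h1
  exact h1

/-- generic position of the line `p - t v` -/
structure Gen (z : Fin r → Fin ρ → ℚ) (p v : Fin ρ → ℚ) : Prop where
  ne : ∀ β c, IsDual z β c → ∀ k, c k p ≠ 0
  prop : ∀ β c β' c', IsDual z β c → IsDual z β' c' → ∀ k k', c' k' v * c k p = c k v * c' k' p →
    (c' k' v) • c k = (c k v) • c' k'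

theorem Gen.neg {z : Fin r → Fin ρ → ℚ} {p v : Fin ρ → ℚ} (h : Gen z p v) : Gen z p (-v) := by
  refine ⟨h.ne, fun β c β' c' hc hc' k k' h1 => ?_⟩
  rw [map_neg, map_neg] at h1 ⊢
  have h2 := h.prop β c β' c' hc hc' k k' (by linarith)
  rw [neg_smul, neg_smul, h2]

theorem apply_line (f : (Fin ρ → ℚ) →ₗ[ℚ] ℚ) (p v : Fin ρ → ℚ) (t : ℚ) :
    f (p - t • v) = f p - t * f v := by
  rw [map_sub, map_smul, smul_eq_mul]

/-- at an event of one coordinate the other coordinates are nonzero -/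
theorem Gen.ne_zero {z : Fin r → Fin ρ → ℚ} {p v : Fin ρ → ℚ} (h : Gen z p v)
    {β : Fin ρ → Fin r} {c : Fin ρ → ((Fin ρ → ℚ) →ₗ[ℚ] ℚ)} (hc : IsDual z β c) {k l : Fin ρ}
    (hkl : l ≠ k) {t : ℚ} (hk : c k (p - t • v) = 0) : c l (p - t • v) ≠ 0 := by
  intro hl
  rw [apply_line] at hk hl
  have hkv : c k v ≠ 0 := by
    intro h0
    rw [h0, mul_zero, sub_zero] at hk
    exact h.ne β c hc k hk
  have e1 : c k p = t * c k v := by linarith
  have e2 : c l p = t * c l v := by linarith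
  have h1 := h.prop β c β c hc hc l k (by rw [e1, e2]; ring)
  have h2 := congrArg (fun g => g (z (β l))) h1
  simp only [LinearMap.smul_apply, smul_eq_mul] at h2
  rw [hc l l, hc k l, if_pos rfl, if_neg (fun h => hkl h.symm), mul_one, mul_zero] at h2
  exact hkv h2

/-- the exit lemma: where a generic line leaves the cone of a spanning family -/
theorem exit_lemma {z : Fin r → Fin ρ → ℚ} {p v : Fin ρ → ℚ} (hG : Gen z p v) (Q : Set (Fin r))
    (hQ : Submodule.span ℚ (z '' Q) = ⊤) {t1 t2 : ℚ} (h12 : t1 ≤ t2)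
    (h1 : Cn z Q (p - t1 • v)) (h2 : ¬ Cn z Q (p - t2 • v)) :
    ∃ (t : ℚ) (β : Fin ρ → Fin r) (c : Fin ρ → ((Fin ρ → ℚ) →ₗ[ℚ] ℚ)) (k : Fin ρ), t1 ≤ t ∧ t < t2 ∧
      IsDual z β c ∧ (∀ l, β l ∈ Q) ∧ 0 < c k v ∧ c k (p - t • v) = 0 ∧
      (∀ l, l ≠ k → 0 < c l (p - t • v)) ∧ ∀ i ∈ Q, 0 ≤ c k (z i) := by
  classical
  let co : (Fin ρ → Fin r) → Fin ρ → ((Fin ρ → ℚ) →ₗ[ℚ] ℚ) := fun β =>
    if h : ∃ c, IsDual z β c then h.choose else 0
  have hco : ∀ β c, IsDual z β c → co β = c := by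
    intro β c h
    have h1 : ∃ c, IsDual z β c := ⟨c, h⟩
    simp only [co, dif_pos h1]
    exact h1.choose_spec.unique h
  let tm : (Fin ρ → Fin r) × Fin ρ → ℚ := fun y => co y.1 y.2 p / co y.1 y.2 v
  let S : Finset ((Fin ρ → Fin r) × Fin ρ) :=
    Finset.univ.filter fun y => (∃ c, IsDual z y.1 c) ∧ (∀ l, y.1 l ∈ Q) ∧ 0 < co y.1 y.2 v ∧
      t1 ≤ tm y ∧ ∀ l, 0 ≤ co y.1 l (p - tm y • v)
  -- from a feasible basis at time `τ` we get an event at a later time
  have hnext : ∀ (β : Fin ρ → Fin r) (c : Fin ρ → ((Fin ρ → ℚ) →ₗ[ℚ] ℚ)) (τ : ℚ), IsDual z β c →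
      (∀ l, β l ∈ Q) → t1 ≤ τ → τ ≤ t2 → (∀ l, 0 ≤ c l (p - τ • v)) →
      (∃ y ∈ S, y.1 = β ∧ τ ≤ tm y) := by
    intro β c τ hc hβ hτ1 hτ2 hnn
    have hex : ∃ l, 0 < c l v := by
      by_contra hcon
      push Not at hcon
      apply h2
      refine Cn.of_dual hc (fun l => ?_) (fun l _ => hβ l)
      have h3 := hnn l
      rw [apply_line] at h3 ⊢
      have h4 := hcon l
      nlinarith
    obtain ⟨l0, hl0⟩ := hex
    obtain ⟨k, hk, hmin⟩ := Finset.exists_min_image (univ.filter fun l => 0 < c l v)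
      (fun l => c l p / c l v) ⟨l0, by simp [hl0]⟩
    have hk0 : 0 < c k v := (Finset.mem_filter.1 hk).2
    have htm : tm (β, k) = c k p / c k v := by
      simp only [tm, hco _ _ hc]
    have hτ : τ ≤ c k p / c k v := by
      rw [le_div_iff₀ hk0]
      have := hnn k
      rw [apply_line] at this
      linarith
    refine ⟨(β, k), ?_, rfl, by rw [htm]; exact hτ⟩
    simp only [S, Finset.mem_filter, Finset.mem_univ, true_and]
    refine ⟨⟨c, hc⟩, hβ, by rw [hco _ _ hc]; exact hk0, by rw [htm]; exact hτ1.trans hτ, ?_⟩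
    intro l
    rw [hco _ _ hc, htm, apply_line]
    rcases le_or_gt (c l v) 0 with h | h
    · have h3 := hnn l
      rw [apply_line] at h3
      have h4 : (c k p / c k v - τ) * c l v ≤ 0 :=
        mul_nonpos_of_nonneg_of_nonpos (by linarith) h
      linarith
    · have h3 := hmin l (by simp [h])
      have h4 := (le_div_iff₀ h).1 h3
      linarith
  obtain ⟨β0, c0, hd0, hβ0, hnn0⟩ := exists_feasible' z Q hQ h1
  obtain ⟨y0, hy0, -, -⟩ := hnext β0 c0 t1 hd0 hβ0 le_rfl h12 hnn0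
  obtain ⟨⟨β, k⟩, hmem, hmax⟩ := Finset.exists_max_image S tm ⟨_, hy0⟩
  have hmem' := hmem
  simp only [S, Finset.mem_filter, Finset.mem_univ, true_and] at hmem'
  obtain ⟨⟨c, hc⟩, hβ, hkv, ht1, hnn⟩ := hmem'
  rw [hco _ _ hc] at hkv
  simp only [hco _ _ hc] at hnn
  set T := tm (β, k) with hT
  have hTe : T = c k p / c k v := by
    simp only [hT, tm, hco _ _ hc]
  have hk0 : c k (p - T • v) = 0 := by
    rw [apply_line, hTe, div_mul_cancel₀ _ hkv.ne', sub_self]
  have hpos : ∀ l, l ≠ k → 0 < c l (p - T • v) := fun l hl =>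
    lt_of_le_of_ne (hnn l) (hG.ne_zero hc hl hk0).symm
  have hInT : Cn z Q (p - T • v) := Cn.of_dual hc hnn (fun l _ => hβ l)
  have hTt2 : T < t2 := by
    by_contra hcon
    push Not at hcon
    apply h2
    rcases eq_or_lt_of_le (h12.trans hcon) with h | h
    · have : t2 = T := le_antisymm hcon (by linarith)
      rw [this]
      exact hInT
    · have hd : 0 < T - t1 := by linarith
      have e : p - t2 • v = ((T - t2) / (T - t1)) • (p - t1 • v) +
          ((t2 - t1) / (T - t1)) • (p - T • v) := by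
        ext j
        simp only [Pi.sub_apply, Pi.smul_apply, Pi.add_apply, smul_eq_mul]
        field_simp
        ring
      rw [e]
      exact h1.convex hInT (div_nonneg (by linarith) hd.le) (div_nonneg (by linarith) hd.le)
  refine ⟨T, β, c, k, ht1, hTt2, hc, hβ, hkv, hk0, hpos, ?_⟩
  intro i hi
  by_contra hneg
  push Not at hneg
  have hd := hc.update k i hneg.ne
  set c' : Fin ρ → ((Fin ρ → ℚ) →ₗ[ℚ] ℚ) :=
    (fun m => if m = k then (c k (z i))⁻¹ • c k else c m - (c m (z i) / c k (z i)) • c k) with hc'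
  have hc'k : c' k = (c k (z i))⁻¹ • c k := by simp [hc']
  have hc'l : ∀ m, m ≠ k → c' m = c m - (c m (z i) / c k (z i)) • c k := by
    intro m hm
    simp [hc', hm]
  have hβ' : ∀ l, Function.update β k i l ∈ Q := by
    intro l
    by_cases h : l = k
    · subst h
      rw [Function.update_self]
      exact hi
    · rw [Function.update_of_ne h]
      exact hβ l
  have hval : ∀ m, m ≠ k → c' m (p - T • v) = c m (p - T • v) := by
    intro m hm
    rw [hc'l m hm, LinearMap.sub_apply, LinearMap.smul_apply, hk0, smul_zero, sub_zero]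
  have hvalk : c' k (p - T • v) = 0 := by
    rw [hc'k, LinearMap.smul_apply, hk0, smul_zero]
  have hck : c' k v < 0 := by
    rw [hc'k, LinearMap.smul_apply, smul_eq_mul]
    exact mul_neg_of_neg_of_pos (inv_lt_zero.2 hneg) hkv
  have hnn' : ∀ l, 0 ≤ c' l (p - T • v) := by
    intro l
    by_cases h : l = k
    · subst h
      rw [hvalk]
    · rw [hval l h]
      exact (hpos l h).le
  obtain ⟨⟨β2, k2⟩, hy2, hβ2, hle⟩ := hnext _ c' T hd hβ' ht1 hTt2.le hnn'
  simp only at hβ2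
  subst hβ2
  have h3 := hmax _ hy2
  have hTeq : tm (Function.update β k i, k2) = T := le_antisymm h3 hle
  simp only [S, Finset.mem_filter, Finset.mem_univ, true_and] at hy2
  obtain ⟨-, -, hv2, -, -⟩ := hy2
  rw [hco _ _ hd] at hv2
  have hk2 : k2 ≠ k := by
    rintro rfl
    exact absurd hv2 (not_lt.2 hck.le)
  have h4 : c' k2 (p - T • v) = 0 := by
    rw [apply_line, ← hTeq]
    simp only [tm, hco _ _ hd]
    rw [div_mul_cancel₀ _ hv2.ne', sub_self]
  rw [hval k2 hk2] at h4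
  exact (hpos k2 hk2).ne' h4

end Pool.Agent.Run7.H918
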