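import Mathlib

/-!
The valuation of a prime ideal of height one of a normal finitely generated domain.
-/

set_option autoImplicit false

noncomputable section

namespace Pool.Agent.Run7.H918

/-- the map on values -/
def vmap : ℕ∞ →+ WithTop ℤ :=
  (AddMonoidHom.withTopMap (Nat.castAddMonoidHom ℤ) : WithTop ℕ →+ WithTop ℤ)

theorem vmap_top : vmap ⊤ = ⊤ := rfl

theorem vmap_coe (n : ℕ) : vmap (n : ℕ∞) = ((n : ℤ) : WithTop ℤ) := rfl

theorem vmap_mono : Monotone vmap := by
  intro a b h
  induction b using ENat.recTopCoe with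
  | top => exact le_top
  | coe b =>
    induction a using ENat.recTopCoe with
    | top => simp at h
    | coe a =>
      rw [vmap_coe, vmap_coe]
      have : a ≤ b := by exact_mod_cast h
      exact_mod_cast this

theorem vmap_nonneg (a : ℕ∞) : 0 ≤ vmap a := by
  have : vmap 0 ≤ vmap a := vmap_mono (by simp)
  rwa [_root_.map_zero] at this

/-- the valuation of a discrete valuation ring, on its fraction field -/
theorem exists_valuation_dvr (A K : Type) [CommRing A] [IsDomain A] [IsDiscreteValuationRing A]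
    [Field K] [Algebra A K] [IsFractionRing A K] :
    ∃ v : AddValuation K (WithTop ℤ), (∀ a : A, 0 ≤ v (algebraMap A K a)) ∧
      (∀ z, 0 ≤ v z → ∃ a : A, algebraMap A K a = z) ∧ (∃ z, v z = 1) ∧
      ∀ a : A, a ∈ IsLocalRing.maximalIdeal A → 0 < v (algebraMap A K a) := by
  obtain ⟨ϖ, hϖ⟩ := IsDiscreteValuationRing.exists_irreducible A
  have hp : Prime ϖ := hϖ.prime
  set v0 : AddValuation A (WithTop ℤ) :=
    (multiplicity_addValuation hp).map vmap vmap_top vmap_mono with hv0
  have hv0' : ∀ p, v0 p = vmap (emultiplicity ϖ p) := fun p => rfl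
  have hfin : ∀ q : A, q ≠ 0 → FiniteMultiplicity ϖ q := fun q hq =>
    FiniteMultiplicity.of_prime_left hp hq
  set w0 : Valuation A (Multiplicative (WithTop ℤ)ᵒᵈ) := AddValuation.toValuation v0 with hw0
  have hS : nonZeroDivisors A ≤ w0.supp.primeCompl := by
    intro q hq hmem
    have hq0 : q ≠ 0 := nonZeroDivisors.ne_zero hq
    have h1 : w0 q = 0 := (Valuation.mem_supp_iff w0 q).mp hmem
    have h2 : v0 q = ⊤ := h1
    rw [hv0'] at h2
    rw [(hfin q hq0).emultiplicity_eq_multiplicity, vmap_coe] at h2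
    exact WithTop.coe_ne_top h2
  have hv : ∀ p : A, (AddValuation.ofValuation (w0.extendToLocalization hS K)) (algebraMap A K p) =
      vmap (emultiplicity ϖ p) := by
    intro p
    rw [AddValuation.ofValuation_apply, Valuation.extendToLocalization_apply_map_apply]
    rfl
  refine ⟨AddValuation.ofValuation (w0.extendToLocalization hS K), ?_, ?_, ?_, ?_⟩
  · intro a
    rw [hv]
    exact vmap_nonneg _
  · intro z hz
    obtain ⟨p, q, hq, rfl⟩ := IsFractionRing.div_surjective (A := A) z
    have hq0 : q ≠ 0 := nonZeroDivisors.ne_zero hq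
    obtain ⟨m, u, hu⟩ := IsDiscreteValuationRing.eq_unit_mul_pow_irreducible hq0 hϖ
    have hqK : algebraMap A K q ≠ 0 := by
      intro h
      exact hq0 ((IsFractionRing.injective A K) (by rw [h, _root_.map_zero]))
    have hem : emultiplicity ϖ q = m := by
      rw [hu, emultiplicity_mul hp, emultiplicity_of_isUnit_right hp.not_isUnit u.isUnit, zero_add,
        emultiplicity_pow_self hp.ne_zero hp.not_isUnit]
    have hvp : ((m : ℤ) : WithTop ℤ) ≤ vmap (emultiplicity ϖ p) := by
      rw [← hv p]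
      have h1 : algebraMap A K p = (algebraMap A K p / algebraMap A K q) * algebraMap A K q := by
        rw [div_mul_cancel₀ _ hqK]
      rw [h1, AddValuation.map_mul, hv q, hem, vmap_coe]
      exact le_add_of_nonneg_left hz
    have hdvd : ϖ ^ m ∣ p := by
      apply pow_dvd_of_le_emultiplicity
      by_contra hcon
      push Not at hcon
      obtain ⟨m', hm'⟩ := ENat.ne_top_iff_exists.mp (ne_top_of_lt hcon)
      rw [← hm'] at hcon hvp
      rw [vmap_coe] at hvp
      have h3 : (m : ℤ) ≤ m' := by exact_mod_cast hvp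
      have h4 : m' < m := by exact_mod_cast hcon
      omega
    obtain ⟨p', hp'⟩ := hdvd
    refine ⟨p' * ((u⁻¹ : Aˣ) : A), ?_⟩
    rw [eq_div_iff hqK, ← _root_.map_mul]
    congr 1
    rw [hu, hp']
    calc p' * ((u⁻¹ : Aˣ) : A) * (u * ϖ ^ m) = p' * ϖ ^ m * (((u⁻¹ : Aˣ) : A) * u) := by ring
      _ = ϖ ^ m * p' := by rw [Units.inv_mul, mul_one, mul_comm]
  · refine ⟨algebraMap A K ϖ, ?_⟩
    rw [hv, (hfin ϖ hp.ne_zero).emultiplicity_self]
    rfl
  · intro a ha
    rw [hv]
    rw [hϖ.maximalIdeal_eq, Ideal.mem_span_singleton] at ha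
    have h1 : (1 : ℕ∞) ≤ emultiplicity ϖ a := by
      have := le_emultiplicity_of_pow_dvd (k := 1) (a := ϖ) (b := a) (by rwa [pow_one])
      exact_mod_cast this
    have h2 := vmap_mono h1
    refine lt_of_lt_of_le ?_ h2
    have h3 : vmap 1 = ((1 : ℤ) : WithTop ℤ) := vmap_coe 1
    rw [h3]
    exact_mod_cast one_pos

/-- the localisation of a normal noetherian domain at a prime of height one -/
theorem isDVR_of_height_one (R A : Type) [CommRing R] [IsDomain R] [IsNoetherianRing R]
    [IsIntegrallyClosed R] (Q : Ideal R) [Q.IsPrime] (h0 : Q ≠ ⊥) (h1 : Q.height ≤ 1)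
    [CommRing A] [IsDomain A] [Algebra R A] [IsLocalization.AtPrime A Q] :
    IsDiscreteValuationRing A := by
  have hloc : IsLocalRing A := IsLocalization.AtPrime.isLocalRing A Q
  have hN : IsNoetherianRing A := IsLocalization.isNoetherianRing Q.primeCompl A inferInstance
  have hic : IsIntegrallyClosed A := isIntegrallyClosed_of_isLocalization A Q.primeCompl
    (Ideal.primeCompl_le_nonZeroDivisors Q)
  have hdim : ringKrullDim A ≤ 1 := by
    rw [IsLocalization.AtPrime.ringKrullDim_eq_height Q A]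
    exact_mod_cast h1
  have hk : Ring.KrullDimLE 1 A := Ring.krullDimLE_iff.2 hdim
  have hbot : (⊥ : Ideal A).IsPrime := Ideal.isPrime_bot
  have hmax : ∀ P : Ideal A, P ≠ ⊥ → P.IsPrime → P = IsLocalRing.maximalIdeal A := fun P hP hP' =>
    IsLocalRing.eq_maximalIdeal (Ring.krullDimLE_one_iff_of_isPrime_bot.1 hk P hP hP')
  have hiff : (IsIntegrallyClosed A ∧ ∀ P : Ideal A, P ≠ ⊥ → P.IsPrime →
      P = IsLocalRing.maximalIdeal A) ↔ IsPrincipalIdealRing A :=
    (tfae_of_isNoetherianRing_of_isLocalRing_of_isDomain A).out 3 0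
  have hPID : IsPrincipalIdealRing A := hiff.1 ⟨hic, hmax⟩
  refine { hPID with not_a_field' := ?_ }
  intro hb
  obtain ⟨x, hx, hx0⟩ := Submodule.exists_mem_ne_zero_of_ne_bot h0
  have h2 : algebraMap R A x ∈ IsLocalRing.maximalIdeal A :=
    (IsLocalization.AtPrime.to_map_mem_maximal_iff A Q x).2 hx
  rw [hb, Ideal.mem_bot] at h2
  have hinj : Function.Injective (algebraMap R A) :=
    IsLocalization.injective A (Ideal.primeCompl_le_nonZeroDivisors Q)
  exact hx0 (hinj (by rw [h2, _root_.map_zero]))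

end Pool.Agent.Run7.H918
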