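import Mathlib

/-!
Dual families, generic points and feasible bases in a rational vector space.
-/

set_option autoImplicit false

namespace Pool.Agent.Run7.H918

open Finset

variable {ρ r : ℕ}

/-- `c` is the dual family of the family `z ∘ β` -/
def IsDual (z : Fin r → Fin ρ → ℚ) (β : Fin ρ → Fin r) (c : Fin ρ → ((Fin ρ → ℚ) →ₗ[ℚ] ℚ)) : Prop :=
  ∀ k l, c k (z (β l)) = if k = l then 1 else 0

theorem IsDual.linInd {z : Fin r → Fin ρ → ℚ} {β : Fin ρ → Fin r}
    {c : Fin ρ → ((Fin ρ → ℚ) →ₗ[ℚ] ℚ)} (h : IsDual z β c) :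
    LinearIndependent ℚ (fun k => z (β k)) := by
  rw [Fintype.linearIndependent_iff]
  intro a ha k
  have h1 := congrArg (c k) ha
  rw [map_sum, map_zero] at h1
  simp only [map_smul, h k, smul_eq_mul, mul_ite, mul_one, mul_zero, Finset.sum_ite_eq,
    Finset.mem_univ, if_true] at h1
  exact h1

theorem IsDual.sum_repr {z : Fin r → Fin ρ → ℚ} {β : Fin ρ → Fin r}
    {c : Fin ρ → ((Fin ρ → ℚ) →ₗ[ℚ] ℚ)} (h : IsDual z β c) (x : Fin ρ → ℚ) :
    ∑ k, c k x • z (β k) = x := by
  have hli := h.linInd
  let b := basisOfLinearIndependentOfCardEqFinrank' (fun k => z (β k)) hli (by simp)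
  have hb : ∀ k, b k = z (β k) := fun k => by simp [b]
  have h1 : ∀ k, b.coord k = c k := by
    intro k
    apply b.ext
    intro l
    rw [hb, h k l, ← hb, Module.Basis.coord_apply, Module.Basis.repr_self, Finsupp.single_apply]
    simp only [eq_comm]
  have h2 := b.sum_repr x
  conv_rhs => rw [← h2]
  refine Finset.sum_congr rfl fun k _ => ?_
  rw [hb, ← h1 k, Module.Basis.coord_apply]

theorem exists_dual {z : Fin r → Fin ρ → ℚ} {β : Fin ρ → Fin r}
    (hli : LinearIndependent ℚ (fun k => z (β k))) :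
    ∃ c : Fin ρ → ((Fin ρ → ℚ) →ₗ[ℚ] ℚ), IsDual z β c := by
  let b := basisOfLinearIndependentOfCardEqFinrank' (fun k => z (β k)) hli (by simp)
  have hb : ∀ k, b k = z (β k) := fun k => by simp [b]
  refine ⟨fun k => b.coord k, fun k l => ?_⟩
  rw [← hb, Module.Basis.coord_apply, Module.Basis.repr_self, Finsupp.single_apply]
  simp only [eq_comm]

theorem IsDual.unique {z : Fin r → Fin ρ → ℚ} {β : Fin ρ → Fin r}
    {c c' : Fin ρ → ((Fin ρ → ℚ) →ₗ[ℚ] ℚ)} (h : IsDual z β c) (h' : IsDual z β c') : c = c' := by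
  funext k
  ext1
  refine LinearMap.ext_ring ?_
  simp only [LinearMap.coe_comp, Function.comp_apply, LinearMap.single_apply]
  rename_i j
  have h1 := h.sum_repr (Pi.single j (1 : ℚ))
  have h2 := congrArg (c' k) h1
  rw [map_sum] at h2
  simp only [map_smul, h' k, smul_eq_mul, mul_ite, mul_one, mul_zero, Finset.sum_ite_eq,
    Finset.mem_univ, if_true] at h2
  exact h2

/-- a nonnegative combination can be rewritten with a linearly independent support -/
theorem exists_min_support (z : Fin r → Fin ρ → ℚ) (q : Fin r → ℚ) (hq : ∀ i, 0 ≤ q i) :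
    ∃ q' : Fin r → ℚ, (∀ i, 0 ≤ q' i) ∧ ∑ i, q' i • z i = ∑ i, q i • z i ∧
      LinearIndepOn ℚ z {i | q' i ≠ 0} := by
  classical
  generalize hx : ∑ i, q i • z i = x
  obtain ⟨n, hn⟩ : ∃ n, (univ.filter fun i => q i ≠ 0).card = n := ⟨_, rfl⟩
  induction n using Nat.strong_induction_on generalizing q with
  | _ n ih =>
    by_cases hli : LinearIndepOn ℚ z {i | q i ≠ 0}
    · exact ⟨q, hq, hx, hli⟩
    · have hset : {i | q i ≠ 0} = ((univ.filter fun i => q i ≠ 0 : Finset (Fin r)) : Set (Fin r)) := by
        ext i; simp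
      rw [hset, not_linearIndepOn_finset_iffₛ] at hli
      obtain ⟨f, g, hfg, i0, hi0, hne⟩ := hli
      -- a relation with a positive coefficient
      obtain ⟨lam, hlam, hrel, i1, hi1⟩ : ∃ lam : Fin r → ℚ, (∀ i, q i = 0 → lam i = 0) ∧
          ∑ i, lam i • z i = 0 ∧ ∃ i, 0 < lam i := by
        have key : ∑ i, (if q i ≠ 0 then f i - g i else 0) • z i = 0 := by
          have h1 : ∀ i, (if q i ≠ 0 then f i - g i else 0) • z i =
              if q i ≠ 0 then f i • z i - g i • z i else 0 := by
            intro i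
            split_ifs
            · rw [sub_smul]
            · rw [zero_smul]
          rw [Finset.sum_congr rfl fun i _ => h1 i, ← Finset.sum_filter, Finset.sum_sub_distrib, hfg,
            sub_self]
        have hi0' : q i0 ≠ 0 := (Finset.mem_filter.1 hi0).2
        rcases lt_or_gt_of_ne hne with h | h
        · refine ⟨fun i => -(if q i ≠ 0 then f i - g i else 0), ?_, ?_, i0, ?_⟩
          · intro i hi
            simp [hi]
          · simp only [neg_smul, Finset.sum_neg_distrib, key, neg_zero]
          · show 0 < -(if q i0 ≠ 0 then f i0 - g i0 else 0)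
            rw [if_pos hi0']
            linarith
        · refine ⟨fun i => (if q i ≠ 0 then f i - g i else 0), ?_, key, i0, ?_⟩
          · intro i hi
            simp [hi]
          · show 0 < (if q i0 ≠ 0 then f i0 - g i0 else 0)
            rw [if_pos hi0']
            linarith
      obtain ⟨m, hm, hmin⟩ := Finset.exists_min_image (univ.filter fun i => 0 < lam i)
        (fun i => q i / lam i) ⟨i1, by simp [hi1]⟩
      have hm0 : 0 < lam m := (Finset.mem_filter.1 hm).2
      set t := q m / lam m with ht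
      have ht0 : 0 ≤ t := div_nonneg (hq m) hm0.le
      have hqm : q m ≠ 0 := fun h => hm0.ne' (hlam m h)
      have hcard : (univ.filter fun i => q i - t * lam i ≠ 0).card < n := by
        rw [← hn]
        apply Finset.card_lt_card
        rw [Finset.ssubset_iff_of_subset]
        · refine ⟨m, by simp [hqm], ?_⟩
          simp only [Finset.mem_filter, Finset.mem_univ, true_and, not_not]
          rw [ht, div_mul_cancel₀ _ hm0.ne', sub_self]
        · intro i hi
          simp only [Finset.mem_filter, Finset.mem_univ, true_and] at hi ⊢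
          intro h
          apply hi
          rw [h, hlam i h, mul_zero, sub_zero]
      refine ih _ hcard (fun i => q i - t * lam i) ?_ ?_ rfl
      · intro i
        rcases le_or_gt (lam i) 0 with h | h
        · have h2 : t * lam i ≤ 0 := mul_nonpos_of_nonneg_of_nonpos ht0 h
          have := hq i
          linarith
        · have h1 := hmin i (by simp [h])
          rw [le_div_iff₀ h] at h1
          linarith
      · simp only [sub_smul, Finset.sum_sub_distrib, mul_smul, ← Finset.smul_sum, hrel, smul_zero,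
          sub_zero]
        exact hx

/-- a point of the cone of a spanning family lies in the cone of a basis contained in the family -/
theorem exists_feasible (z : Fin r → Fin ρ → ℚ) (hz : Submodule.span ℚ (Set.range z) = ⊤)
    (q : Fin r → ℚ) (hq : ∀ i, 0 ≤ q i) :
    ∃ (β : Fin ρ → Fin r) (c : Fin ρ → ((Fin ρ → ℚ) →ₗ[ℚ] ℚ)), IsDual z β c ∧
      ∀ k, 0 ≤ c k (∑ i, q i • z i) := by
  classical
  obtain ⟨q', h1, h2, h3⟩ := exists_min_support z q hq
  obtain ⟨b, -, hb2, hb3, hb4⟩ := exists_linearIndepOn_extension h3 (Set.subset_univ _)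
  have hspan : Submodule.span ℚ (z '' b) = ⊤ := by
    rw [eq_top_iff, ← hz, Submodule.span_le]
    rw [Set.image_univ] at hb3
    exact hb3
  have hcard : Fintype.card b = ρ := by
    have h5 : LinearIndependent ℚ (fun i : b => z i) := hb4
    have h6 : Submodule.span ℚ (Set.range fun i : b => z i) = ⊤ := by
      have : Set.range (fun i : b => z i) = z '' b := by
        ext x; simp
      rw [this, hspan]
    have h7 := finrank_span_eq_card h5
    rw [h6, finrank_top] at h7
    simpa using h7.symm
  let eq : Fin ρ ≃ b := (Fintype.equivFinOfCardEq hcard).symm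
  let β : Fin ρ → Fin r := fun k => (eq k : Fin r)
  have hβ : LinearIndependent ℚ (fun k => z (β k)) := by
    have h5 : LinearIndependent ℚ (fun i : b => z i) := hb4
    exact h5.comp eq eq.injective
  obtain ⟨c, hc⟩ := exists_dual hβ
  refine ⟨β, c, hc, fun k => ?_⟩
  rw [← h2, map_sum]
  refine Finset.sum_nonneg fun i _ => ?_
  rw [map_smul, smul_eq_mul]
  by_cases hi : q' i = 0
  · rw [hi, zero_mul]
  · have hib : i ∈ b := hb2 hi
    have h8 : i = β (eq.symm ⟨i, hib⟩) := by simp [β]
    rw [h8, hc]
    split_ifs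
    · rw [mul_one]
      exact h1 _
    · rw [mul_zero]

/-- finitely many nonzero functionals are all nonzero at a suitable nonnegative combination -/
theorem exists_generic_direction (z : Fin r → Fin ρ → ℚ)
    (hz : Submodule.span ℚ (Set.range z) = ⊤) {J : Type*} [Finite J]
    (f : J → ((Fin ρ → ℚ) →ₗ[ℚ] ℚ)) (hf : ∀ j, f j ≠ 0) :
    ∃ q : Fin r → ℚ, (∀ i, 0 ≤ q i) ∧ ∀ j, f j (∑ i, q i • z i) ≠ 0 := by
  classical
  have := Fintype.ofFinite J
  let P : J → Polynomial ℚ := fun j => ∑ i : Fin r, Polynomial.C (f j (z i)) * Polynomial.X ^ (i : ℕ)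
  have hP : ∀ j, P j ≠ 0 := by
    intro j h0
    apply hf j
    have h1 : ∀ i, f j (z i) = 0 := by
      intro i
      have h2 := congrArg (fun p => Polynomial.coeff p (i : ℕ)) h0
      simp only [P, Polynomial.finsetSum_coeff, Polynomial.coeff_C_mul, Polynomial.coeff_X_pow,
        Polynomial.coeff_zero] at h2
      rw [Finset.sum_eq_single i] at h2
      · simpa using h2
      · intro i' _ hne
        rw [if_neg (fun h => hne (Fin.ext h.symm)), mul_zero]
      · intro h
        exact absurd (Finset.mem_univ _) h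
    have h3 : Submodule.span ℚ (Set.range z) ≤ LinearMap.ker (f j) := by
      rw [Submodule.span_le]
      rintro _ ⟨i, rfl⟩
      exact h1 i
    rw [hz, top_le_iff, LinearMap.ker_eq_top] at h3
    exact h3
  have hprod : (∏ j, P j) ≠ 0 := Finset.prod_ne_zero_iff.2 fun j _ => hP j
  obtain ⟨N, hN⟩ : ∃ N : ℕ, (∏ j, P j).eval (N : ℚ) ≠ 0 := by
    by_contra hcon
    push Not at hcon
    apply hprod
    apply Polynomial.eq_zero_of_infinite_isRoot
    refine Set.Infinite.mono (s := Set.range (fun n : ℕ => (n : ℚ))) ?_ ?_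
    · rintro _ ⟨n, rfl⟩
      exact hcon n
    · exact Set.infinite_range_of_injective Nat.cast_injective
  refine ⟨fun i => (N : ℚ) ^ (i : ℕ), fun i => by positivity, fun j => ?_⟩
  rw [Polynomial.eval_prod, Finset.prod_ne_zero_iff] at hN
  have h1 := hN j (Finset.mem_univ _)
  rw [map_sum]
  simp only [map_smul, smul_eq_mul]
  simp only [P, Polynomial.eval_finsetSum, Polynomial.eval_mul, Polynomial.eval_C,
    Polynomial.eval_pow, Polynomial.eval_X] at h1
  intro h2
  apply h1
  rw [← h2]
  exact Finset.sum_congr rfl fun i _ => mul_comm _ _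

/-- a generic point close to `x` -/
theorem exists_generic_point (x θ : Fin ρ → ℚ) {J : Type*} [Finite J]
    (f : J → ((Fin ρ → ℚ) →ₗ[ℚ] ℚ)) (hf : ∀ j, f j θ ≠ 0) :
    ∃ ε : ℚ, 0 < ε ∧ ∀ j, f j (x + ε • θ) ≠ 0 ∧ (f j x < 0 → f j (x + ε • θ) < 0) := by
  have h : ∀ᶠ ε : ℚ in nhdsWithin 0 (Set.Ioi 0),
      ∀ j, f j (x + ε • θ) ≠ 0 ∧ (f j x < 0 → f j (x + ε • θ) < 0) := by
    rw [Filter.eventually_all]
    intro j
    have hcont : Continuous fun ε : ℚ => f j x + ε * f j θ := by fun_prop
    have h0 : Filter.Tendsto (fun ε : ℚ => f j x + ε * f j θ) (nhdsWithin 0 (Set.Ioi 0))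
        (nhds (f j x)) := by
      have h1 := (hcont.tendsto 0).mono_left (nhdsWithin_le_nhds (s := Set.Ioi 0))
      simpa using h1
    have he : ∀ ε : ℚ, f j (x + ε • θ) = f j x + ε * f j θ := by
      intro ε
      rw [map_add, map_smul, smul_eq_mul]
    simp only [he]
    rcases lt_trichotomy (f j x) 0 with hx | hx | hx
    · have h2 := h0.eventually (gt_mem_nhds hx)
      filter_upwards [h2] with ε hε
      exact ⟨hε.ne, fun _ => hε⟩
    · filter_upwards [self_mem_nhdsWithin] with ε hε
      rw [hx, zero_add]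
      exact ⟨mul_ne_zero (ne_of_gt hε) (hf j), fun h => absurd h (lt_irrefl _)⟩
    · have h2 := h0.eventually (lt_mem_nhds hx)
      filter_upwards [h2] with ε hε
      exact ⟨hε.ne', fun h => absurd h (not_lt.2 hx.le)⟩
  obtain ⟨ε, h1, h2⟩ := (h.and self_mem_nhdsWithin).exists
  exact ⟨ε, h2, h1⟩

end Pool.Agent.Run7.H918
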