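import Pool.Agent.Run7.h918.Wall1
import Pool.Agent.Run7.h918.Defs

/-!
The wall lemma: walls of the chamber of a weight.
-/

set_option autoImplicit false

namespace Pool.Agent.Run7.H918

open Finset

variable {ρ r : ℕ}

theorem IsDual.update {z : Fin r → Fin ρ → ℚ} {β : Fin ρ → Fin r}
    {c : Fin ρ → ((Fin ρ → ℚ) →ₗ[ℚ] ℚ)} (h : IsDual z β c) (l : Fin ρ) (i : Fin r)
    (hi : c l (z i) ≠ 0) :
    IsDual z (Function.update β l i)
      (fun k => if k = l then (c l (z i))⁻¹ • c l else c k - (c k (z i) / c l (z i)) • c l) := by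
  intro k k'
  by_cases hk' : k' = l
  · subst hk'
    rw [Function.update_self]
    by_cases hk : k = k'
    · subst hk
      simp [hi]
    · simp [hk, hi]
  · rw [Function.update_of_ne hk']
    by_cases hk : k = l
    · subst hk
      have : k ≠ k' := fun h => hk' h.symm
      simp [h k k', this]
    · have h1 : l ≠ k' := fun h => hk' h.symm
      simp [hk, h k k', h l k', h1]

/-- the combinatorial core of the wall lemma: a pivoting argument -/
theorem wall_aux (z : Fin r → Fin ρ → ℚ) (x v p : Fin ρ → ℚ)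
    (hgen : ∀ β c, IsDual z β c → ∀ k, c k p ≠ 0 ∧ (c k x < 0 → c k p < 0))
    (hgenD : ∀ β c, IsDual z β c → ∀ k l, k ≠ l → c k v ≠ 0 → c l v * c k p - c k v * c l p ≠ 0)
    (hex : ∃ β c, IsDual z β c ∧ (∀ k, 0 < c k p) ∧ ∃ k, 0 < c k v) :
    ∃ φ : (Fin ρ → ℚ) →ₗ[ℚ] ℚ, 0 < φ v ∧ (∃ i, 0 < φ (z i)) ∧ ∀ i, 0 < φ (z i) →
      ∃ q : Fin r → ℚ, (∀ l, 0 ≤ q l) ∧ (∀ l, q l ≠ 0 → l = i ∨ φ (z l) = 0) ∧
        ∑ l, q l • z l = x := by
  classical
  let co : (Fin ρ → Fin r) → Fin ρ → ((Fin ρ → ℚ) →ₗ[ℚ] ℚ) := fun β =>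
    if h : ∃ c, IsDual z β c then h.choose else 0
  have hco : ∀ β c, IsDual z β c → co β = c := by
    intro β c h
    have h1 : ∃ c, IsDual z β c := ⟨c, h⟩
    simp only [co, dif_pos h1]
    exact h1.choose_spec.unique h
  let S : Finset ((Fin ρ → Fin r) × Fin ρ) :=
    Finset.univ.filter fun y => (∃ c, IsDual z y.1 c) ∧ ∀ k, 0 < co y.1 k p
  obtain ⟨β1, c1, hd1, hp1, k1, hk1⟩ := hex
  have hS : (β1, k1) ∈ S := by
    simp only [S, Finset.mem_filter, Finset.mem_univ, true_and]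
    exact ⟨⟨c1, hd1⟩, by rw [hco _ _ hd1]; exact hp1⟩
  obtain ⟨⟨β, k0⟩, hmem, hmax⟩ := Finset.exists_max_image S
    (fun y => co y.1 y.2 v / co y.1 y.2 p) ⟨_, hS⟩
  simp only [S, Finset.mem_filter, Finset.mem_univ, true_and] at hmem
  obtain ⟨⟨c, hc⟩, hcp⟩ := hmem
  rw [hco _ _ hc] at hcp
  set M := c k0 v / c k0 p with hM
  have hM0 : 0 < M := by
    have h1 := hmax _ hS
    simp only [hco _ _ hd1, hco _ _ hc] at h1
    exact lt_of_lt_of_le (div_pos hk1 (hp1 k1)) h1
  have hle : ∀ β' c', IsDual z β' c' → (∀ k, 0 < c' k p) → ∀ k, c' k v ≤ M * c' k p := by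
    intro β' c' h1 h2 k
    have h3 : (β', k) ∈ S := by
      simp only [S, Finset.mem_filter, Finset.mem_univ, true_and]
      exact ⟨⟨c', h1⟩, by rw [hco _ _ h1]; exact h2⟩
    have h4 := hmax _ h3
    simp only [hco _ _ h1, hco _ _ hc] at h4
    rwa [div_le_iff₀ (h2 k)] at h4
  have hφv : c k0 v = M * c k0 p := by
    rw [hM, div_mul_cancel₀ _ (hcp k0).ne']
  have hφv0 : 0 < c k0 v := by
    rw [hφv]
    exact mul_pos hM0 (hcp k0)
  refine ⟨c k0, hφv0, ⟨β k0, ?_⟩, ?_⟩
  · rw [hc k0 k0, if_pos rfl]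
    exact one_pos
  · intro i hi
    -- the leaving variable
    obtain ⟨l, hl, hmin⟩ := Finset.exists_min_image (univ.filter fun l => 0 < c l (z i))
      (fun l => c l p / c l (z i)) ⟨k0, by simp [hi]⟩
    have hl0 : 0 < c l (z i) := (Finset.mem_filter.1 hl).2
    have hmin' : ∀ k, 0 < c k (z i) → c l p / c l (z i) ≤ c k p / c k (z i) := by
      intro k hk
      exact hmin k (by simp [hk])
    have hd := hc.update l i hl0.ne'
    set c' : Fin ρ → ((Fin ρ → ℚ) →ₗ[ℚ] ℚ) :=
      (fun k => if k = l then (c l (z i))⁻¹ • c l else c k - (c k (z i) / c l (z i)) • c l) with hc'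
    have hc'l : c' l = (c l (z i))⁻¹ • c l := by simp [hc']
    have hc'k : ∀ k, k ≠ l → c' k = c k - (c k (z i) / c l (z i)) • c l := by
      intro k hk
      simp [hc', hk]
    have hnn : ∀ k, 0 ≤ c' k p := by
      intro k
      by_cases hk : k = l
      · subst hk
        rw [hc'l, LinearMap.smul_apply, smul_eq_mul]
        exact mul_nonneg (inv_nonneg.2 hl0.le) (hcp k).le
      · rw [hc'k k hk, LinearMap.sub_apply, LinearMap.smul_apply, smul_eq_mul]
        rcases le_or_gt (c k (z i)) 0 with h | h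
        · have h1 : c k (z i) / c l (z i) ≤ 0 := div_nonpos_of_nonpos_of_nonneg h hl0.le
          have h2 : c k (z i) / c l (z i) * c l p ≤ 0 :=
            mul_nonpos_of_nonpos_of_nonneg h1 (hcp l).le
          have := hcp k
          linarith
        · have h1 := hmin' k h
          rw [div_le_div_iff₀ hl0 h] at h1
          have h2 : c k (z i) / c l (z i) * c l p ≤ c k p := by
            rw [div_mul_eq_mul_div, div_le_iff₀ hl0]
            linarith
          linarith
    have hpos : ∀ k, 0 < c' k p := fun k => lt_of_le_of_ne (hnn k) (hgen _ _ hd k).1.symm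
    have hlk : l = k0 := by
      by_contra hne
      have hne' : k0 ≠ l := fun h => hne h.symm
      have h1 := hle _ _ hd hpos k0
      rw [hc'k k0 hne', LinearMap.sub_apply, LinearMap.smul_apply, smul_eq_mul,
        LinearMap.sub_apply, LinearMap.smul_apply, smul_eq_mul] at h1
      have h2 := hle _ _ hc hcp l
      have hγ : 0 < c k0 (z i) / c l (z i) := div_pos hi hl0
      have h3 : c l v = M * c l p := by
        refine le_antisymm h2 ?_
        have h4 : c k0 (z i) / c l (z i) * (M * c l p) ≤ c k0 (z i) / c l (z i) * c l v := by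
          linarith
        exact le_of_mul_le_mul_left h4 hγ
      apply hgenD _ _ hc k0 l hne' hφv0.ne'
      rw [h3, hφv]
      ring
    subst hlk
    refine ⟨fun m => ∑ k, if Function.update β l i k = m then c' k x else 0, ?_, ?_, ?_⟩
    · intro m
      refine Finset.sum_nonneg fun k _ => ?_
      split_ifs
      · by_contra hcon
        push Not at hcon
        exact absurd ((hgen _ _ hd k).2 hcon) (not_lt.2 (hpos k).le)
      · exact le_rfl
    · intro m hm
      obtain ⟨k, -, hk⟩ := Finset.exists_ne_zero_of_sum_ne_zero hm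
      have hk2 : Function.update β l i k = m := by
        by_contra h
        rw [if_neg h] at hk
        exact hk rfl
      by_cases hkl : k = l
      · left
        rw [← hk2, hkl, Function.update_self]
      · right
        rw [← hk2, Function.update_of_ne hkl, hc l k, if_neg (fun h => hkl h.symm)]
    · have h5 := hd.sum_repr x
      conv_rhs => rw [← h5]
      simp only [Finset.sum_smul]
      rw [Finset.sum_comm]
      refine Finset.sum_congr rfl fun k _ => ?_
      simp only [ite_smul, zero_smul]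
      rw [Finset.sum_ite_eq]
      simp

/-- the rational form of the wall lemma -/
theorem wall_rat (z : Fin r → Fin ρ → ℚ) (hz : Submodule.span ℚ (Set.range z) = ⊤)
    (a : Fin r → ℚ) (ha : ∀ i, 0 ≤ a i) (v : Fin ρ → ℚ) (hv : v ≠ 0) :
    ∃ φ : (Fin ρ → ℚ) →ₗ[ℚ] ℚ, φ v ≠ 0 ∧ (∃ i, 0 < φ (z i)) ∧ ∀ i, 0 < φ (z i) →
      ∃ q : Fin r → ℚ, (∀ l, 0 ≤ q l) ∧ (∀ l, q l ≠ 0 → l = i ∨ φ (z l) = 0) ∧
        ∑ l, q l • z l = ∑ i, a i • z i := by
  classical
  set x := ∑ i, a i • z i with hx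
  let co : (Fin ρ → Fin r) → Fin ρ → ((Fin ρ → ℚ) →ₗ[ℚ] ℚ) := fun β =>
    if h : ∃ c, IsDual z β c then h.choose else 0
  have hco : ∀ β c, IsDual z β c → co β = c := by
    intro β c h
    have h1 : ∃ c, IsDual z β c := ⟨c, h⟩
    simp only [co, dif_pos h1]
    exact h1.choose_spec.unique h
  let J1 := {y : (Fin ρ → Fin r) × Fin ρ // ∃ c, IsDual z y.1 c}
  let J2 := {y : (Fin ρ → Fin r) × Fin ρ × Fin ρ // (∃ c, IsDual z y.1 c) ∧ y.2.1 ≠ y.2.2 ∧
    co y.1 y.2.1 v ≠ 0}
  let f : J1 ⊕ J2 → ((Fin ρ → ℚ) →ₗ[ℚ] ℚ) := Sum.elim (fun y => co y.1.1 y.1.2)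
    (fun y => (co y.1.1 y.1.2.2 v) • co y.1.1 y.1.2.1 - (co y.1.1 y.1.2.1 v) • co y.1.1 y.1.2.2)
  have hf : ∀ j, f j ≠ 0 := by
    rintro (⟨⟨β, k⟩, c, hc⟩ | ⟨⟨β, k, l⟩, ⟨c, hc⟩, hkl, hkv⟩)
    · intro h
      have h1 := congrArg (fun g => g (z (β k))) h
      simp only [f, Sum.elim_inl, LinearMap.zero_apply] at h1
      rw [hco _ _ hc, hc k k, if_pos rfl] at h1
      exact one_ne_zero h1
    · intro h
      have h1 := congrArg (fun g => g (z (β l))) h
      simp only [f, Sum.elim_inr, LinearMap.zero_apply, LinearMap.sub_apply, LinearMap.smul_apply,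
        smul_eq_mul] at h1
      simp only at hkv hkl
      rw [hco _ _ hc] at h1 hkv
      rw [hc k l, hc l l, if_neg hkl, if_pos rfl, mul_zero, mul_one, zero_sub, neg_eq_zero] at h1
      exact hkv h1
  obtain ⟨q, hq, hθ⟩ := exists_generic_direction z hz f hf
  obtain ⟨ε, hε, hgenr⟩ := exists_generic_point x (∑ i, q i • z i) f hθ
  set p := x + ε • ∑ i, q i • z i with hp
  have hgen : ∀ β c, IsDual z β c → ∀ k, c k p ≠ 0 ∧ (c k x < 0 → c k p < 0) := by
    intro β c hc k
    have h1 := hgenr (Sum.inl ⟨(β, k), c, hc⟩)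
    simp only [f, Sum.elim_inl] at h1
    rw [hco _ _ hc] at h1
    exact h1
  have hgenD : ∀ β c, IsDual z β c → ∀ k l, k ≠ l → c k v ≠ 0 →
      c l v * c k p - c k v * c l p ≠ 0 := by
    intro β c hc k l hkl hkv
    have h1 := (hgenr (Sum.inr ⟨(β, k, l), ⟨c, hc⟩, hkl, by
      simp only
      rw [hco _ _ hc]
      exact hkv⟩)).1
    simp only [f, Sum.elim_inr, LinearMap.sub_apply, LinearMap.smul_apply, smul_eq_mul] at h1
    rw [hco _ _ hc] at h1
    exact h1
  have hpsum : p = ∑ i, (a i + ε * q i) • z i := by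
    rw [hp, hx, Finset.smul_sum, ← Finset.sum_add_distrib]
    refine Finset.sum_congr rfl fun i _ => ?_
    rw [add_smul, mul_smul]
  obtain ⟨β, c, hc, hnn⟩ := exists_feasible z hz (fun i => a i + ε * q i)
    (fun i => add_nonneg (ha i) (mul_nonneg hε.le (hq i)))
  rw [← hpsum] at hnn
  have hpos : ∀ k, 0 < c k p := fun k => lt_of_le_of_ne (hnn k) (hgen _ _ hc k).1.symm
  obtain ⟨k, hk⟩ : ∃ k, c k v ≠ 0 := by
    by_contra hcon
    push Not at hcon
    apply hv
    rw [← hc.sum_repr v]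
    simp [hcon]
  rcases lt_or_gt_of_ne hk with hneg | hpos'
  · obtain ⟨φ, h1, h2, h3⟩ := wall_aux z x (-v) p hgen (by
      intro β c hc k l hkl hkv
      have h1 := hgenD β c hc k l hkl (by simpa using hkv)
      intro h2
      apply h1
      rw [map_neg, map_neg] at h2
      linarith) ⟨β, c, hc, hpos, k, by rw [map_neg]; linarith⟩
    refine ⟨φ, ?_, h2, h3⟩
    intro h
    rw [map_neg, h] at h1
    simp at h1
  · obtain ⟨φ, h1, h2, h3⟩ := wall_aux z x v p hgen hgenD ⟨β, c, hc, hpos, k, hpos'⟩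
    exact ⟨φ, h1.ne', h2, h3⟩

end Pool.Agent.Run7.H918
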