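import Pool.Agent.Run7.h918.Wall2

/-!
The wall lemma over the integers.
-/

set_option autoImplicit false

namespace Pool.Agent.Run7.H918

open Finset

variable {ρ r : ℕ}

/-- rational version of an integral vector -/
def qv (v : Fin ρ → ℤ) : Fin ρ → ℚ := fun k => (v k : ℚ)

theorem qv_add (v v' : Fin ρ → ℤ) : qv (v + v') = qv v + qv v' := by
  ext k; simp [qv]

theorem qv_sum {ι : Type*} (s : Finset ι) (f : ι → Fin ρ → ℤ) :
    qv (∑ i ∈ s, f i) = ∑ i ∈ s, qv (f i) := by
  classical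
  induction s using Finset.induction_on with
  | empty => ext k; simp [qv]
  | insert a s ha ih => rw [Finset.sum_insert ha, Finset.sum_insert ha, qv_add, ih]

theorem qv_nsmul (n : ℕ) (v : Fin ρ → ℤ) : qv (n • v) = (n : ℚ) • qv v := by
  ext k; simp [qv]

theorem qv_inj {v v' : Fin ρ → ℤ} (h : qv v = qv v') : v = v' := by
  ext k
  have := congrFun h k
  simp only [qv] at this
  exact_mod_cast this

theorem inCone_iff (w : Fin r → Fin ρ → ℤ) (Q : Set (Fin r)) (v : Fin ρ → ℤ) :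
    InCone w Q v ↔ ∃ q : Fin r → ℚ, (∀ i, 0 ≤ q i) ∧ (∀ i, q i ≠ 0 → i ∈ Q) ∧
      ∑ i, q i • qv (w i) = qv v := by
  constructor
  · rintro ⟨m, a, hm, ha, h⟩
    have hm0 : (m : ℚ) ≠ 0 := by positivity
    refine ⟨fun i => (a i : ℚ) / m, fun i => by positivity, fun i hi => ha i ?_, ?_⟩
    · intro h0
      apply hi
      simp [h0]
    · have h1 := congrArg qv h
      rw [qv_sum, qv_nsmul] at h1
      have h2 : ∑ i, ((a i : ℚ) / m) • qv (w i) = (m : ℚ)⁻¹ • ∑ i, qv (a i • w i) := by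
        rw [Finset.smul_sum]
        refine Finset.sum_congr rfl fun i _ => ?_
        rw [qv_nsmul, smul_smul, div_eq_inv_mul]
      rw [h2, h1, smul_smul, inv_mul_cancel₀ hm0, one_smul]
  · rintro ⟨q, hq, hQ, h⟩
    let m : ℕ := ∏ i, (q i).den
    have hm : 1 ≤ m := Nat.one_le_iff_ne_zero.2 (Finset.prod_ne_zero_iff.2 fun i _ => (q i).den_nz)
    have hdvd : ∀ i, (q i).den ∣ m := fun i => Finset.dvd_prod_of_mem _ (Finset.mem_univ i)
    refine ⟨m, fun i => (q i).num.toNat * (m / (q i).den), hm, ?_, ?_⟩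
    · intro i hi
      apply hQ
      intro h0
      apply hi
      simp [h0]
    · apply qv_inj
      rw [qv_sum, qv_nsmul, ← h, Finset.smul_sum]
      refine Finset.sum_congr rfl fun i _ => ?_
      rw [qv_nsmul, smul_smul]
      congr 1
      have h1 : (((q i).num.toNat : ℕ) : ℚ) = (q i).num := by
        have h2 : (((q i).num.toNat : ℕ) : ℤ) = (q i).num :=
          Int.toNat_of_nonneg (Rat.num_nonneg.2 (hq i))
        exact_mod_cast h2
      have h3 : (((q i).den : ℕ) : ℚ) ≠ 0 := by exact_mod_cast (q i).den_nz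
      rw [Nat.cast_mul, h1, Nat.cast_div (hdvd i) h3]
      conv_rhs => rw [← Rat.num_div_den (q i)]
      field_simp

theorem InCone.mono {w : Fin r → Fin ρ → ℤ} {Q Q' : Set (Fin r)} {v : Fin ρ → ℤ}
    (h : InCone w Q v) (hQ : ∀ i ∈ Q, i ∈ Q') : InCone w Q' v := by
  obtain ⟨m, a, hm, ha, h⟩ := h
  exact ⟨m, a, hm, fun i hi => hQ i (ha i hi), h⟩

/-- a functional is nonnegative on a vector of the cone of weights where it is nonnegative -/
theorem InCone.nonneg {w : Fin r → Fin ρ → ℤ} {Q : Set (Fin r)} {v : Fin ρ → ℤ}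
    (h : InCone w Q v) (φ : (Fin ρ → ℤ) →+ ℤ) (hφ : ∀ i ∈ Q, 0 ≤ φ (w i)) : 0 ≤ φ v := by
  obtain ⟨m, a, hm, ha, h⟩ := h
  have h1 := congrArg φ h
  rw [map_sum, map_nsmul] at h1
  have h2 : 0 ≤ ∑ i, φ (a i • w i) := by
    refine Finset.sum_nonneg fun i _ => ?_
    rw [map_nsmul, nsmul_eq_mul]
    by_cases hi : a i = 0
    · simp [hi]
    · exact mul_nonneg (Int.natCast_nonneg _) (hφ i (ha i hi))
  rw [h1, nsmul_eq_mul] at h2
  have hm' : (0 : ℤ) < m := by exact_mod_cast hm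
  exact nonneg_of_mul_nonneg_right h2 hm'

theorem span_qv {w : Fin r → Fin ρ → ℤ} (h : AddSubgroup.closure (Set.range w) = ⊤) :
    Submodule.span ℚ (Set.range fun i => qv (w i)) = ⊤ := by
  have h1 : ∀ v : Fin ρ → ℤ, qv v ∈ Submodule.span ℚ (Set.range fun i => qv (w i)) := by
    intro v
    have hv : v ∈ AddSubgroup.closure (Set.range w) := h ▸ AddSubgroup.mem_top v
    induction hv using AddSubgroup.closure_induction with
    | mem x hx =>
      obtain ⟨i, rfl⟩ := hx
      exact Submodule.subset_span ⟨i, rfl⟩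
    | zero =>
      have : qv (0 : Fin ρ → ℤ) = 0 := by ext k; simp [qv]
      rw [this]
      exact Submodule.zero_mem _
    | add x y _ _ hx hy =>
      rw [qv_add]
      exact Submodule.add_mem _ hx hy
    | neg x _ hx =>
      have : qv (-x) = -qv x := by ext k; simp [qv]
      rw [this]
      exact Submodule.neg_mem _ hx
  rw [eq_top_iff]
  intro x _
  have h2 : x = ∑ k, x k • qv (Pi.single k (1 : ℤ)) := by
    ext j
    simp only [Finset.sum_apply, Pi.smul_apply, qv, Pi.single_apply, smul_eq_mul]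
    rw [Finset.sum_eq_single j]
    · simp
    · intro b _ hb
      rw [if_neg (fun h => hb h.symm)]
      simp
    · intro h
      exact absurd (Finset.mem_univ _) h
  rw [h2]
  exact Submodule.sum_mem _ fun k _ => Submodule.smul_mem _ _ (h1 _)

/-- a nonzero rational functional is a positive multiple of a surjective integral one -/
theorem exists_integral (φ : (Fin ρ → ℚ) →ₗ[ℚ] ℚ) (hφ : φ ≠ 0) :
    ∃ (ψ : (Fin ρ → ℤ) →+ ℤ) (c : ℚ), 0 < c ∧ Function.Surjective ψ ∧
      ∀ v, (ψ v : ℚ) = c * φ (qv v) := by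
  classical
  let N : ℕ := ∏ k, (φ (Pi.single k (1 : ℚ))).den
  have hN : N ≠ 0 := Finset.prod_ne_zero_iff.2 fun i _ => Rat.den_nz _
  have hint : ∀ k, ∃ n : ℤ, (n : ℚ) = N * φ (Pi.single k (1 : ℚ)) := by
    intro k
    obtain ⟨d, hd⟩ : (φ (Pi.single k (1 : ℚ))).den ∣ N := Finset.dvd_prod_of_mem _ (Finset.mem_univ k)
    refine ⟨d * (φ (Pi.single k (1 : ℚ))).num, ?_⟩
    rw [hd]
    push_cast
    rw [mul_comm ((φ (Pi.single k (1 : ℚ))).den : ℚ), mul_assoc, Rat.den_mul_eq_num]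
  choose n hn using hint
  let ψ0 : (Fin ρ → ℤ) →+ ℤ :=
    { toFun := fun v => ∑ k, v k * n k
      map_zero' := by simp
      map_add' := by
        intro v v'
        simp only [Pi.add_apply, add_mul, Finset.sum_add_distrib] }
  have hψ0 : ∀ v, (ψ0 v : ℚ) = N * φ (qv v) := by
    intro v
    have h1 : qv v = ∑ k, (v k : ℚ) • Pi.single k (1 : ℚ) := by
      ext j
      simp only [Finset.sum_apply, Pi.smul_apply, qv, Pi.single_apply, smul_eq_mul, mul_ite, mul_one,
        mul_zero, Finset.sum_ite_eq, Finset.mem_univ, if_true]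
    rw [h1, map_sum, Finset.mul_sum]
    simp only [ψ0, AddMonoidHom.coe_mk, ZeroHom.coe_mk]
    push_cast
    refine Finset.sum_congr rfl fun k _ => ?_
    rw [hn, map_smul, smul_eq_mul]
    ring
  have hne : ∃ v, ψ0 v ≠ 0 := by
    by_contra hcon
    push Not at hcon
    apply hφ
    refine LinearMap.pi_ext' fun k => ?_
    refine LinearMap.ext_ring ?_
    simp only [LinearMap.coe_comp, Function.comp_apply, LinearMap.single_apply,
      LinearMap.zero_apply]
    have h1 := hψ0 (Pi.single k 1)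
    rw [hcon] at h1
    have h2 : qv (Pi.single k (1 : ℤ)) = Pi.single k (1 : ℚ) := by
      ext j
      simp only [qv, Pi.single_apply]
      split_ifs <;> simp
    rw [h2] at h1
    have h3 : (N : ℚ) ≠ 0 := by exact_mod_cast hN
    have h4 : (N : ℚ) * φ (Pi.single k 1) = 0 := by
      rw [← h1]; simp
    exact (mul_eq_zero.1 h4).resolve_left h3
  obtain ⟨g, hg⟩ := Int.subgroup_cyclic (AddMonoidHom.range ψ0)
  have hdvd : ∀ v, g ∣ ψ0 v := by
    intro v
    have h1 : ψ0 v ∈ AddMonoidHom.range ψ0 := ⟨v, rfl⟩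
    rw [hg, AddSubgroup.mem_closure_singleton] at h1
    obtain ⟨m, hm⟩ := h1
    exact ⟨m, by rw [← hm]; simp [mul_comm]⟩
  have hmem : ∃ v, ψ0 v = g := by
    have h1 : g ∈ AddMonoidHom.range ψ0 := by
      rw [hg]
      exact AddSubgroup.mem_closure_singleton_self g
    exact h1
  have hg0 : g ≠ 0 := by
    rintro rfl
    obtain ⟨v, hv⟩ := hne
    exact hv (zero_dvd_iff.1 (hdvd v))
  -- make g positive
  obtain ⟨g', hg'0, hdvd', hmem'⟩ : ∃ g' : ℤ, 0 < g' ∧ (∀ v, g' ∣ ψ0 v) ∧ ∃ v, ψ0 v = g' := by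
    rcases lt_or_gt_of_ne hg0 with h | h
    · obtain ⟨v, hv⟩ := hmem
      exact ⟨-g, by omega, fun v => (neg_dvd).2 (hdvd v), -v, by rw [map_neg, hv]⟩
    · exact ⟨g, h, hdvd, hmem⟩
  let ψ : (Fin ρ → ℤ) →+ ℤ :=
    { toFun := fun v => ψ0 v / g'
      map_zero' := by simp
      map_add' := by
        intro v v'
        rw [map_add, Int.add_ediv_of_dvd_left (hdvd' v)] }
  have hψ : ∀ v, ψ v * g' = ψ0 v := fun v => Int.ediv_mul_cancel (hdvd' v)
  refine ⟨ψ, N / g', ?_, ?_, ?_⟩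
  · have : (0 : ℚ) < g' := by exact_mod_cast hg'0
    positivity
  · intro m
    obtain ⟨v, hv⟩ := hmem'
    refine ⟨m • v, ?_⟩
    have h1 : ψ v = 1 := by
      have h2 := hψ v
      rw [hv] at h2
      exact Int.eq_one_of_mul_eq_self_left hg'0.ne' h2
    rw [map_zsmul, h1]
    simp
  · intro v
    have h1 : (ψ v : ℚ) * g' = N * φ (qv v) := by
      rw [← hψ0, ← hψ]
      push_cast
      ring
    have h2 : (g' : ℚ) ≠ 0 := by exact_mod_cast hg'0.ne'
    field_simp
    linarith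

/-- The wall lemma: for every nonzero weight `v` there is a wall of a chamber of `u` which is not
parallel to `v`. -/
theorem wall (w : Fin r → Fin ρ → ℤ) (hspan : AddSubgroup.closure (Set.range w) = ⊤)
    (u v : Fin ρ → ℤ) (hu : InCone w Set.univ u) (hv : v ≠ 0) :
    ∃ φ : (Fin ρ → ℤ) →+ ℤ, Function.Surjective φ ∧ φ v ≠ 0 ∧ (∃ i, 0 < φ (w i)) ∧
      ∀ i, 0 < φ (w i) → InCone w {l | l = i ∨ φ (w l) = 0} u := by
  obtain ⟨q, hq, -, hqu⟩ := (inCone_iff _ _ _).1 hu
  have hv' : qv v ≠ 0 := by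
    intro h
    apply hv
    apply qv_inj
    rw [h]
    ext k; simp [qv]
  obtain ⟨φ, h1, ⟨i0, h2⟩, h3⟩ := wall_rat (fun i => qv (w i)) (span_qv hspan) q hq (qv v) hv'
  have hφ : φ ≠ 0 := by
    rintro rfl
    exact h1 rfl
  obtain ⟨ψ, c, hc, hsurj, hψ⟩ := exists_integral φ hφ
  have hpos : ∀ x, 0 < ψ x ↔ 0 < φ (qv x) := by
    intro x
    have h4 := hψ x
    constructor
    · intro h
      have h5 : (0 : ℚ) < ψ x := by exact_mod_cast h
      rw [h4] at h5
      exact (mul_pos_iff_of_pos_left hc).1 h5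
    · intro h
      have h5 : (0 : ℚ) < ψ x := by
        rw [h4]
        exact mul_pos hc h
      exact_mod_cast h5
  have hzero : ∀ x, φ (qv x) = 0 → ψ x = 0 := by
    intro x h
    have h4 := hψ x
    rw [h, mul_zero] at h4
    exact_mod_cast h4
  refine ⟨ψ, hsurj, ?_, ⟨i0, (hpos _).2 h2⟩, ?_⟩
  · intro h
    have h4 := hψ v
    rw [h] at h4
    rcases mul_eq_zero.1 (by rw [← h4]; simp) with h5 | h5
    · exact hc.ne' h5
    · exact h1 h5
  · intro i hi
    obtain ⟨q', h5, h6, h7⟩ := h3 i ((hpos _).1 hi)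
    rw [inCone_iff]
    refine ⟨q', h5, fun l hl => ?_, ?_⟩
    · rcases h6 l hl with h | h
      · exact Or.inl h
      · exact Or.inr (hzero _ h)
    · rw [h7, hqu]

end Pool.Agent.Run7.H918
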